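import Pool.Agent.N990.Mach.Chain
import Pool.Agent.N986.PB.SysDecay

/-!
# The machine: the ratio property
-/

set_option autoImplicit false
set_option linter.unusedSectionVars false

open MeasureTheory Finset Function Filter Topology
open scoped ENNReal Classical
open Pool.Agent.N986.PB

namespace Pool.Agent.N990.Mach

noncomputable section

variable {K Y V : Type*} [Group K] [MeasurableSpace K]
    [NormedAddCommGroup Y] [NormedSpace ℝ Y] [NormedAddCommGroup V] [NormedSpace ℝ V]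
    {ν : Measure K} {c : Cst}

lemma ratio_arith {D D' g κ m : ℝ} (hD : 0 ≤ D) (hD' : 0 ≤ D') (hκ : 0 ≤ κ) (hm : 0 ≤ m)
    (h1 : (1 - κ) * D ≤ (1 + m) * g) (h2 : (1 - κ) * g ≤ (1 + m) * D') :
    (1 - (2 * κ + 2 * m)) * D ≤ D' := by
  by_cases hs : 2 * κ + 2 * m < 1
  · have h3 : (1 - κ) * ((1 - κ) * D) ≤ (1 + m) * ((1 + m) * D') := by
      have h4 := mul_le_mul_of_nonneg_left h1 (by linarith : 0 ≤ 1 - κ)
      have h5 := mul_le_mul_of_nonneg_left h2 (by linarith : 0 ≤ 1 + m)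
      nlinarith
    have h6 : (1 - (2 * κ + 2 * m)) * ((1 + m) * (1 + m)) ≤ (1 - κ) * (1 - κ) := by
      have h7 : (1 - 2 * m) * ((1 + m) * (1 + m)) ≤ 1 := by
        nlinarith [mul_nonneg hm hm, mul_nonneg (mul_nonneg hm hm) hm]
      have h8 : 0 ≤ (1 - 2 * κ) := by linarith
      have h9 := mul_le_mul_of_nonneg_left h7 h8
      have h10 : 0 ≤ 4 * (κ * m) * ((1 + m) * (1 + m)) := by positivity
      nlinarith [mul_nonneg hκ hκ]
    have h11 := mul_le_mul_of_nonneg_right h6 hD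
    have h12 : 0 < (1 + m) * (1 + m) := by positivity
    refine le_of_mul_le_mul_left (?_ : ((1 + m) * (1 + m)) * _ ≤ ((1 + m) * (1 + m)) * _) h12
    linarith
  · have h3 : (1 - (2 * κ + 2 * m)) * D ≤ 0 :=
      mul_nonpos_of_nonpos_of_nonneg (by linarith) hD
    linarith

lemma ind_add {X : Type*} (P : X → Prop) (x : X) : ind P x + ind (fun x => ¬P x) x = 1 := by
  unfold ind
  by_cases h : P x <;> simp [h]

namespace Sys

variable {ι τ : Type*} (S : Sys ι τ K Y V ν c) (β : ℝ)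

/-- From the relative Lipschitz property to the ratio property, one volume. -/
lemma ratio_core [IsProbabilityMeasure ν] {W : Finset ι} {z : ι} {r : ℕ} {s : K} {δ Λ t κ : ℝ}
    (hRL : S.RL β W z s r δ Λ t) (hz : z ∈ W) (hδ : 0 ≤ δ) (hΛ : 0 ≤ Λ) (ht : 0 ≤ t) (hκ : 0 ≤ κ)
    {ψ ψ' : ι → K} (hψ : ∀ y, y ∉ W → S.d z y ≤ r + 1 → ψ y = ψ' y ∧ S.nrm (ψ y) ≤ δ)
    (hb : ev ν (S.w β) (W.erase z) (ind fun φ => ∃ y ∈ S.bd (S.reg W z r), δ < S.nrm (φ y))
      (update ψ z s) ≤ ENNReal.ofReal κ)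
    (hb' : ev ν (S.w β) W (ind fun φ => ∃ y ∈ S.bd (S.reg W z r), δ < S.nrm (φ y)) ψ' ≤
      ENNReal.ofReal κ) :
    (1 - (2 * κ + 2 * (Λ * (2 * δ) + t))) * (dn ν (S.w β) W z ψ s).toReal ≤
      (dn ν (S.w β) W z ψ' s).toReal := by
  obtain ⟨m, hm⟩ : ∃ m, m = Λ * (2 * δ) + t := ⟨_, rfl⟩
  have hm0 : 0 ≤ m := by rw [hm]; positivity
  rw [← hm]
  have hw := S.w_good (ν := ν) β
  obtain ⟨A, hA⟩ : ∃ A, A = S.reg W z r := ⟨_, rfl⟩
  have hAW : A ⊆ W := hA ▸ S.reg_sub W z r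
  have hzA : z ∈ A := hA ▸ S.self_mem_reg hz r
  rw [← hA] at hb hb'
  obtain ⟨P, hP⟩ : ∃ P : (ι → K) → Prop, P = fun φ => ∃ y ∈ S.bd A, δ < S.nrm (φ y) := ⟨_, rfl⟩
  rw [← hP] at hb hb'
  have mP : Measurable (ind P) := by rw [hP]; exact S.bad_meas (S.bd A) δ
  have mP' : Measurable (ind fun φ => ¬P φ) := by
    have : (ind fun φ => ¬P φ) = fun φ => 1 - ind P φ := by
      funext φ
      unfold ind
      by_cases h : P φ <;> simp [h]
    rw [this]
    exact measurable_const.sub mP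
  obtain ⟨F, hF⟩ : ∃ F : (ι → K) → ℝ≥0∞, F = fun φ => dn ν (S.w β) A z φ s := ⟨_, rfl⟩
  have mF : Measurable F := hF ▸ dn_measL hw A z s
  have fF : ∀ φ, F φ ≠ ∞ := fun φ => by rw [hF]; exact S.dn_ne_top β A z φ s
  obtain ⟨ref, href⟩ : ∃ ref : ι → K, ref = fun y => if y ∈ W then 1 else ψ y := ⟨_, rfl⟩
  obtain ⟨g, hg⟩ : ∃ g : ℝ, g = (F ref).toReal := ⟨_, rfl⟩
  have hg0 : 0 ≤ g := hg ▸ ENNReal.toReal_nonneg
  -- small boundary values
  have out : ∀ χ : ι → K, (∀ y ∉ W, S.d z y ≤ r + 1 → χ y = ψ y) → ¬P χ →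
      S.Adm W z r δ (2 * δ) ref χ ∧ S.Adm W z r δ (2 * δ) χ ref := by
    intro χ hχ hPχ
    rw [hP] at hPχ
    push Not at hPχ
    have h1 : ∀ y ∈ S.bd (S.reg W z r), S.nrm (ref y) ≤ δ := by
      intro y hy
      by_cases hyW : y ∈ W
      · have : ref y = 1 := by rw [href]; exact if_pos hyW
        rw [this, S.nrm_one]; exact hδ
      · have : ref y = ψ y := by rw [href]; exact if_neg hyW
        rw [this]
        exact (hψ y hyW (S.bd_reg hy).1).2
    have h2 : ∀ y ∈ S.bd (S.reg W z r), S.nrm (χ y) ≤ δ := fun y hy => hPχ y (hA ▸ hy)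
    have h3 : ∀ y, y ∉ W → S.d z y ≤ r + 1 → ref y = χ y := fun y hy hd => by
      rw [hχ y hy hd, href]; exact if_neg hy
    refine ⟨⟨h3, h1, h2, fun y hy => ?_⟩, ⟨fun y hy hd => (h3 y hy hd).symm, h2, h1,
      fun y hy => ?_⟩⟩
    · have := S.nrm_mul (χ y) (ref y)⁻¹
      rw [S.nrm_inv] at this
      linarith [h1 y hy, h2 y hy]
    · have := S.nrm_mul (ref y) (χ y)⁻¹
      rw [S.nrm_inv] at this
      linarith [h1 y hy, h2 y hy]
  have up : ∀ χ : ι → K, (∀ y ∉ W, S.d z y ≤ r + 1 → χ y = ψ y) → ¬P χ →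
      F χ ≤ ENNReal.ofReal ((1 + m) * g) := by
    intro χ hχ hPχ
    have h1 := hRL (2 * δ) ref χ (by linarith) (out χ hχ hPχ).1
    rw [← hA] at h1
    rw [ENNReal.le_ofReal_iff_toReal_le (fF χ) (by positivity), hg, hF]
    refine h1.trans (le_of_eq ?_)
    rw [hm]; ring
  have lo : ∀ χ : ι → K, (∀ y ∉ W, S.d z y ≤ r + 1 → χ y = ψ y) → ¬P χ →
      ENNReal.ofReal g ≤ ENNReal.ofReal (1 + m) * F χ := by
    intro χ hχ hPχ
    have h1 := hRL (2 * δ) χ ref (by linarith) (out χ hχ hPχ).2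
    rw [← hA] at h1
    rw [← ENNReal.ofReal_toReal (fF χ), ← ENNReal.ofReal_mul (by positivity)]
    refine ENNReal.ofReal_le_ofReal ?_
    rw [hg, hF]
    refine h1.trans (le_of_eq ?_)
    rw [hm]; ring
  have fD := S.dn_ne_top β W z ψ s
  have fD' := S.dn_ne_top β W z ψ' s
  -- upper bound for `ψ`
  have A1 : dn ν (S.w β) W z ψ s ≤ dn ν (S.w β) W z ψ s * ENNReal.ofReal κ +
      ENNReal.ofReal ((1 + m) * g) := by
    have e1 : ev ν (S.w β) W F ψ = dn ν (S.w β) W z ψ s := by rw [hF]; exact ev_dn hw hAW hzA ψ s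
    have e2 : ev ν (S.w β) W (fun φ => F φ * ind P φ) ψ ≤
        dn ν (S.w β) W z ψ s * ENNReal.ofReal κ := by
      rw [hF, ev_dn_mul hw hAW hzA mP fun φ φ' h => by
        have : P φ ↔ P φ' := by
          rw [hP]
          constructor
          · rintro ⟨y, hy, h'⟩
            exact ⟨y, hy, by rwa [← h y (S.mem_bd.1 hy).1]⟩
          · rintro ⟨y, hy, h'⟩
            exact ⟨y, hy, by rwa [h y (S.mem_bd.1 hy).1]⟩
        unfold ind
        by_cases hh : P φ
        · rw [if_pos hh, if_pos (this.1 hh)]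
        · rw [if_neg hh, if_neg fun h' => hh (this.2 h')]]
      exact mul_le_mul_right hb _
    have e3 : ev ν (S.w β) W (fun φ => F φ * ind (fun φ => ¬P φ) φ) ψ ≤
        ENNReal.ofReal ((1 + m) * g) := by
      rw [← ev_const hw (V := W) (ψ := ψ) (f := fun _ => ENNReal.ofReal ((1 + m) * g))
        fun _ _ => rfl]
      refine ev_mono' hw fun φ hφ => ?_
      by_cases hh : P φ
      · have : ind (fun φ => ¬P φ) φ = 0 := by unfold ind; rw [if_neg (not_not.2 hh)]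
        rw [this, mul_zero]; exact zero_le
      · refine (mul_le_mul_right (ind_le_one _ _) _).trans ?_
        rw [mul_one]
        exact up φ (fun y hy _ => hφ y hy) hh
    rw [← e1] at e2 ⊢
    refine le_trans (le_of_eq ?_) (add_le_add e2 e3)
    rw [← ev_add hw (f := fun φ => F φ * ind P φ) (mF.mul mP)]
    congr 1
    funext φ
    rw [← mul_add, ind_add, mul_one]
  -- lower bound for `ψ'`
  have A2 : ENNReal.ofReal g ≤ ENNReal.ofReal (1 + m) * dn ν (S.w β) W z ψ' s +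
      ENNReal.ofReal g * ENNReal.ofReal κ := by
    have e1 : ev ν (S.w β) W F ψ' = dn ν (S.w β) W z ψ' s := by
      rw [hF]; exact ev_dn hw hAW hzA ψ' s
    have e2 : ev ν (S.w β) W (fun φ => ENNReal.ofReal g * ind P φ) ψ' ≤
        ENNReal.ofReal g * ENNReal.ofReal κ := by
      rw [ev_const_mul hw mP (c := ENNReal.ofReal g) fun _ _ => rfl]
      exact mul_le_mul_right hb' _
    have e3 : ev ν (S.w β) W (fun φ => ENNReal.ofReal g * ind (fun φ => ¬P φ) φ) ψ' ≤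
        ENNReal.ofReal (1 + m) * dn ν (S.w β) W z ψ' s := by
      rw [← e1, ← ev_const_mul hw mF (g := fun _ => ENNReal.ofReal (1 + m)) fun _ _ => rfl]
      refine ev_mono' hw fun φ hφ => ?_
      by_cases hh : P φ
      · have : ind (fun φ => ¬P φ) φ = 0 := by unfold ind; rw [if_neg (not_not.2 hh)]
        rw [this, mul_zero]; exact zero_le
      · refine (mul_le_mul_right (ind_le_one _ _) _).trans ?_
        rw [mul_one]
        exact lo φ (fun y hy hd => by rw [hφ y hy, (hψ y hy hd).1]) hh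
    refine le_trans (le_of_eq ?_) (add_le_add e3 e2)
    rw [← ev_add hw (f := fun φ => ENNReal.ofReal g * ind (fun φ => ¬P φ) φ)
      (measurable_const.mul mP')]
    symm
    refine ev_const hw fun φ _ => ?_
    rw [← mul_add, add_comm, ind_add, mul_one]
  -- conclusion
  obtain ⟨D, hD⟩ : ∃ D, D = (dn ν (S.w β) W z ψ s).toReal := ⟨_, rfl⟩
  obtain ⟨D', hD'⟩ : ∃ D', D' = (dn ν (S.w β) W z ψ' s).toReal := ⟨_, rfl⟩
  have hD0 : 0 ≤ D := hD ▸ ENNReal.toReal_nonneg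
  have hD0' : 0 ≤ D' := hD' ▸ ENNReal.toReal_nonneg
  rw [← ENNReal.ofReal_toReal fD, ← hD, ← ENNReal.ofReal_mul hD0,
    ← ENNReal.ofReal_add (by positivity) (by positivity),
    ENNReal.ofReal_le_ofReal_iff (by positivity)] at A1
  rw [← ENNReal.ofReal_toReal fD', ← hD', ← ENNReal.ofReal_mul (by positivity),
    ← ENNReal.ofReal_mul hg0, ← ENNReal.ofReal_add (by positivity) (by positivity),
    ENNReal.ofReal_le_ofReal_iff (by positivity)] at A2
  rw [← hD, ← hD']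
  exact ratio_arith hD0 hD0' hκ hm0 (g := g) (by linarith) (by linarith)

/-- union bound for the bad boundary spins, from hole filling -/
lemma bad_union [IsProbabilityMeasure ν] {W : Finset ι} {B : Finset ι} {ψ : ι → K} {δ κ : ℝ}
    (hout : ∀ y ∈ B, y ∉ W → S.nrm (ψ y) ≤ δ)
    (hin : ∀ y ∈ B, y ∈ W → ev ν (S.w β) W (ind fun φ => δ < S.nrm (φ y)) ψ ≤ ENNReal.ofReal κ) :
    ev ν (S.w β) W (ind fun φ => ∃ y ∈ B, δ < S.nrm (φ y)) ψ ≤
      B.card * ENNReal.ofReal κ := by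
  have hw := S.w_good (ν := ν) β
  have m1 : ∀ y : ι, Measurable (ind fun φ : ι → K => δ < S.nrm (φ y)) := fun y =>
    ind_meas (measurableSet_lt measurable_const (S.nrm_meas.comp (measurable_pi_apply y)))
  have h1 : ev ν (S.w β) W (ind fun φ => ∃ y ∈ B, δ < S.nrm (φ y)) ψ ≤
      ev ν (S.w β) W (fun φ => ∑ y ∈ B, ind (fun φ : ι → K => δ < S.nrm (φ y)) φ) ψ := by
    refine ev_mono hw fun φ => ?_
    by_cases h : ∃ y ∈ B, δ < S.nrm (φ y)
    · obtain ⟨y, hy, hyδ⟩ := h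
      refine (ind_le_one _ _).trans ?_
      refine le_trans ?_ (Finset.single_le_sum (f := fun y => ind (fun φ : ι → K =>
        δ < S.nrm (φ y)) φ) (fun _ _ => zero_le) hy)
      unfold ind
      rw [if_pos hyδ]
    · unfold ind
      rw [if_neg h]; exact zero_le
  refine h1.trans ?_
  rw [ev_sum hw B m1 ψ, ← nsmul_eq_mul]
  refine Finset.sum_le_card_nsmul _ _ _ fun y hy => ?_
  by_cases hyW : y ∈ W
  · exact hin y hy hyW
  · rw [ev_const hw (c := 0) fun φ hφ => ?_]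
    · exact zero_le
    · unfold ind
      rw [if_neg]
      show ¬(δ < S.nrm (φ y))
      rw [hφ y hyW]
      exact not_lt.2 (hout y hy hyW)

end Sys

/-- **The ratio property with the sharp relation between radius and error.** -/
theorem ratioAll [MeasurableMul K] [IsProbabilityMeasure ν] [ν.IsMulLeftInvariant] :
    RatioAll Y V ν c := by
  obtain ⟨k₀, hk₀, hS2⟩ := small2 (Y := Y) (V := V) (ν := ν) (c := c)
  have hal := c.hal
  refine ⟨k₀ + 1, fun J e he => ?_⟩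
  rcases J with _ | j
  · refine ⟨1, one_pos, 1, fun β hβ ι τ S W hW z hz ψ ψ' hag s hs => ?_⟩
    have h1 : (1 : ℝ≥0∞) ≤ ENNReal.ofReal (β ^ (-(((0 : ℕ) : ℝ) / 2 - e))) := by
      rw [← ENNReal.ofReal_one]
      refine ENNReal.ofReal_le_ofReal (Real.one_le_rpow hβ ?_)
      rw [Nat.cast_zero]; linarith
    rw [tsub_eq_zero_of_le h1, zero_mul]
    exact zero_le
  · have hk : 0 ≤ 1 / (2 * c.al) := by positivity
    obtain ⟨e₁, he₁, hC⟩ := CJ_all (Y := Y) (V := V) (ν := ν) (c := c) j (e / 4) (j + 1)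
      (by linarith) (by positivity)
    obtain ⟨e2, he2⟩ : ∃ e2 : ℝ, e2 = min e₁ (e / 4) := ⟨_, rfl⟩
    have he20 : 0 < e2 := by rw [he2]; exact lt_min he₁ (by linarith)
    have he21 : e2 ≤ e₁ := he2 ▸ min_le_left _ _
    have he22 : e2 ≤ e / 4 := he2 ▸ min_le_right _ _
    obtain ⟨β₂, hβ₂, h2⟩ := hS2 (e2 / 2) e2 (by linarith) (by linarith)
    have v1 := vol_ev (ν := ν) (Y := Y) (V := V) c hk (j + 1) one_pos
    have v2 := ev_exp 1 ((j : ℝ) + 2) he20
    have v3 := ev_rpow (a := -(((j + 1 : ℕ) : ℝ) / 2 - e)) (b := -(((j + 1 : ℕ) : ℝ) / 2 - e / 2)) 8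
      (by linarith)
    have v4 := Real.tendsto_log_atTop.eventually_ge_atTop ((j : ℝ) + 4)
    obtain ⟨β₁, hβ₁⟩ := Filter.eventually_atTop.1 ((hC e2 he20 he21).and
      (v1.and (v2.and (v3.and v4))))
    refine ⟨e2 / 2, by linarith, max (max β₁ β₂) 1, fun β hβ ι τ S W hW z hz ψ ψ' hag s hs => ?_⟩
    have hβ1 : 1 ≤ β := (le_max_right _ _).trans hβ
    have hβ0 : 0 < β := by linarith
    obtain ⟨hRL, v1, v2, v3, v4⟩ := hβ₁ β (((le_max_left _ _).trans (le_max_left _ _)).trans hβ)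
    have h2β := h2 β (((le_max_right _ _).trans (le_max_left _ _)).trans hβ) ι τ S
    have d1 : β ^ (-1 / 2 + e2 / 2) ≤ β ^ (-1 / 2 + e2) := rp_mono hβ1 (by linarith)
    have hs' : S.nrm s ≤ β ^ (-1 / 2 + e2 / 2) := hs
    have hRLβ := hRL ι τ S W z s hW hz (hs'.trans d1)
    obtain ⟨-, n2⟩ := v1 ι τ S W z
    obtain ⟨r, hr⟩ : ∃ r, r = (j + 1) * rho c β := ⟨_, rfl⟩
    have hr' : (j + 1) * rad (1 / (2 * c.al)) β = r := hr.symm
    rw [hr'] at n2
    rw [← hr] at hRLβ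
    obtain ⟨R, hR⟩ : ∃ R, R = rad (((j + 1 : ℕ) : ℝ) / (2 * c.al) + (k₀ + 1)) β := ⟨_, rfl⟩
    rw [← hR] at hag
    have hlog := Real.log_nonneg hβ1
    -- the radii
    have hrad : r + 1 + rad k₀ β ≤ R := by
      have a1 : (rho c β : ℝ) ≤ 1 / (2 * c.al) * Real.log β + 1 := by
        unfold rho rad
        exact (Nat.ceil_lt_add_one (by positivity)).le
      have a2 : (rad k₀ β : ℝ) ≤ k₀ * Real.log β + 1 := by
        unfold rad
        exact (Nat.ceil_lt_add_one (by positivity)).le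
      have a3 : (((j + 1 : ℕ) : ℝ) / (2 * c.al) + (k₀ + 1)) * Real.log β ≤ R := by
        rw [hR]; exact Nat.le_ceil _
      have a4 : (r : ℝ) ≤ ((j : ℝ) + 1) * (1 / (2 * c.al) * Real.log β + 1) := by
        rw [hr]; push_cast
        exact mul_le_mul_of_nonneg_left a1 (by positivity)
      have a5 : ((r + 1 + rad k₀ β : ℕ) : ℝ) ≤ R := by
        push_cast at a3 ⊢
        have a6 : ((j : ℝ) + 1) * (1 / (2 * c.al) * Real.log β + 1) =
            ((j : ℝ) + 1) / (2 * c.al) * Real.log β + (j + 1) := by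
          field_simp
        have a7 : (((j : ℝ) + 1) / (2 * c.al) + (k₀ + 1)) * Real.log β =
          ((j : ℝ) + 1) / (2 * c.al) * Real.log β + k₀ * Real.log β + Real.log β := by ring
        linarith
      exact_mod_cast a5
    have hrR : r + 1 ≤ R := by omega
    obtain ⟨κ₀, hκ₀⟩ : ∃ κ₀, κ₀ = Real.exp (-β ^ e2) := ⟨_, rfl⟩
    have hκ₀0 : 0 < κ₀ := hκ₀ ▸ Real.exp_pos _
    rw [← hκ₀, one_mul] at v2
    rw [Real.rpow_one] at n2
    have hcard : ((S.bd (S.reg W z r)).card : ℝ) ≤ β := by linarith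
    have hdist : ∀ y ∈ S.bd (S.reg W z r), S.d z y ≤ r + 1 := fun y hy => (S.bd_reg hy).1
    have key : ∀ (W' : Finset ι) (χ : ι → K), W' ⊆ W → (∀ y, y ∉ W' → S.d z y ≤ R →
        S.nrm (χ y) ≤ β ^ (-1 / 2 + e2 / 2)) →
        ev ν (S.w β) W' (ind fun φ => ∃ y ∈ S.bd (S.reg W z r), β ^ (-1 / 2 + e2) < S.nrm (φ y)) χ ≤
          ENNReal.ofReal (β * κ₀) := by
      intro W' χ hW' hχ
      refine (S.bad_union β (κ := κ₀) (fun y hy hyW => ?_) fun y hy hyW => ?_).trans ?_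
      · exact (hχ y hyW ((hdist y hy).trans hrR)).trans d1
      · rw [hκ₀]
        refine h2β W' (hW'.trans hW) y hyW χ fun y' hy' hd => hχ y' hy' ?_
        have := S.dtri z y y'
        have := hdist y hy
        omega
      · rw [← ENNReal.ofReal_natCast, ← ENNReal.ofReal_mul (Nat.cast_nonneg _)]
        exact ENNReal.ofReal_le_ofReal (mul_le_mul_of_nonneg_right hcard hκ₀0.le)
    have hcore := S.ratio_core β (ν := ν) (κ := β * κ₀) (ψ := ψ) (ψ' := ψ') hRLβ hz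
      (Real.rpow_nonneg hβ0.le _) (Real.rpow_nonneg hβ0.le _) (Real.rpow_nonneg hβ0.le _)
      (by positivity) (fun y hy hd => ⟨(hag y hy (hd.trans hrR)).1,
        le_trans (hag y hy (hd.trans hrR)).2 d1⟩)
      (key (W.erase z) (update ψ z s) (Finset.erase_subset _ _) fun y hy hd => by
        by_cases hyz : y = z
        · rw [hyz, update_self]; exact hs'
        · rw [update_of_ne hyz]
          exact (hag y (fun h => hy (Finset.mem_erase.2 ⟨hyz, h⟩)) hd).2)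
      (key W ψ' subset_rfl fun y hy hd => by
        rw [← (hag y hy hd).1]
        exact (hag y hy hd).2)
    have hε : 2 * (β * κ₀) + 2 * (β ^ (-(j : ℝ) / 2 + e / 4) * (2 * β ^ (-1 / 2 + e2)) +
        β ^ (-((j : ℝ) + 1))) ≤ β ^ (-(((j + 1 : ℕ) : ℝ) / 2 - e)) := by
      obtain ⟨X, hX⟩ : ∃ X, X = β ^ (-(((j + 1 : ℕ) : ℝ) / 2 - e / 2)) := ⟨_, rfl⟩
      rw [← hX] at v3
      have hX0 : 0 < X := hX ▸ Real.rpow_pos_of_pos hβ0 _
      have hj0 : (0 : ℝ) ≤ j := Nat.cast_nonneg _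
      have b1 : β * κ₀ ≤ X := by
        refine (mul_le_mul_of_nonneg_left v2 hβ0.le).trans ?_
        rw [rp1 hβ0 rfl, hX]
        refine rp_mono hβ1 ?_
        push_cast; linarith
      have b2 : β ^ (-(j : ℝ) / 2 + e / 4) * (2 * β ^ (-1 / 2 + e2)) ≤ 2 * X := by
        rw [show β ^ (-(j : ℝ) / 2 + e / 4) * (2 * β ^ (-1 / 2 + e2)) =
          2 * (β ^ (-(j : ℝ) / 2 + e / 4) * β ^ (-1 / 2 + e2)) by ring, rp2 hβ0 rfl, hX]
        refine mul_le_mul_of_nonneg_left (rp_mono hβ1 ?_) (by norm_num)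
        push_cast; linarith
      have b3 : β ^ (-((j : ℝ) + 1)) ≤ X := by
        rw [hX]
        refine rp_mono hβ1 ?_
        push_cast; linarith
      linarith
    have fD := S.dn_ne_top β W z ψ s (ν := ν)
    have fD' := S.dn_ne_top β W z ψ' s (ν := ν)
    rw [← ENNReal.ofReal_toReal fD, ← ENNReal.ofReal_toReal fD', ← ENNReal.ofReal_one,
      ← ENNReal.ofReal_sub _ (Real.rpow_nonneg hβ0.le _), ← ENNReal.ofReal_mul' ENNReal.toReal_nonneg]
    refine ENNReal.ofReal_le_ofReal (le_trans ?_ hcore)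
    exact mul_le_mul_of_nonneg_right (by linarith) ENNReal.toReal_nonneg

end

end Pool.Agent.N990.Mach
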