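import Mathlib
import Pool.Agent.N986.PB.Ev

/-!
# The machine: interface

Spin systems with finite range interaction on a set `ι` of sites with a distance of bounded growth.
The spin space `K` is a group with a left invariant probability measure. The energy is a sum of
local terms, bounded above by the squares of the sizes of the spins, coercive, and almost quadratic
near the ground state `1` with respect to left shifts; the quadratic part has harmonic extensions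
with exponential decay.
-/

set_option autoImplicit false
set_option linter.unusedSectionVars false

open MeasureTheory Finset Function
open scoped ENNReal Classical

namespace Pool.Agent.N990.Mach

noncomputable section

/-- The constants. -/
structure Cst where
  /-- growth of balls -/
  Cg : ℝ
  Dg : ℕ
  /-- upper bound of the energy and coercivity -/
  C0 : ℝ
  c0 : ℝ
  /-- number of terms at a site -/
  Cn : ℝ
  /-- Taylor expansion -/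
  CT : ℝ
  /-- bound of the bilinear form -/
  Cb : ℝ
  /-- harmonic extension: constant and rate -/
  Ch : ℝ
  al : ℝ
  /-- volumes of small balls -/
  cv : ℝ
  nv : ℝ
  /-- radius of smallness -/
  r0 : ℝ
  /-- upper bound of the size of a spin -/
  nm : ℝ
  hCg : 1 ≤ Cg
  hC0 : 1 ≤ C0
  hc0 : 0 < c0
  hCn : 1 ≤ Cn
  hCT : 0 ≤ CT
  hCb : 0 ≤ Cb
  hCh : 1 ≤ Ch
  hal : 0 < al
  hcv : 0 < cv
  hnv : 0 ≤ nv
  hr0 : 0 < r0
  hr1 : r0 ≤ 1
  hnm : 1 ≤ nm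

/-- The terms touching `A`. -/
def tch {ι τ : Type*} (T : Finset τ) (sp : τ → Finset ι) (A : Finset ι) : Finset τ :=
  T.filter fun t => ¬Disjoint (sp t) A

/-- The sites in the supports of the terms touching `A`. -/
def cl {ι τ : Type*} (T : Finset τ) (sp : τ → Finset ι) (A : Finset ι) : Finset ι :=
  (tch T sp A).biUnion sp

/-- A spin system. `τ` is the type of the interaction terms, `Y` and `V` are the spaces of the
linearised variables (first and second slot of the quadratic form). -/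
structure Sys (ι τ K Y V : Type*) [Group K] [MeasurableSpace K]
    [NormedAddCommGroup Y] [NormedSpace ℝ Y] [NormedAddCommGroup V] [NormedSpace ℝ V]
    (ν : Measure K) (c : Cst) where
  d : ι → ι → ℕ
  dself : ∀ a, d a a = 0
  dsymm : ∀ a b, d a b = d b a
  dtri : ∀ a b x, d a x ≤ d a b + d b x
  growth : ∀ (W : Finset ι) (z : ι) (r : ℕ),
    ((W.filter fun y => d z y ≤ r).card : ℝ) ≤ c.Cg * ((r : ℝ) + 1) ^ c.Dg
  /-- the sites with dynamical spins -/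
  Lam : Finset ι
  /-- the interaction terms -/
  T : Finset τ
  /-- the support of a term -/
  sp : τ → Finset ι
  diam : ∀ t ∈ T, ∀ x ∈ sp t, ∀ y ∈ sp t, d x y ≤ 1
  tcard : ∀ A : Finset ι, ((tch T sp A).card : ℝ) ≤ c.Cn * A.card
  h : τ → (ι → K) → ℝ
  hloc : ∀ t ∈ T, ∀ φ φ' : ι → K, (∀ y ∈ sp t, φ y = φ' y) → h t φ = h t φ'
  hmeas : ∀ t ∈ T, Measurable (h t)
  hbd : ∀ t ∈ T, ∃ M : ℝ, ∀ φ, |h t φ| ≤ M
  /-- the size of a spin -/
  nrm : K → ℝ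
  nrm_meas : Measurable nrm
  nrm_nonneg : ∀ g, 0 ≤ nrm g
  nrm_one : nrm 1 = 0
  nrm_mul : ∀ g g', nrm (g * g') ≤ nrm g + nrm g'
  nrm_inv : ∀ g, nrm g⁻¹ = nrm g
  nrm_le : ∀ g, nrm g ≤ c.nm
  vol : ∀ s : ℝ, 0 < s → s ≤ 1 → ENNReal.ofReal (c.cv * s ^ c.nv) ≤ ν {g | nrm g ≤ s}
  /-- upper bound of the energy touching `A` by the squares of the sizes, on `A` and at the
  boundary sites -/
  upper : ∀ A ⊆ Lam, ∀ φ : ι → K, ∑ t ∈ tch T sp A, h t φ ≤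
    c.C0 * ∑ y ∈ cl T sp A ∪ A, nrm (φ y) ^ 2
  /-- coercivity -/
  coer : ∀ A ⊆ Lam, ∀ φ : ι → K, c.c0 * ∑ y ∈ A, nrm (φ y) ^ 2 ≤ ∑ t ∈ tch T sp A, h t φ
  /-- linearisation in the first slot -/
  yy : K → Y
  yy_le : ∀ g, nrm g ≤ c.r0 → ‖yy g‖ ≤ 2 * nrm g
  /-- logarithm and exponential -/
  p : K → V
  ex : V → K
  /-- `v` is close to `1 + w` -/
  Rel : ℝ → ℝ → K → V → Prop
  rel_p : ∀ (δ ω : ℝ) (g : K), nrm g ≤ ω → ω ≤ δ → δ ≤ c.r0 → Rel δ ω g (p g)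
  p_le : ∀ (ω : ℝ) (g : K), nrm g ≤ ω → ω ≤ c.r0 → ‖p g‖ ≤ ω
  rel_ex : ∀ (δ ω : ℝ) (w : V), ‖w‖ ≤ ω → ω ≤ δ → δ ≤ c.r0 → Rel δ ω (ex w) w
  ex_nrm : ∀ (ω : ℝ) (w : V), ‖w‖ ≤ ω → ω ≤ c.r0 → nrm (ex w) ≤ 2 * ω
  rel_one : ∀ δ ω : ℝ, 0 ≤ ω → ω ≤ δ → Rel δ ω 1 0
  /-- the quadratic form and the constant term -/
  b : τ → (ι → Y) → (ι → V) → ℝ
  cc : τ → (ι → V) → ℝ
  b_add : ∀ t, ∀ (φ φ' : ι → Y) (w : ι → V), b t (φ + φ') w = b t φ w + b t φ' w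
  b_bd : ∀ t ∈ T, ∀ (φ : ι → Y) (w : ι → V) (x y : ℝ), (∀ i ∈ sp t, ‖φ i‖ ≤ x) →
    (∀ i ∈ sp t, ‖w i‖ ≤ y) → |b t φ w| ≤ c.Cb * x * y
  cc_bd : ∀ t ∈ T, ∀ (w : ι → V) (y : ℝ), (∀ i ∈ sp t, ‖w i‖ ≤ y) → |cc t w| ≤ c.Cb * y ^ 2
  taylor : ∀ t ∈ T, ∀ (φ v : ι → K) (w : ι → V) (δ ω : ℝ), 0 ≤ ω → ω ≤ δ → δ ≤ c.r0 →
    (∀ y ∈ sp t, nrm (φ y) ≤ δ) → (∀ y ∈ sp t, Rel δ ω (v y) (w y)) →
    |h t (v * φ) - h t φ - (b t (fun y => yy (φ y)) w + cc t w)| ≤ c.CT * (ω * δ ^ 2)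
  /-- harmonic extension -/
  harm : ∀ A ⊆ Lam, ∀ z : ι → V, ∃ w : ι → V, (∀ y, y ∉ A → w y = z y) ∧
    (∀ φ : ι → Y, (∀ y, y ∉ A → φ y = 0) →
      ∑ t ∈ tch T sp A, b t φ w = 0) ∧
    ∀ y ∈ A, ‖w y‖ ≤ c.Ch * ∑ x ∈ cl T sp A \ A, Real.exp (-(c.al * d y x)) * ‖z x‖

namespace Sys

variable {ι τ K Y V : Type*} [Group K] [MeasurableSpace K]
    [NormedAddCommGroup Y] [NormedSpace ℝ Y] [NormedAddCommGroup V] [NormedSpace ℝ V]
    {ν : Measure K} {c : Cst}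

/-- the energy -/
def H (S : Sys ι τ K Y V ν c) (φ : ι → K) : ℝ := ∑ t ∈ S.T, S.h t φ

/-- the Boltzmann weight -/
def w (S : Sys ι τ K Y V ν c) (β : ℝ) (φ : ι → K) : ℝ≥0∞ :=
  ENNReal.ofReal (Real.exp (-(β * S.H φ)))

/-- the energy of the terms touching `A` -/
def HA (S : Sys ι τ K Y V ν c) (A : Finset ι) (φ : ι → K) : ℝ :=
  ∑ t ∈ tch S.T S.sp A, S.h t φ

/-- the outer boundary of `A` -/
def bd (S : Sys ι τ K Y V ν c) (A : Finset ι) : Finset ι := cl S.T S.sp A \ A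

/-- the set of the small spins -/
def sm (S : Sys ι τ K Y V ν c) (δ : ℝ) : Set K := {g | S.nrm g ≤ δ}

end Sys

end

end Pool.Agent.N990.Mach
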