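import Pool.Agent.N990.Mach.Iface

/-!
# The machine: probabilistic inputs (statements)
-/

set_option autoImplicit false
set_option linter.unusedSectionVars false

open MeasureTheory Finset Function
open scoped ENNReal Classical
open Pool.Agent.N986.PB

namespace Pool.Agent.N990.Mach

noncomputable section

/-- indicator of an event, as a function with values in `[0,∞]` -/
def ind {X : Type*} (P : X → Prop) (x : X) : ℝ≥0∞ := if P x then 1 else 0

/-- the radius `⌈k log β⌉` -/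
def rad (k β : ℝ) : ℕ := ⌈k * Real.log β⌉₊

/-- One step energy bound: if the boundary spins are at most `β^(-1/2+e0)` then the spins in `A` are
at most `β^(-1/2+e1)`, up to a very small probability, for regions of at most `β^η` sites,
`η` small. -/
def Small1 {K Y V : Type*} [Group K] [MeasurableSpace K]
    [NormedAddCommGroup Y] [NormedSpace ℝ Y] [NormedAddCommGroup V] [NormedSpace ℝ V]
    (ν : Measure K) (c : Cst) : Prop :=
  ∀ e0 e1 : ℝ, 0 < e0 → e0 < e1 → ∃ η > (0 : ℝ), ∃ β₀ ≥ (1 : ℝ), ∀ β ≥ β₀, ∀ (ι τ : Type)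
    (S : Sys ι τ K Y V ν c), ∀ A ⊆ S.Lam, (A.card : ℝ) ≤ β ^ η → ∀ ψ : ι → K,
    (∀ y ∈ S.bd A, S.nrm (ψ y) ≤ β ^ (-1 / 2 + e0)) →
    ev ν (S.w β) A (ind fun φ => ∃ a ∈ A, β ^ (-1 / 2 + e1) < S.nrm (φ a)) ψ ≤
      ENNReal.ofReal (Real.exp (-β ^ e1))

/-- Hole filling: if the frozen spins near `z` are at most `β^(-1/2+e0)` then the spin at `z` is at
most `β^(-1/2+e1)`, up to a very small probability, whatever happens at distance more than
`k log β`. -/
def Small2 {K Y V : Type*} [Group K] [MeasurableSpace K]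
    [NormedAddCommGroup Y] [NormedSpace ℝ Y] [NormedAddCommGroup V] [NormedSpace ℝ V]
    (ν : Measure K) (c : Cst) : Prop :=
  ∃ k₀ > (0 : ℝ), ∀ e0 e1 : ℝ, 0 < e0 → e0 < e1 → ∃ β₀ ≥ (1 : ℝ), ∀ β ≥ β₀, ∀ (ι τ : Type)
    (S : Sys ι τ K Y V ν c), ∀ A ⊆ S.Lam, ∀ z ∈ A, ∀ ψ : ι → K,
    (∀ y, y ∉ A → S.d z y ≤ rad k₀ β → S.nrm (ψ y) ≤ β ^ (-1 / 2 + e0)) →
    ev ν (S.w β) A (ind fun φ => β ^ (-1 / 2 + e1) < S.nrm (φ z)) ψ ≤
      ENNReal.ofReal (Real.exp (-β ^ e1))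

end

end Pool.Agent.N990.Mach
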