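import Pool.Agent.N990.Mach.Asym

/-!
# The machine: the chain of layer estimates
-/

set_option autoImplicit false
set_option linter.unusedSectionVars false

open MeasureTheory Finset Function Filter Topology
open scoped ENNReal Classical
open Pool.Agent.N986.PB

namespace Pool.Agent.N990.Mach

noncomputable section

variable {K Y V : Type*} [Group K] [MeasurableSpace K]
    [NormedAddCommGroup Y] [NormedSpace ℝ Y] [NormedAddCommGroup V] [NormedSpace ℝ V]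
    {ν : Measure K} {c : Cst}

/-- the radius of a layer -/
def rho (c : Cst) (β : ℝ) : ℕ := rad (1 / (2 * c.al)) β

/-- The relative Lipschitz property after `j + 1` layers, with the constant `β ^ (-j/2)` up to small
powers. -/
def CJ (Y V : Type*) [NormedAddCommGroup Y] [NormedSpace ℝ Y] [NormedAddCommGroup V]
    [NormedSpace ℝ V] (ν : Measure K) (c : Cst) (j : ℕ) : Prop :=
  ∀ η0 M : ℝ, 0 < η0 → 0 < M → ∃ e₁ > (0 : ℝ), ∀ e, 0 < e → e ≤ e₁ → ∀ᶠ β : ℝ in atTop,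
    ∀ (ι τ : Type) (S : Sys ι τ K Y V ν c) (W : Finset ι) (z : ι) (s : K), W ⊆ S.Lam → z ∈ W →
      S.nrm s ≤ β ^ (-1 / 2 + e) →
      S.RL β W z s ((j + 1) * rho c β) (β ^ (-1 / 2 + e)) (β ^ (-(j : ℝ) / 2 + η0)) (β ^ (-M))

lemma CJ_zero [MeasurableMul K] [IsProbabilityMeasure ν] [ν.IsMulLeftInvariant] :
    CJ Y V ν c 0 := by
  intro η0 M hη0 hM
  refine ⟨min (η0 / 10) (1 / 100), by positivity, fun e he he1 => ?_⟩
  have he2 : e ≤ η0 / 10 := he1.trans (min_le_left _ _)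
  have he3 : e ≤ 1 / 100 := he1.trans (min_le_right _ _)
  obtain ⟨a1, ha1, hB⟩ := badB_ev (ν := ν) (c := c) (Y := Y) (V := V) he
    (show e < 2 * e by linarith)
  obtain ⟨a, ha⟩ : ∃ a, a = min a1 (e / 2) := ⟨_, rfl⟩
  have ha0 : 0 < a := ha ▸ lt_min ha1 (by linarith)
  have haa : a ≤ a1 := ha ▸ min_le_left _ _
  have hae : a ≤ e / 2 := ha ▸ min_le_right _ _
  have hal := c.hal
  have hk : 0 ≤ 1 / (2 * c.al) := by positivity
  obtain ⟨C, hC⟩ : ∃ C : ℝ, C = 2 * (c.Cn * c.CT * c.Ch) +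
    2 * c.Cn * (c.CT + 3 * c.Cb) * c.Ch := ⟨_, rfl⟩
  have v1 := vol_ev (ν := ν) (Y := Y) (V := V) c hk 1 ha0
  have v2 := ev_rpow (a := -1 / 2 + 3 * e) (b := a + (-1 / 2 + e)) (8 * c.Ch) (by linarith)
  have v3 := ev_lt (x := -1 / 2 + 3 * e) (y := c.r0) 2 (by linarith) c.hr0
  have v4 := ev_exp 8 0 (x := 2 * e) (by linarith)
  have v5 := ev_rpow (a := -1 / 2 + 3 * e) (b := -1 / 2 + 2 * e) 2 (by linarith)
  have v6 := ev_lt (x := 2 * a + 2 * (3 * e) + (-1 / 2 + e)) (y := 1 / 2) (2 * C) (by linarith)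
    (by norm_num)
  have v7 := ev_rpow (a := η0) (b := 2 * a + 2 * (3 * e)) (3 * C) (by linarith)
  have v8 := ev_exp 3 M (x := 2 * e) (by linarith)
  filter_upwards [hB, v1, v2, v3, v4, v5, v6, v7, v8, eventually_ge_atTop 1] with β hB v1 v2 v3 v4
    v5 v6 v7 v8 hβ ι τ S W z s hW hz hs
  have hβ0 : 0 < β := by linarith
  obtain ⟨n1, n2⟩ := v1 ι τ S W z
  rw [one_mul] at n1 n2
  rw [Nat.cast_zero, zero_add, one_mul]
  have e1 : (-0 / 2 + η0 : ℝ) = η0 := by ring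
  rw [e1]
  have hr : Real.exp (-(c.al * (rho c β : ℝ))) ≤ β ^ (-1 / 2 : ℝ) := exp_rad hal hβ0
  have hEB := EB_le c hβ ha0.le (show 0 ≤ 3 * e by linarith) hr
  rw [← hC] at hEB
  have hcard : ((S.reg W z (rho c β)).card : ℝ) ≤ β ^ a1 := n1.trans (rp_mono hβ haa)
  have hAL : S.reg W z (rho c β) ⊆ S.Lam := (S.reg_sub W z _).trans hW
  have hcard' : (((S.reg W z (rho c β)).erase z).card : ℝ) ≤ β ^ a1 :=
    le_trans (by exact_mod_cast Finset.card_le_card (Finset.erase_subset _ _)) hcard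
  have hg2 : β ^ (-1 / 2 + 2 * e) ≤ β ^ (-1 / 2 + 3 * e) / 2 := by linarith
  have hb := S.base (ν := ν) β (W := W) (z := z) (r := rho c β) (s := s) (δ := β ^ (-1 / 2 + e))
    (δg := β ^ (-1 / 2 + 3 * e)) (κ := Real.exp (-β ^ (2 * e))) (n := β ^ a) hβ0.le hW hz hs n1 n2
    (by rw [mul_assoc, rp2 hβ0 rfl]; exact v2) v3 (Real.exp_pos _).le
    (by rw [neg_zero, Real.rpow_zero] at v4; linarith)
    (Sys.BadB.mono S (hB ι τ S _ hAL hcard) le_rfl hg2 le_rfl)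
    (Sys.BadB.mono S (hB ι τ S _ ((Finset.erase_subset _ _).trans hAL) hcard') le_rfl hg2 le_rfl)
    (by
      have h1 : 0 ≤ 2 * β ^ (-1 / 2 + e) := by positivity
      refine (mul_le_mul_of_nonneg_right hEB h1).trans ?_
      rw [show C * β ^ (2 * a + 2 * (3 * e)) * (2 * β ^ (-1 / 2 + e)) =
        2 * C * (β ^ (2 * a + 2 * (3 * e)) * β ^ (-1 / 2 + e)) by ring, rp2 hβ0 rfl]
      exact v6)
  refine Sys.RL.mono S hb ?_ ?_
  · linarith
  · linarith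

lemma CJ_succ [MeasurableMul K] [IsProbabilityMeasure ν] [ν.IsMulLeftInvariant] {j : ℕ}
    (hj : CJ Y V ν c j) : CJ Y V ν c (j + 1) := by
  intro η0 M hη0 hM
  obtain ⟨η1, hη1⟩ : ∃ η1 : ℝ, η1 = min (η0 / 4) (1 / 8) := ⟨_, rfl⟩
  have hη10 : 0 < η1 := by rw [hη1]; positivity
  have hη11 : η1 ≤ η0 / 4 := hη1 ▸ min_le_left _ _
  have hη12 : η1 ≤ 1 / 8 := hη1 ▸ min_le_right _ _
  obtain ⟨M1, hM1⟩ : ∃ M1 : ℝ, M1 = M + j + 2 := ⟨_, rfl⟩
  have hj0 : (0 : ℝ) ≤ j := Nat.cast_nonneg _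
  obtain ⟨e₁, he₁, hC1⟩ := hj η1 M1 hη10 (by linarith)
  refine ⟨min (e₁ / 5) (min (η0 / 100) (1 / 100)), by positivity, fun e he he1 => ?_⟩
  have he2 : e ≤ e₁ / 5 := he1.trans (min_le_left _ _)
  have he3 : e ≤ η0 / 100 := he1.trans ((min_le_right _ _).trans (min_le_left _ _))
  have he4 : e ≤ 1 / 100 := he1.trans ((min_le_right _ _).trans (min_le_right _ _))
  have hR := hC1 (5 * e) (by linarith) (by linarith)
  obtain ⟨a1, ha1, hB⟩ := badB_ev (ν := ν) (c := c) (Y := Y) (V := V) he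
    (show e < 2 * e by linarith)
  obtain ⟨a2, ha2, hB2⟩ := badB_ev (ν := ν) (c := c) (Y := Y) (V := V)
    (show 0 < 2 * e by linarith) (show 2 * e < 3 * e by linarith)
  obtain ⟨a, ha⟩ : ∃ a, a = min (min a1 a2) (e / 2) := ⟨_, rfl⟩
  have ha0 : 0 < a := ha ▸ lt_min (lt_min ha1 ha2) (by linarith)
  have haa : a ≤ a1 := ha ▸ (min_le_left _ _).trans (min_le_left _ _)
  have haa2 : a ≤ a2 := ha ▸ (min_le_left _ _).trans (min_le_right _ _)
  have hae : a ≤ e / 2 := ha ▸ min_le_right _ _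
  have hal := c.hal
  have hk : 0 ≤ 1 / (2 * c.al) := by positivity
  obtain ⟨C, hC⟩ : ∃ C : ℝ, C = c.Cn * c.CT * c.Ch := ⟨_, rfl⟩
  have hCh := c.hCh
  have hCn := c.hCn
  have hCT := c.hCT
  have hC0 : 0 ≤ C := hC ▸ by positivity
  have v0 := vol_ev (ν := ν) (Y := Y) (V := V) c hk (j + 1) ha0
  have v1 := vol_ev (ν := ν) (Y := Y) (V := V) c hk (j + 1 + 1) ha0
  have v2 := ev_rpow (a := -1 / 2 + 4 * e) (b := a + (-1 / 2 + e)) (8 * c.Ch) (by linarith)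
  have v3 := ev_lt (x := -1 / 2 + 4 * e) (y := c.r0) 2 (by linarith) c.hr0
  have v4 := ev_exp 16 0 (x := 2 * e) (by linarith)
  have v5 := ev_rpow (a := -1 / 2 + 4 * e) (b := -1 / 2 + 3 * e) 2 (by linarith)
  have v6 := ev_rpow (a := -1 / 2 + 5 * e) (b := -1 / 2 + 4 * e) 2 (by linarith)
  have v7 := ev_lt (x := -(j : ℝ) / 2 + η1 + (-1 / 2 + 5 * e)) (y := 1 / 2) 3 (by linarith)
    (by norm_num)
  have v8 := ev_lt (x := 2 * a + 2 * (4 * e) + (-1 / 2 + e)) (y := 1 / 4) (4 * C) (by linarith)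
    (by norm_num)
  have v9 := ev_rpow (a := -((j + 1 : ℕ) : ℝ) / 2 + η0)
    (b := -((j : ℝ) + 1) / 2 + η1 + 14 * e) (4 * c.Ch + 144 * C * 3)
    (by push_cast; linarith)
  have v10 := ev_exp (2 * 80) M (x := 2 * e) (by linarith)
  have v11 := ev_rpow (a := -M) (b := -M1) 4 (by linarith)
  filter_upwards [hB, hB2, hR, v0, v1, v2, v3, v4, v5, v6, v7, v8, v9, v10, v11,
    eventually_gt_atTop 1] with β hB hB2 hR v0 v1 v2 v3 v4 v5 v6 v7 v8 v9 v10 v11 hβ1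
    ι τ S W z s hW hz hs
  have hβ : 1 ≤ β := hβ1.le
  have hβ0 : 0 < β := by linarith
  obtain ⟨n1, n2⟩ := v1 ι τ S W z
  obtain ⟨n3, -⟩ := v0 ι τ S W z
  have hr : Real.exp (-(c.al * (rho c β : ℝ))) ≤ β ^ (-1 / 2 : ℝ) := exp_rad hal hβ0
  have hρ : 0 < rho c β := by
    unfold rho rad
    refine Nat.ceil_pos.2 ?_
    have := Real.log_pos hβ1
    positivity
  have hrr : (j + 1) * rho c β < (j + 1 + 1) * rho c β := by nlinarith
  have hsub : (j + 1 + 1) * rho c β - (j + 1) * rho c β = rho c β := by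
    have : (j + 1 + 1) * rho c β = (j + 1) * rho c β + rho c β := by ring
    omega
  have hAL' : S.reg W z ((j + 1 + 1) * rho c β) ⊆ S.Lam := (S.reg_sub W z _).trans hW
  have hAL : S.reg W z ((j + 1) * rho c β) ⊆ S.Lam := (S.reg_sub W z _).trans hW
  have hcard : ((S.reg W z ((j + 1 + 1) * rho c β)).card : ℝ) ≤ β ^ a1 := n1.trans (rp_mono hβ haa)
  have hcard' : (((S.reg W z ((j + 1 + 1) * rho c β)).erase z).card : ℝ) ≤ β ^ a1 :=
    le_trans (by exact_mod_cast Finset.card_le_card (Finset.erase_subset _ _)) hcard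
  have hcard2 : ((S.reg W z ((j + 1) * rho c β)).card : ℝ) ≤ β ^ a2 := n3.trans (rp_mono hβ haa2)
  have d1 : β ^ (-1 / 2 + e) ≤ β ^ (-1 / 2 + 2 * e) := rp_mono hβ (by linarith)
  have d2 : β ^ (-1 / 2 + 2 * e) ≤ β ^ (-1 / 2 + 3 * e) := rp_mono hβ (by linarith)
  have d3 : β ^ (-1 / 2 + 3 * e) ≤ β ^ (-1 / 2 + 4 * e) := rp_mono hβ (by linarith)
  have d4 : β ^ (-1 / 2 + e) ≤ β ^ (-1 / 2 + 5 * e) := rp_mono hβ (by linarith)
  have κ3 : Real.exp (-β ^ (3 * e)) ≤ Real.exp (-β ^ (2 * e)) :=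
    Real.exp_le_exp.2 (neg_le_neg (rp_mono hβ (by linarith)))
  obtain ⟨κ, hκ⟩ : ∃ κ, κ = Real.exp (-β ^ (2 * e)) := ⟨_, rfl⟩
  rw [neg_zero, Real.rpow_zero] at v4
  rw [← hκ] at v4 v10 κ3
  have hκ0 : 0 < κ := hκ ▸ Real.exp_pos _
  obtain ⟨Λ, hΛ⟩ : ∃ Λ, Λ = β ^ (-(j : ℝ) / 2 + η1) := ⟨_, rfl⟩
  have hΛ0 : 0 < Λ := hΛ ▸ Real.rpow_pos_of_pos hβ0 _
  obtain ⟨t, ht⟩ : ∃ t, t = β ^ (-M1) := ⟨_, rfl⟩
  have ht0 : 0 < t := ht ▸ Real.rpow_pos_of_pos hβ0 _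
  have hRL := hR ι τ S W z s hW hz (hs.trans d4)
  rw [← hΛ, ← ht] at hRL
  obtain ⟨X, hX⟩ : ∃ X, X = β ^ (-(j : ℝ) / 2 + η1 + (-1 / 2 + 5 * e)) := ⟨_, rfl⟩
  rw [← hX] at v7
  have hΛX : Λ * β ^ (-1 / 2 + 5 * e) = X := by rw [hΛ, hX, rp2 hβ0 rfl]
  have htX : t ≤ X := by rw [ht, hX]; exact rp_mono hβ (by linarith)
  have hX0 : 0 < X := lt_of_lt_of_le ht0 htX
  have hEL := EL_eq c hβ0 a (4 * e)
  rw [← hC] at hEL
  have hm1 : 2 * Λ * β ^ (-1 / 2 + 5 * e) + t ≤ 3 * X := by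
    rw [mul_assoc, hΛX]; linarith
  have hl := S.layer (ν := ν) β (W := W) (z := z) (r := (j + 1) * rho c β)
    (r' := (j + 1 + 1) * rho c β) (s := s) (δ := β ^ (-1 / 2 + e)) (δb := β ^ (-1 / 2 + 2 * e))
    (δg := β ^ (-1 / 2 + 4 * e)) (δ2 := β ^ (-1 / 2 + 5 * e)) (κ1 := κ) (κ2 := κ)
    (κ := 2 * κ) (n := β ^ a) (Λ := Λ) (t := t) hβ0.le hrr hW hz hs n1 n2
    (by rw [mul_assoc, rp2 hβ0 rfl]; exact v2) d1 (by linarith) v6 v3 hκ0.le hκ0.le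
    (by linarith) (by linarith) hΛ0.le ht0.le (by linarith)
    (by
      rw [hEL, show 2 * (C * β ^ (2 * a + 2 * (4 * e))) * (2 * β ^ (-1 / 2 + e)) =
        4 * C * (β ^ (2 * a + 2 * (4 * e)) * β ^ (-1 / 2 + e)) by ring, rp2 hβ0 rfl]
      exact v8)
    (Sys.BadB.mono S (hB ι τ S _ hAL' hcard) le_rfl (d2.trans d3) (by rw [← hκ]; linarith))
    (Sys.BadB.mono S (hB ι τ S _ ((Finset.erase_subset _ _).trans hAL') hcard') le_rfl le_rfl
      (by rw [← hκ]))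
    (Sys.BadB.mono S (hB2 ι τ S _ hAL hcard2) le_rfl (by linarith) κ3) hRL
  refine Sys.RL.mono S hl ?_ ?_
  · rw [hsub, hEL]
    obtain ⟨Z, hZ⟩ : ∃ Z, Z = β ^ (-((j : ℝ) + 1) / 2 + η1 + 14 * e) := ⟨_, rfl⟩
    rw [← hZ] at v9
    have hZ0 : 0 < Z := hZ ▸ Real.rpow_pos_of_pos hβ0 _
    have h1 : 4 * Λ * (c.Ch * β ^ a * Real.exp (-(c.al * (rho c β : ℝ)))) ≤ 4 * c.Ch * Z := by
      calc 4 * Λ * (c.Ch * β ^ a * Real.exp (-(c.al * (rho c β : ℝ)))) =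
            4 * c.Ch * (Λ * β ^ a * Real.exp (-(c.al * (rho c β : ℝ)))) := by ring
        _ ≤ 4 * c.Ch * (Λ * β ^ a * β ^ (-1 / 2 : ℝ)) := by
            refine mul_le_mul_of_nonneg_left (mul_le_mul_of_nonneg_left hr ?_) (by linarith)
            positivity
        _ ≤ 4 * c.Ch * Z := by
            refine mul_le_mul_of_nonneg_left ?_ (by linarith)
            rw [hΛ, rp2 hβ0 rfl, rp2 hβ0 rfl, hZ]
            exact rp_mono hβ (by linarith)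
    have h2 : 144 * (C * β ^ (2 * a + 2 * (4 * e))) * (2 * Λ * β ^ (-1 / 2 + 5 * e) + t) ≤
        144 * C * 3 * Z := by
      calc 144 * (C * β ^ (2 * a + 2 * (4 * e))) * (2 * Λ * β ^ (-1 / 2 + 5 * e) + t) ≤
            144 * (C * β ^ (2 * a + 2 * (4 * e))) * (3 * X) :=
            mul_le_mul_of_nonneg_left hm1 (by positivity)
        _ = 144 * C * 3 * (β ^ (2 * a + 2 * (4 * e)) * X) := by ring
        _ ≤ 144 * C * 3 * Z := by
            refine mul_le_mul_of_nonneg_left ?_ (by positivity)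
            rw [hX, rp2 hβ0 rfl, hZ]
            exact rp_mono hβ (by linarith)
    calc _ ≤ 4 * c.Ch * Z + 144 * C * 3 * Z := add_le_add h1 h2
      _ = (4 * c.Ch + 144 * C * 3) * Z := by ring
      _ ≤ _ := v9
  · rw [← ht] at v11
    linarith

lemma CJ_all [MeasurableMul K] [IsProbabilityMeasure ν] [ν.IsMulLeftInvariant] (j : ℕ) :
    CJ Y V ν c j := by
  induction j with
  | zero => exact CJ_zero
  | succ j ih => exact CJ_succ ih

end

end Pool.Agent.N990.Mach
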