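import Pool.Agent.N990.Mach.Layer
import Pool.Agent.N986.PB.Small

/-!
# The machine: asymptotic inequalities
-/

set_option autoImplicit false
set_option linter.unusedSectionVars false

open MeasureTheory Finset Function Filter Topology
open scoped ENNReal Classical
open Pool.Agent.N986.PB

namespace Pool.Agent.N990.Mach

noncomputable section

lemma ev_lt (C : ℝ) {x y : ℝ} (hx : x < 0) (hy : 0 < y) : ∀ᶠ β : ℝ in atTop, C * β ^ x ≤ y := by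
  have h1 : Tendsto (fun β : ℝ => C * β ^ (-(-x))) atTop (𝓝 (C * 0)) :=
    (tendsto_rpow_neg_atTop (by linarith : 0 < -x)).const_mul C
  rw [mul_zero, neg_neg] at h1
  filter_upwards [h1.eventually (gt_mem_nhds hy)] with β h
  exact h.le

lemma ev_exp (C M : ℝ) {x : ℝ} (hx : 0 < x) :
    ∀ᶠ β : ℝ in atTop, C * Real.exp (-β ^ x) ≤ β ^ (-M) := by
  have h1 := ev_log (M + 1) hx
  have h2 := ev_rpow (a := -M) (b := -(M + 1)) |C| (by linarith)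
  filter_upwards [h1, h2, eventually_gt_atTop 0] with β h1 h2 h3
  have h4 : Real.exp (-β ^ x) ≤ β ^ (-(M + 1)) := by
    rw [Real.rpow_def_of_pos h3 (-(M + 1))]
    refine Real.exp_le_exp.2 ?_
    linarith
  calc C * Real.exp (-β ^ x) ≤ |C| * Real.exp (-β ^ x) :=
        mul_le_mul_of_nonneg_right (le_abs_self C) (Real.exp_pos _).le
    _ ≤ |C| * β ^ (-(M + 1)) := mul_le_mul_of_nonneg_left h4 (abs_nonneg C)
    _ ≤ _ := h2

lemma exp_rad {al β : ℝ} (hal : 0 < al) (hβ : 0 < β) :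
    Real.exp (-(al * (rad (1 / (2 * al)) β : ℝ))) ≤ β ^ (-1 / 2 : ℝ) := by
  rw [Real.rpow_def_of_pos hβ]
  refine Real.exp_le_exp.2 ?_
  have h1 : 1 / (2 * al) * Real.log β ≤ (rad (1 / (2 * al)) β : ℝ) := Nat.le_ceil _
  have h2 := mul_le_mul_of_nonneg_left h1 hal.le
  have h3 : al * (1 / (2 * al) * Real.log β) = Real.log β / 2 := by field_simp
  linarith

lemma rp2 {β : ℝ} (hβ : 0 < β) {x y z : ℝ} (h : x + y = z) : β ^ x * β ^ y = β ^ z := by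
  rw [← Real.rpow_add hβ, h]

lemma rp1 {β : ℝ} (hβ : 0 < β) {y z : ℝ} (h : 1 + y = z) : β * β ^ y = β ^ z := by
  nth_rw 1 [← Real.rpow_one β]
  exact rp2 hβ h

lemma rp_mono {β : ℝ} (hβ : 1 ≤ β) {x y : ℝ} (h : x ≤ y) : β ^ x ≤ β ^ y :=
  Real.rpow_le_rpow_of_exponent_le hβ h

lemma EL_eq (c : Cst) {β : ℝ} (hβ : 0 < β) (a x : ℝ) :
    Sys.EL c β (β ^ a) (β ^ (-1 / 2 + x)) = c.Cn * c.CT * c.Ch * β ^ (2 * a + 2 * x) := by
  unfold Sys.EL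
  have h1 : β ^ (2 * a + 2 * x) = β * (β ^ a * β ^ a * (β ^ (-1 / 2 + x) * β ^ (-1 / 2 + x))) := by
    rw [rp2 hβ (rfl : a + a = a + a), rp2 hβ (rfl : (-1 / 2 + x) + (-1 / 2 + x) = _),
      rp2 hβ rfl, rp1 hβ rfl]
    congr 1; ring
  rw [h1]
  ring

lemma EB_le (c : Cst) {β : ℝ} (hβ : 1 ≤ β) {a x : ℝ} (ha : 0 ≤ a) (hx : 0 ≤ x) {r : ℕ}
    (hr : Real.exp (-(c.al * r)) ≤ β ^ (-1 / 2 : ℝ)) :
    Sys.EB c β (β ^ a) (β ^ (-1 / 2 + x)) r ≤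
      (2 * (c.Cn * c.CT * c.Ch) + 2 * c.Cn * (c.CT + 3 * c.Cb) * c.Ch) * β ^ (2 * a + 2 * x) := by
  have hβ0 : 0 < β := by linarith
  have h1 := EL_eq c hβ0 a x
  unfold Sys.EL at h1
  unfold Sys.EB
  rw [h1]
  have hCh := c.hCh
  have hCn := c.hCn
  have hCT := c.hCT
  have hCb := c.hCb
  have h2 : β * (c.Cn * ((c.CT + 3 * c.Cb) * (2 * β ^ (-1 / 2 + x) *
      (c.Ch * β ^ a * Real.exp (-(c.al * r)))))) ≤
      2 * c.Cn * (c.CT + 3 * c.Cb) * c.Ch * β ^ (2 * a + 2 * x) := by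
    have h3 : β * (β ^ (-1 / 2 + x) * β ^ a * Real.exp (-(c.al * r))) ≤ β ^ (2 * a + 2 * x) := by
      calc β * (β ^ (-1 / 2 + x) * β ^ a * Real.exp (-(c.al * r))) ≤
            β * (β ^ (-1 / 2 + x) * β ^ a * β ^ (-1 / 2 : ℝ)) := by
            refine mul_le_mul_of_nonneg_left (mul_le_mul_of_nonneg_left hr ?_) hβ0.le
            positivity
        _ = β ^ (x + a) := by
            rw [rp2 hβ0 rfl, rp2 hβ0 rfl, rp1 hβ0 rfl]
            congr 1; ring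
        _ ≤ _ := rp_mono hβ (by linarith)
    have h4 : 0 ≤ 2 * c.Cn * (c.CT + 3 * c.Cb) * c.Ch := by positivity
    have h5 := mul_le_mul_of_nonneg_left h3 h4
    refine le_trans (le_of_eq ?_) h5
    ring
  calc _ ≤ 2 * (c.Cn * c.CT * c.Ch * β ^ (2 * a + 2 * x)) +
        2 * c.Cn * (c.CT + 3 * c.Cb) * c.Ch * β ^ (2 * a + 2 * x) := add_le_add le_rfl h2
    _ = _ := by ring

variable {K Y V : Type*} [Group K] [MeasurableSpace K]
    [NormedAddCommGroup Y] [NormedSpace ℝ Y] [NormedAddCommGroup V] [NormedSpace ℝ V]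
    {ν : Measure K} {c : Cst}

namespace Sys

variable {ι τ : Type*} (S : Sys ι τ K Y V ν c) {β : ℝ}

lemma BadB.mono [IsProbabilityMeasure ν] {A : Finset ι} {δ δ' δg δg' κ κ' : ℝ} (h : S.BadB β A δ δg κ) (hδ : δ' ≤ δ)
    (hg : δg ≤ δg') (hκ : κ ≤ κ') : S.BadB β A δ' δg' κ' := by
  intro θ hθ
  refine le_trans (ev_mono (S.w_good (ν := ν) β) fun φ => ?_) ((h θ fun y hy =>
    (hθ y hy).trans hδ).trans (ENNReal.ofReal_le_ofReal hκ))
  refine ind_mono ?_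
  rintro ⟨a, ha, h'⟩
  exact ⟨a, ha, lt_of_le_of_lt hg h'⟩

lemma RL.mono {W : Finset ι} {z : ι} {s : K} {r : ℕ} {δ Λ Λ' t t' : ℝ}
    (h : S.RL β W z s r δ Λ t) (hΛ : Λ ≤ Λ') (ht : t ≤ t') : S.RL β W z s r δ Λ' t' := by
  intro ω η η' hω hadm
  refine (h ω η η' hω hadm).trans (mul_le_mul_of_nonneg_right ?_ ENNReal.toReal_nonneg)
  have := mul_le_mul_of_nonneg_right hΛ hω
  linarith

end Sys

/-- volumes of the balls -/
lemma vol_ev (c : Cst) {k : ℝ} (hk : 0 ≤ k) (j : ℕ) {a : ℝ} (ha : 0 < a) :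
    ∀ᶠ β : ℝ in atTop, ∀ (ι τ : Type) (S : Sys ι τ K Y V ν c) (W : Finset ι) (z : ι),
      ((S.reg W z (j * rad k β)).card : ℝ) ≤ β ^ a ∧
      ((S.bd (S.reg W z (j * rad k β))).card : ℝ) + 1 ≤ β ^ a := by
  have h1 := ev_rad k hk (c.Cg * (j + 1) ^ c.Dg * (2 + c.Cg * 2 ^ c.Dg)) c.Dg ha
  filter_upwards [h1] with β h1 ι τ S W z
  have hCg := c.hCg
  obtain ⟨X, hX⟩ : ∃ X : ℝ, X = c.Cg * (((j : ℝ) + 1) * ((rad k β : ℝ) + 2)) ^ c.Dg := ⟨_, rfl⟩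
  have h2 : ((S.reg W z (j * rad k β)).card : ℝ) ≤ X := by
    refine (S.growth W z (j * rad k β)).trans ?_
    rw [hX]
    refine mul_le_mul_of_nonneg_left (pow_le_pow_left₀ (by positivity) ?_ _) (by linarith)
    push_cast
    have h3 : (0 : ℝ) ≤ j := Nat.cast_nonneg _
    have h4 : (0 : ℝ) ≤ (rad k β : ℝ) := Nat.cast_nonneg _
    nlinarith
  have h3 : 1 ≤ X := by
    rw [hX]
    have h4 : (1 : ℝ) ≤ (((j : ℝ) + 1) * ((rad k β : ℝ) + 2)) ^ c.Dg := by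
      refine one_le_pow₀ ?_
      have h3 : (0 : ℝ) ≤ j := Nat.cast_nonneg _
      have h4 : (0 : ℝ) ≤ (rad k β : ℝ) := Nat.cast_nonneg _
      nlinarith
    nlinarith
  have h4 : X * (2 + c.Cg * 2 ^ c.Dg) ≤ β ^ a := by
    refine le_trans (le_of_eq ?_) h1
    rw [hX, mul_pow]; ring
  have h5 : (0 : ℝ) ≤ c.Cg * 2 ^ c.Dg := by positivity
  have h6 := S.card_bd (S.reg W z (j * rad k β))
  have h7 := mul_le_mul_of_nonneg_right h2 h5
  constructor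
  · nlinarith
  · nlinarith

/-- rare bad spins, from one step -/
lemma badB_ev [IsProbabilityMeasure ν] {e0 e1 : ℝ} (h0 : 0 < e0) (h1 : e0 < e1) :
    ∃ a > (0 : ℝ), ∀ᶠ β : ℝ in atTop, ∀ (ι τ : Type) (S : Sys ι τ K Y V ν c) (A : Finset ι),
      A ⊆ S.Lam → (A.card : ℝ) ≤ β ^ a →
        S.BadB β A (β ^ (-1 / 2 + e0)) (β ^ (-1 / 2 + e1)) (Real.exp (-β ^ e1)) := by
  obtain ⟨a, ha, β₀, _, h⟩ := small1 (ν := ν) (c := c) (Y := Y) (V := V) e0 e1 h0 h1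
  refine ⟨a, ha, ?_⟩
  filter_upwards [eventually_ge_atTop β₀] with β hβ ι τ S A hA hc θ hθ
  exact h β hβ ι τ S A hA hc θ hθ

end

end Pool.Agent.N990.Mach
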