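import Pool.Agent.N990.Mach.RL

/-!
# The machine: base estimate
-/

set_option autoImplicit false
set_option linter.unusedSectionVars false

open MeasureTheory Finset Function
open scoped ENNReal Classical
open Pool.Agent.N986.PB

namespace Pool.Agent.N990.Mach

noncomputable section

variable {ι τ K Y V : Type*} [Group K] [MeasurableSpace K]
    [NormedAddCommGroup Y] [NormedSpace ℝ Y] [NormedAddCommGroup V] [NormedSpace ℝ V]
    {ν : Measure K} {c : Cst}

namespace Sys

variable (S : Sys ι τ K Y V ν c) (β : ℝ)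

/-- a small shift of a single spin -/
lemma zshift {z : ι} {φ : ι → K} {u : V} {δ ω : ℝ} (hω : 0 ≤ ω) (hωδ : ω ≤ δ) (hδ : δ ≤ c.r0)
    (hu : ‖u‖ ≤ ω) (hφ : ∀ t ∈ S.T, z ∈ S.sp t → ∀ y ∈ S.sp t, S.nrm (φ y) ≤ δ) :
    |S.H (update (1 : ι → K) z (S.ex u) * φ) - S.H φ| ≤ c.Cn * ((c.CT + 3 * c.Cb) * (δ * ω)) := by
  have h0 : 0 ≤ δ := hω.trans hωδ
  have hCT := c.hCT
  have hCb := c.hCb
  have hδ1 : δ ≤ 1 := hδ.trans c.hr1
  set v : ι → K := update (1 : ι → K) z (S.ex u) with hv
  set w : ι → V := update (0 : ι → V) z u with hw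
  have h1 : S.H (v * φ) - S.H φ = ∑ t ∈ tch S.T S.sp {z}, (S.h t (v * φ) - S.h t φ) := by
    rw [S.H_spl {z}, S.H_spl {z} φ]
    unfold HA
    rw [Finset.sum_sub_distrib]
    have e1 : ∑ t ∈ S.T \ tch S.T S.sp {z}, S.h t (v * φ) =
        ∑ t ∈ S.T \ tch S.T S.sp {z}, S.h t φ := by
      refine Finset.sum_congr rfl fun t ht => ?_
      obtain ⟨a1, a2⟩ := S.not_tch ht
      refine S.hloc t a1 _ _ fun y hy => ?_
      have hyz : y ≠ z := fun h => a2 y hy (by rw [h]; exact Finset.mem_singleton_self z)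
      rw [Pi.mul_apply, hv, update_of_ne hyz, Pi.one_apply, one_mul]
    rw [e1]; ring
  rw [h1]
  have h2 : ∀ t ∈ tch S.T S.sp {z}, |S.h t (v * φ) - S.h t φ| ≤
      (c.CT + 3 * c.Cb) * (δ * ω) := by
    intro t ht
    obtain ⟨htT, x, hx, hxz⟩ := S.mem_tch.1 ht
    rw [Finset.mem_singleton] at hxz
    subst hxz
    have hgood := hφ t htT hx
    have h3 := S.taylor t htT φ v w δ ω hω hωδ hδ hgood (by
      intro y hy
      by_cases hyz : y = x
      · subst hyz
        rw [hv, hw, update_self, update_self]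
        exact S.rel_ex δ ω u hu hωδ hδ
      · rw [hv, hw, update_of_ne hyz, update_of_ne hyz]
        exact S.rel_one δ ω hω hωδ)
    have hwn : ∀ i ∈ S.sp t, ‖w i‖ ≤ ω := by
      intro i _
      by_cases hi : i = x
      · subst hi; rw [hw, update_self]; exact hu
      · rw [hw, update_of_ne hi]; simpa using hω
    have h4 := S.b_bd t htT (fun y => S.yy (φ y)) w (2 * δ) ω (by
      intro i hi
      refine (S.yy_le _ ((hgood i hi).trans hδ)).trans ?_
      have := hgood i hi
      linarith) hwn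
    have h5 := S.cc_bd t htT w ω hwn
    have h6 : S.h t (v * φ) - S.h t φ = (S.h t (v * φ) - S.h t φ -
        (S.b t (fun y => S.yy (φ y)) w + S.cc t w)) + S.b t (fun y => S.yy (φ y)) w +
        S.cc t w := by ring
    rw [h6]
    refine (abs_add_three _ _ _).trans ?_
    have e1 : c.CT * (ω * δ ^ 2) ≤ c.CT * (δ * ω) := by
      refine mul_le_mul_of_nonneg_left ?_ hCT
      nlinarith [mul_nonneg hω h0, mul_nonneg (mul_nonneg hω h0) (sub_nonneg.2 hδ1)]
    have e2 : c.Cb * ω ^ 2 ≤ c.Cb * (δ * ω) := by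
      refine mul_le_mul_of_nonneg_left ?_ hCb
      nlinarith
    linarith
  refine (Finset.abs_sum_le_sum_abs _ _).trans ((Finset.sum_le_sum h2).trans ?_)
  rw [Finset.sum_const, nsmul_eq_mul]
  refine mul_le_mul_of_nonneg_right ?_ (by positivity)
  have := S.tcard {z}
  rwa [Finset.card_singleton, Nat.cast_one, mul_one] at this

/-- the exponent in the base estimate -/
def EB (c : Cst) (β n δg : ℝ) (r : ℕ) : ℝ :=
  2 * (β * (c.Cn * n * (c.CT * (c.Ch * n * δg ^ 2)))) +
    β * (c.Cn * ((c.CT + 3 * c.Cb) * (2 * δg * (c.Ch * n * Real.exp (-(c.al * r))))))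

lemma base_arith {E κ N0 N1 Z0 Z1 a b : ℝ} (hE : 0 ≤ E) (hE1 : E ≤ 1 / 2) (hκ : 0 ≤ κ)
    (hκ1 : κ ≤ 1 / 8) (hN0 : 0 ≤ N0) (hZ0 : 0 < Z0) (hZ1 : 0 < Z1) (ha : 0 < a)
    (hba : b = Real.exp E * a) (h1 : (1 - κ) * N1 ≤ b * N0) (h2 : (1 - κ) * a * Z0 ≤ Z1) :
    N1 / Z1 ≤ (1 + 3 * E + 3 * κ) * (N0 / Z0) := by
  have h3 : Real.exp E ≤ 1 + 2 * E := by
    have := Real.abs_exp_sub_one_le (x := E) (by rw [abs_of_nonneg hE]; linarith)
    rw [abs_of_nonneg hE] at this
    linarith [(abs_le.1 this).2]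
  have hk : 0 < 1 - κ := by linarith
  have hq : 0 < (1 - κ) * a * Z0 := by positivity
  rw [div_le_iff₀ hZ1]
  have h4 : 0 ≤ (1 + 3 * E + 3 * κ) * (N0 / Z0) := by positivity
  refine le_trans ?_ (mul_le_mul_of_nonneg_left h2 h4)
  have h5 : (1 + 3 * E + 3 * κ) * (N0 / Z0) * ((1 - κ) * a * Z0) =
      (1 + 3 * E + 3 * κ) * (1 - κ) * (a * N0) := by field_simp
  rw [h5]
  have h6 : (1 - κ) * N1 ≤ (1 + 2 * E) * (a * N0) := by
    refine h1.trans ?_
    rw [hba]
    have := mul_le_mul_of_nonneg_right h3 (mul_nonneg ha.le hN0)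
    linarith
  have h7 : (1 + 2 * E) ≤ (1 - κ) * ((1 + 3 * E + 3 * κ) * (1 - κ)) := by
    nlinarith [mul_nonneg hE hκ, mul_nonneg hκ hκ, mul_nonneg (mul_nonneg hκ hκ) hκ,
      mul_nonneg (mul_nonneg hE hκ) hκ]
  have h8 : (1 - κ) * N1 ≤ (1 - κ) * ((1 + 3 * E + 3 * κ) * (1 - κ) * (a * N0)) := by
    refine h6.trans ?_
    have := mul_le_mul_of_nonneg_right h7 (mul_nonneg ha.le hN0)
    linarith
  exact le_of_mul_le_mul_left h8 hk

theorem base [MeasurableMul K] [IsProbabilityMeasure ν] [ν.IsMulLeftInvariant] (hβ : 0 ≤ β)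
    {W : Finset ι} {z : ι} {r : ℕ} {s : K} {δ δg κ n : ℝ} (hW : W ⊆ S.Lam) (hz : z ∈ W)
    (hs : S.nrm s ≤ δ) (hn1 : ((S.reg W z r).card : ℝ) ≤ n)
    (hn2 : ((S.bd (S.reg W z r)).card : ℝ) + 1 ≤ n) (hδg : 8 * c.Ch * n * δ ≤ δg)
    (hδg2 : 2 * δg ≤ c.r0) (hκ : 0 ≤ κ) (hκ1 : κ ≤ 1 / 8)
    (h1 : S.BadB β (S.reg W z r) δ (δg / 2) κ)
    (h2 : S.BadB β ((S.reg W z r).erase z) δ (δg / 2) κ) (hE : EB c β n δg r * (2 * δ) ≤ 1 / 2) :
    S.RL β W z s r δ (3 * EB c β n δg r) (3 * κ) := by
  have hδ0 : 0 ≤ δ := (S.nrm_nonneg s).trans hs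
  have hCh := c.hCh
  have hCn := c.hCn
  have hCT := c.hCT
  have hCb := c.hCb
  have hal := c.hal
  set A := S.reg W z r with hA
  have hcA : (0 : ℝ) ≤ A.card := Nat.cast_nonneg _
  have hcB : (0 : ℝ) ≤ (S.bd A).card := Nat.cast_nonneg _
  have hn : 1 ≤ n := by linarith
  have hδδg : δ ≤ δg / 8 := by
    have : 1 * δ ≤ (c.Ch * n) * δ := mul_le_mul_of_nonneg_right (by nlinarith) hδ0
    linarith
  have hδg0 : 0 ≤ δg := by linarith
  have hEB : 0 ≤ EB c β n δg r := by unfold EB; positivity
  have hAL : A ⊆ S.Lam := (S.reg_sub W z r).trans hW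
  have hzA : z ∈ A := S.self_mem_reg hz r
  have hw := S.w_good (ν := ν) β
  -- the case `ω ≤ 2 δ`
  have main : ∀ (ω : ℝ) (η η' : ι → K), 0 ≤ ω → ω ≤ 2 * δ → S.Adm W z r δ ω η η' →
      (dn ν (S.w β) A z η' s).toReal ≤
        (1 + 3 * EB c β n δg r * ω + 3 * κ) * (dn ν (S.w β) A z η s).toReal := by
    intro ω η η' hω hω2 hadm
    set ω1 := c.Ch * ((S.bd A).card + 1) * ω with hω1
    have hω1n : ω1 ≤ c.Ch * n * ω := by
      rw [hω1]
      exact mul_le_mul_of_nonneg_right (mul_le_mul_of_nonneg_left hn2 (by linarith)) hω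
    have hω1g : ω1 ≤ δg / 4 := by
      have : c.Ch * n * ω ≤ c.Ch * n * (2 * δ) :=
        mul_le_mul_of_nonneg_left hω2 (by positivity)
      linarith
    have hω10 : 0 ≤ ω1 := by positivity
    obtain ⟨v, w, hv1, hv2, hv3, hv4, hv5⟩ := S.shift_field hAL (fun y => η' y * (η y)⁻¹) hω
      (δ := δg) hadm.cls (by linarith) (by linarith)
    obtain ⟨k, hk⟩ := S.shift_det (A := A) (η := η) (v := v) (w := w) (δ := δg) (ω := ω1)
      (e := 0) hω10 (by linarith) (by linarith) (fun y hy => by
        have := hadm.sm y hy; linarith) hv3 (fun χ hχ _ => by rw [hv4 χ hχ, abs_zero])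
    rw [add_zero] at hk
    set ε := c.Cn * A.card * (c.CT * (ω1 * δg ^ 2)) with hε
    -- the shift at `z`
    have hfar : ∀ x ∈ S.bd A, η' x * (η x)⁻¹ ≠ 1 → r ≤ S.d z x := by
      intro x hx hne
      by_cases hxW : x ∈ W
      · have := (S.bd_reg hx).2 hxW
        omega
      · exfalso
        apply hne
        rw [hadm.out x hxW (S.bd_reg hx).1, mul_inv_cancel]
    obtain ⟨hvz, hvz2⟩ := hv5 z hzA
    obtain ⟨hwz, -⟩ := hvz2 r hfar
    set ωz := c.Ch * (S.bd A).card * Real.exp (-(c.al * r)) * ω with hωz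
    have hexp1 : Real.exp (-(c.al * r)) ≤ 1 := Real.exp_le_one_iff.2 (by
      have : 0 ≤ c.al * r := by positivity
      linarith)
    have hexp0 := Real.exp_pos (-(c.al * (r : ℝ)))
    have hωz0 : 0 ≤ ωz := by positivity
    have hωzn : ωz ≤ c.Ch * n * Real.exp (-(c.al * r)) * ω := by
      rw [hωz]
      refine mul_le_mul_of_nonneg_right (mul_le_mul_of_nonneg_right
        (mul_le_mul_of_nonneg_left (by linarith) (by linarith)) hexp0.le) hω
    have hωz1 : ωz ≤ ω1 := by
      rw [hωz, hω1]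
      refine mul_le_mul_of_nonneg_right ?_ hω
      rw [mul_assoc]
      refine mul_le_mul_of_nonneg_left ?_ (by linarith)
      nlinarith
    have hvn : ∀ y ∈ A, S.nrm (v y) ≤ 2 * ω1 := by
      intro y hy
      refine ((hv5 y hy).2 0 fun _ _ _ => Nat.zero_le _).2.trans ?_
      rw [Nat.cast_zero, mul_zero, neg_zero, Real.exp_zero, mul_one, hω1]
      refine mul_le_mul_of_nonneg_left (mul_le_mul_of_nonneg_right
        (mul_le_mul_of_nonneg_left (by linarith) (by linarith)) hω) (by norm_num)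
    have hvη : ∀ y ∈ S.bd A, (v * η) y = η' y := by
      intro y hy
      rw [Pi.mul_apply, hv1 y hy, inv_mul_cancel_right]
    -- names
    set B := A.erase z with hB
    set θ := update η z s with hθ
    set vt := update v z 1 with hvt
    have hvtθ : vt * θ = update (v * η) z s := by
      funext y
      by_cases hy : y = z
      · subst hy; rw [Pi.mul_apply, hvt, hθ, update_self, update_self, update_self, one_mul]
      · rw [Pi.mul_apply, hvt, hθ, update_of_ne hy, update_of_ne hy, update_of_ne hy,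
          Pi.mul_apply]
    have e1 : dn ν (S.w β) A z η' s = dn ν (S.w β) A z (v * η) s :=
      S.dn_loc β hzA (fun y hy => (hvη y hy).symm) s
    rw [e1]
    -- numerator and denominator as integrals
    have num1 : In ν B (S.w β) (update (v * η) z s) =
        ∫⁻ y, S.w β (vt * updateFinset θ B y) ∂(Measure.pi fun _ : B => ν) := by
      rw [← hvtθ, In_shift]; rfl
    have num0 : In ν B (S.w β) (update η z s) =
        ∫⁻ y, S.w β (updateFinset θ B y) ∂(Measure.pi fun _ : B => ν) := rfl
    have den1 : In ν A (S.w β) (v * η) =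
        ∫⁻ y, S.w β (v * updateFinset η A y) ∂(Measure.pi fun _ : A => ν) := by
      rw [In_shift]; rfl
    have den0 : In ν A (S.w β) η =
        ∫⁻ y, S.w β (updateFinset η A y) ∂(Measure.pi fun _ : A => ν) := rfl
    -- good configurations
    have hgoodA : ∀ y : A → K, y ∈ S.gd A δg → |S.H (v * updateFinset η A y) -
        S.H (updateFinset η A y) - k| ≤ ε := by
      intro y hy
      refine hk _ (fun x hx => ?_) fun x hx => ?_
      · unfold updateFinset; rw [dif_neg hx]
      · unfold updateFinset; rw [dif_pos hx]; exact hy ⟨x, hx⟩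
    have hgoodB : ∀ y : B → K, y ∈ S.gd B δg → (∀ x, x ∉ A → updateFinset θ B y x = η x) ∧
        (∀ x ∈ A, S.nrm (updateFinset θ B y x) ≤ δg) := by
      intro y hy
      constructor
      · intro x hx
        have hxB : x ∉ B := fun h => hx (Finset.mem_of_mem_erase h)
        have hxz : x ≠ z := fun h => hx (h ▸ hzA)
        unfold updateFinset
        rw [dif_neg hxB, hθ, update_of_ne hxz]
      · intro x hx
        unfold updateFinset
        by_cases hxB : x ∈ B
        · rw [dif_pos hxB]; exact hy ⟨x, hxB⟩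
        · rw [dif_neg hxB]
          have hxz : x = z := by
            by_contra h
            exact hxB (Finset.mem_erase.2 ⟨h, hx⟩)
          rw [hxz, hθ, update_self]; linarith
    -- the energy comparison for the numerator
    set ε2 := c.Cn * ((c.CT + 3 * c.Cb) * (2 * δg * ωz)) with hε2
    have hnumE : ∀ y : B → K, y ∈ S.gd B δg →
        S.w β (vt * updateFinset θ B y) ≤ ENNReal.ofReal (Real.exp (-(β * (k - ε)) + β * ε2)) *
          S.w β (updateFinset θ B y) := by
      intro y hy
      obtain ⟨g1, g2⟩ := hgoodB y hy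
      set φ := updateFinset θ B y with hφ
      have a1 := (S.w_le_of β hβ (hk φ g1 g2)).1
      have a2 : update (1 : ι → K) z (S.ex (w z)) * (vt * φ) = v * φ := by
        funext x
        by_cases hx : x = z
        · subst hx
          simp only [Pi.mul_apply, hvt, update_self, one_mul]
          rw [hvz]
        · simp only [Pi.mul_apply, hvt, update_of_ne hx, Pi.one_apply, one_mul]
      have a3 := S.zshift (z := z) (φ := vt * φ) (u := w z) (δ := 2 * δg) (ω := ωz) hωz0
        (by linarith) hδg2 hwz (by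
          intro t ht hzt y' hy'
          have ht' : t ∈ tch S.T S.sp A := S.mem_tch.2 ⟨ht, z, hzt, hzA⟩
          rcases S.sp_cases ht' hy' with h | h
          · have b1 := g2 y' h
            by_cases hyz : y' = z
            · rw [hyz, Pi.mul_apply, hvt, update_self, one_mul]
              have := g2 z hzA; linarith
            · rw [Pi.mul_apply, hvt, update_of_ne hyz]
              have b2 := S.nrm_mul (v y') (φ y')
              have b3 := hvn y' h
              linarith
          · have hyA := (S.mem_bd.1 h).1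
            have hyz : y' ≠ z := fun h => hyA (h ▸ hzA)
            rw [Pi.mul_apply, hvt, update_of_ne hyz, g1 y' hyA]
            have b4 := hvη y' h
            rw [Pi.mul_apply] at b4
            rw [b4]
            have := hadm.sm' y' h; linarith)
      rw [a2] at a3
      have a4 : |S.H (vt * φ) - S.H (v * φ) - 0| ≤ ε2 := by
        rw [sub_zero, abs_sub_comm]; exact a3
      have a5 := (S.w_le_of β hβ a4).1
      refine a5.trans ((mul_le_mul_right a1 _).trans (le_of_eq ?_))
      rw [← mul_assoc, ← ENNReal.ofReal_mul (Real.exp_pos _).le, ← Real.exp_add]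
      congr 3; ring
    -- bad parts
    have hbadN := S.bad_shift β (ν := ν) (A := B) (δ := δ) (δg := δg / 2) (δg' := δg) (κ := κ) h2
      (v := vt) (θ := θ) (by
        intro a ha
        rw [hvt, update_of_ne (Finset.ne_of_mem_erase ha)]
        have := hvn a (Finset.mem_of_mem_erase ha)
        linarith) (by
        intro y hy
        rw [hvtθ]
        rcases S.bd_erase hy with h | h
        · rw [h, update_self]; exact hs
        · have hyz : y ≠ z := fun h' => (S.mem_bd.1 h).1 (h' ▸ hzA)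
          rw [update_of_ne hyz, hvη y h]
          exact hadm.sm' y h)
    have hbadD := S.bad_noshift β (ν := ν) (A := A) (δ := δ) (δg := δg / 2) (δg' := δg) (κ := κ)
      h1 (by linarith) (θ := η) hadm.sm
    have mW : Measurable fun y : B → K => S.w β (updateFinset θ B y) :=
      (S.w_ms β).comp measurable_updateFinset
    have mWA : Measurable fun y : A → K => S.w β (updateFinset η A y) :=
      (S.w_ms β).comp measurable_updateFinset
    have fN1 := hw.fin B (update (v * η) z s)
    have fN0 := hw.fin B (update η z s)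
    have fZ1 := hw.fin A (v * η)
    have fZ0 := hw.fin A η
    have pZ1 := hw.pos A (v * η)
    have pZ0 := hw.pos A η
    have up := tilt_up (μ := Measure.pi fun _ : B => ν) mW (S.gd_meas B δg)
      (b := Real.exp (-(β * (k - ε)) + β * ε2)) (κ := κ) (Real.exp_pos _) hκ
      (by rw [← num0]; exact fN0) (by rw [← num1]; exact fN1) hnumE (by
        refine hbadN.trans (le_of_eq ?_)
        rfl)
    have down := tilt_down (μ := Measure.pi fun _ : A => ν) mWA (S.gd_meas A δg)
      (a := Real.exp (-(β * (k + ε)))) (κ := κ) (Real.exp_pos _) hκ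
      (by rw [← den0]; exact fZ0) (by rw [← den1]; exact fZ1)
      (fun y hy => (S.w_le_of β hβ (hgoodA y hy)).2) (by
        refine hbadD.trans (le_of_eq ?_)
        rfl)
    rw [← num1, ← num0] at up
    rw [← den1, ← den0] at down
    have hEω : 2 * (β * ε) + β * ε2 ≤ EB c β n δg r * ω := by
      have q1 : ε ≤ c.Cn * n * (c.CT * (c.Ch * n * δg ^ 2)) * ω := by
        rw [hε]
        have : c.Cn * (A.card : ℝ) ≤ c.Cn * n := mul_le_mul_of_nonneg_left hn1 (by linarith)
        have q2 : c.CT * (ω1 * δg ^ 2) ≤ c.CT * (c.Ch * n * ω * δg ^ 2) :=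
          mul_le_mul_of_nonneg_left (mul_le_mul_of_nonneg_right hω1n (by positivity)) hCT
        calc c.Cn * (A.card : ℝ) * (c.CT * (ω1 * δg ^ 2)) ≤
              c.Cn * n * (c.CT * (c.Ch * n * ω * δg ^ 2)) :=
              mul_le_mul this q2 (by positivity) (by positivity)
          _ = _ := by ring
      have q3 : ε2 ≤ c.Cn * ((c.CT + 3 * c.Cb) * (2 * δg *
          (c.Ch * n * Real.exp (-(c.al * r))))) * ω := by
        rw [hε2]
        have : 2 * δg * ωz ≤ 2 * δg * (c.Ch * n * Real.exp (-(c.al * r)) * ω) :=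
          mul_le_mul_of_nonneg_left hωzn (by positivity)
        calc c.Cn * ((c.CT + 3 * c.Cb) * (2 * δg * ωz)) ≤ c.Cn * ((c.CT + 3 * c.Cb) *
              (2 * δg * (c.Ch * n * Real.exp (-(c.al * r)) * ω))) :=
              mul_le_mul_of_nonneg_left (mul_le_mul_of_nonneg_left this (by positivity))
                (by linarith)
          _ = _ := by ring
      have q4 := mul_le_mul_of_nonneg_left q1 hβ
      have q5 := mul_le_mul_of_nonneg_left q3 hβ
      unfold EB
      linarith
    have hE0 : 0 ≤ 2 * (β * ε) + β * ε2 := by positivity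
    have hE1' : 2 * (β * ε) + β * ε2 ≤ 1 / 2 := by
      refine hEω.trans (le_trans (mul_le_mul_of_nonneg_left hω2 hEB) hE)
    have fin := base_arith (E := 2 * (β * ε) + β * ε2) (κ := κ)
      (N0 := (In ν B (S.w β) (update η z s)).toReal)
      (N1 := (In ν B (S.w β) (update (v * η) z s)).toReal)
      (Z0 := (In ν A (S.w β) η).toReal) (Z1 := (In ν A (S.w β) (v * η)).toReal)
      (a := Real.exp (-(β * (k + ε)))) (b := Real.exp (-(β * (k - ε)) + β * ε2))
      hE0 hE1' hκ hκ1 ENNReal.toReal_nonneg (ENNReal.toReal_pos pZ0 fZ0)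
      (ENNReal.toReal_pos pZ1 fZ1) (Real.exp_pos _) (by
        rw [← Real.exp_add]; congr 1; ring) up down
    unfold dn
    rw [ENNReal.toReal_div, ENNReal.toReal_div]
    refine fin.trans (mul_le_mul_of_nonneg_right ?_ (by positivity))
    linarith
  intro ω η η' hω hadm
  by_cases h : ω ≤ 2 * δ
  · exact main ω η η' hω h hadm
  · have hadm' : S.Adm W z r δ (2 * δ) η η' :=
      ⟨hadm.out, hadm.sm, hadm.sm', fun y hy => by
        have q1 := S.nrm_mul (η' y) (η y)⁻¹
        rw [S.nrm_inv] at q1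
        have q2 := hadm.sm y hy
        have q3 := hadm.sm' y hy
        linarith⟩
    refine (main (2 * δ) η η' (by linarith) le_rfl hadm').trans
      (mul_le_mul_of_nonneg_right ?_ ENNReal.toReal_nonneg)
    have := mul_le_mul_of_nonneg_left (le_of_lt (not_le.1 h)) (by positivity :
      0 ≤ 3 * EB c β n δg r)
    linarith

end Sys

end

end Pool.Agent.N990.Mach
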