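import Mathlib

/-!
# The machine: comparison of two densities
-/

set_option autoImplicit false
set_option linter.unusedSectionVars false

open MeasureTheory Finset Function
open scoped ENNReal

namespace Pool.Agent.N990.Mach

noncomputable section

variable {Ω : Type*} [MeasurableSpace Ω] (μ : Measure Ω)

/-- The real arithmetic of the layer estimate. -/
lemma layer_arith {E0 E1 A0 A1 B1 U0 U1 g P0 P1 m l κ ρ : ℝ} (hE0 : 0 ≤ E0)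
    (hg : 0 ≤ g) (hm : 0 ≤ m) (hm1 : m ≤ 1 / 2) (hl : 0 ≤ l) (hκ : 0 ≤ κ)
    (hκ1 : κ ≤ 1 / 8) (hρ : 0 ≤ ρ) (hρ1 : ρ ≤ 1)
    (a1 : E1 = A1 + B1) (a2 : B1 ≤ κ * E1) (b1 : A1 = g / (1 + m) * P1 + U1)
    (b2 : U1 ≤ (1 + ρ) * U0) (c1 : U0 + g / (1 + m) * P0 ≤ (1 + l) * A0) (c2 : A0 ≤ E0)
    (d1 : U0 ≤ 3 * m * g) (e1 : 1 ≤ P0 + κ) (e2 : P1 ≤ 1) (f1 : g * P0 ≤ (1 + m) * A0) :
    E1 ≤ (1 + (2 * l + 16 * κ + 24 * ρ * m)) * E0 := by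
  have hgm : 0 ≤ g / (1 + m) := by positivity
  have hgm2 : g / (1 + m) ≤ g := div_le_self hg (by linarith)
  have hg3 : g ≤ 2 * E0 := by
    have h1 : g * (1 - κ) ≤ g * P0 := mul_le_mul_of_nonneg_left (by linarith) hg
    have h2 : (1 + m) * A0 ≤ (1 + m) * E0 := mul_le_mul_of_nonneg_left c2 (by linarith)
    nlinarith
  have h1 : (1 - κ) * E1 ≤ A1 := by linarith
  have h2 : g / (1 + m) * P1 ≤ g / (1 + m) * 1 := mul_le_mul_of_nonneg_left e2 hgm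
  have h3 : g / (1 + m) * 1 ≤ g / (1 + m) * (P0 + κ) := mul_le_mul_of_nonneg_left e1 hgm
  have h4 : ρ * U0 ≤ ρ * (3 * m * g) := mul_le_mul_of_nonneg_left d1 hρ
  have h5 : (1 + l) * A0 ≤ (1 + l) * E0 := mul_le_mul_of_nonneg_left c2 (by linarith)
  have h6 : g / (1 + m) * κ ≤ 2 * E0 * κ := mul_le_mul_of_nonneg_right (hgm2.trans hg3) hκ
  have h7 : ρ * (3 * m * g) ≤ ρ * (3 * m * (2 * E0)) :=
    mul_le_mul_of_nonneg_left (mul_le_mul_of_nonneg_left hg3 (by positivity)) hρ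
  have h8 : (1 - κ) * E1 ≤ (1 + l + 2 * κ + 6 * ρ * m) * E0 := by nlinarith
  have h9 : 0 ≤ ρ * m := by positivity
  have h10 : ρ * m ≤ 1 / 2 := by nlinarith
  have h11 : (1 + l + 2 * κ + 6 * ρ * m) ≤ (1 - κ) * (1 + (2 * l + 16 * κ + 24 * ρ * m)) := by
    nlinarith [mul_nonneg hκ hl, mul_nonneg hκ h9]
  have h12 : (1 - κ) * E1 ≤ (1 - κ) * ((1 + (2 * l + 16 * κ + 24 * ρ * m)) * E0) := by
    refine h8.trans ?_
    rw [← mul_assoc]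
    exact mul_le_mul_of_nonneg_right h11 hE0
  exact le_of_mul_le_mul_left h12 (by linarith)

lemma setL_le {W : Ω → ℝ≥0∞} (G : Set Ω) : ∫⁻ y in G, W y ∂μ ≤ ∫⁻ y, W y ∂μ :=
  setLIntegral_le_lintegral G W

/-- **Layer estimate.** Two densities `W0`, `W1` which are almost proportional on `G`, and two
functions `F0`, `F1` which are almost constant and close to each other on `G`. -/
theorem layer_core {W0 W1 F0 F1 : Ω → ℝ≥0∞} (hW0 : Measurable W0) (hW1 : Measurable W1)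
    (hF0 : Measurable F0) (hF1 : Measurable F1) {G : Set Ω} (hG : MeasurableSet G)
    {a b g m l κ ρ : ℝ} (ha : 0 < a) (hb : 0 < b) (hg : 0 ≤ g) (hm : 0 ≤ m)
    (hm1 : m ≤ 1 / 2) (hl : 0 ≤ l) (hκ : 0 ≤ κ) (hκ1 : κ ≤ 1 / 8) (hρ : 0 ≤ ρ)
    (hρ1 : ρ ≤ 1) (hba : b ≤ (1 + ρ) * ((1 - κ) * a))
    (hZ0 : ∫⁻ y, W0 y ∂μ ≠ 0) (hZ0' : ∫⁻ y, W0 y ∂μ ≠ ∞)
    (hZ1 : ∫⁻ y, W1 y ∂μ ≠ 0) (hZ1' : ∫⁻ y, W1 y ∂μ ≠ ∞)
    (hE0 : ∫⁻ y, W0 y * F0 y ∂μ ≠ ∞) (hE1 : ∫⁻ y, W1 y * F1 y ∂μ ≠ ∞)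
    (hT1 : ∀ y ∈ G, ENNReal.ofReal a * W0 y ≤ W1 y)
    (hT2 : ∀ y ∈ G, W1 y ≤ ENNReal.ofReal b * W0 y)
    (hB0 : ∫⁻ y in Gᶜ, W0 y ∂μ ≤ ENNReal.ofReal κ * ∫⁻ y, W0 y ∂μ)
    (hB1 : ∫⁻ y in Gᶜ, W1 y * F1 y ∂μ ≤ ENNReal.ofReal κ * ∫⁻ y, W1 y * F1 y ∂μ)
    (h1 : ∀ y ∈ G, F1 y ≤ ENNReal.ofReal ((1 + m) * g))
    (h2 : ∀ y ∈ G, ENNReal.ofReal g ≤ ENNReal.ofReal (1 + m) * F1 y)
    (h3 : ∀ y ∈ G, ENNReal.ofReal g ≤ ENNReal.ofReal (1 + m) * F0 y)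
    (h4 : ∀ y ∈ G, F1 y ≤ ENNReal.ofReal (1 + l) * F0 y) :
    ((∫⁻ y, W1 y * F1 y ∂μ) / ∫⁻ y, W1 y ∂μ).toReal ≤
      (1 + (2 * l + 16 * κ + 24 * ρ * m)) *
        ((∫⁻ y, W0 y * F0 y ∂μ) / ∫⁻ y, W0 y ∂μ).toReal := by
  set Z0 := ∫⁻ y, W0 y ∂μ with hZ0d
  set Z1 := ∫⁻ y, W1 y ∂μ with hZ1d
  set gm : ℝ≥0∞ := ENNReal.ofReal (g / (1 + m)) with hgm
  set u : Ω → ℝ≥0∞ := fun y => F1 y - gm with hu
  have hmu : Measurable u := hF1.sub measurable_const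
  have hm0 : (0 : ℝ) < 1 + m := by linarith
  -- on `G`, `F1 = gm + u`
  have hdec : ∀ y ∈ G, gm ≤ F1 y := by
    intro y hy
    have := h2 y hy
    rw [hgm, ENNReal.ofReal_div_of_pos hm0]
    refine ENNReal.div_le_of_le_mul ?_
    rw [mul_comm]; exact this
  have hdec2 : ∀ y ∈ G, gm + u y = F1 y := fun y hy => add_tsub_cancel_of_le (hdec y hy)
  have hu3 : ∀ y ∈ G, u y ≤ ENNReal.ofReal (3 * m * g) := by
    intro y hy
    refine tsub_le_iff_right.2 ((h1 y hy).trans ?_)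
    rw [hgm, ← ENNReal.ofReal_add (by positivity) (by positivity)]
    refine ENNReal.ofReal_le_ofReal ?_
    have e : (1 + m) * g - g / (1 + m) = (2 * m + m ^ 2) / (1 + m) * g := by
      field_simp; ring
    have e2 : (2 * m + m ^ 2) / (1 + m) ≤ 3 * m := by
      rw [div_le_iff₀ hm0]; nlinarith
    have := mul_le_mul_of_nonneg_right e2 hg
    linarith
  -- names
  have fin_of_le : ∀ {x y : ℝ≥0∞}, x ≤ y → y ≠ ∞ → x ≠ ∞ := fun h h' => ne_top_of_le_ne_top h' h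
  have mW1F1 : Measurable fun y => W1 y * F1 y := hW1.mul hF1
  have mW0F0 : Measurable fun y => W0 y * F0 y := hW0.mul hF0
  set A0 := ∫⁻ y in G, W0 y * F0 y ∂μ with hA0
  set A1 := ∫⁻ y in G, W1 y * F1 y ∂μ with hA1
  set B1 := ∫⁻ y in Gᶜ, W1 y * F1 y ∂μ with hB1d
  set P0 := ∫⁻ y in G, W0 y ∂μ with hP0
  set P1 := ∫⁻ y in G, W1 y ∂μ with hP1
  set U0 := ∫⁻ y in G, W0 y * u y ∂μ with hU0
  set U1 := ∫⁻ y in G, W1 y * u y ∂μ with hU1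
  have fA0 : A0 ≠ ∞ := fin_of_le (setL_le μ G) hE0
  have fA1 : A1 ≠ ∞ := fin_of_le (setL_le μ G) hE1
  have fB1 : B1 ≠ ∞ := fin_of_le (setL_le μ Gᶜ) hE1
  have fP0 : P0 ≠ ∞ := fin_of_le (setL_le μ G) hZ0'
  have fP1 : P1 ≠ ∞ := fin_of_le (setL_le μ G) hZ1'
  have sumE1 : ∫⁻ y, W1 y * F1 y ∂μ = A1 + B1 := (lintegral_add_compl _ hG).symm
  have sumZ0 : Z0 = P0 + ∫⁻ y in Gᶜ, W0 y ∂μ := (lintegral_add_compl _ hG).symm
  have eA1 : A1 = gm * P1 + U1 := by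
    rw [hA1, hU1, hP1, ← lintegral_const_mul _ hW1, ← lintegral_add_left (hW1.const_mul gm)]
    refine setLIntegral_congr_fun hG fun y hy => ?_
    rw [← hdec2 y hy]; ring
  have eA0 : U0 + gm * P0 ≤ ENNReal.ofReal (1 + l) * A0 := by
    rw [hA0, hU0, hP0, ← lintegral_const_mul _ hW0, ← lintegral_add_right _ (hW0.const_mul gm),
      ← lintegral_const_mul _ mW0F0]
    refine setLIntegral_mono' hG fun y hy => ?_
    calc W0 y * u y + gm * W0 y = W0 y * (gm + u y) := by ring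
      _ = W0 y * F1 y := by rw [hdec2 y hy]
      _ ≤ W0 y * (ENNReal.ofReal (1 + l) * F0 y) := mul_le_mul_right (h4 y hy) _
      _ = ENNReal.ofReal (1 + l) * (W0 y * F0 y) := by ring
  have eU : U1 ≤ ENNReal.ofReal b * U0 := by
    rw [hU1, hU0, ← lintegral_const_mul _ (show Measurable fun y => W0 y * u y from hW0.mul hmu)]
    refine setLIntegral_mono' hG fun y hy => ?_
    calc W1 y * u y ≤ (ENNReal.ofReal b * W0 y) * u y := mul_le_mul_left (hT2 y hy) _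
      _ = _ := by ring
  have eP : ENNReal.ofReal a * P0 ≤ P1 := by
    rw [hP0, hP1, ← lintegral_const_mul _ hW0]
    exact setLIntegral_mono' hG hT1
  have eU3 : U0 ≤ ENNReal.ofReal (3 * m * g) * Z0 := by
    rw [hU0]
    refine (setLIntegral_mono' (g := fun y => ENNReal.ofReal (3 * m * g) * W0 y) hG
      fun y hy => ?_).trans ?_
    · rw [mul_comm]; exact mul_le_mul_left (hu3 y hy) _
    · refine (setL_le μ G).trans ?_
      rw [lintegral_const_mul _ hW0]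
  have eg : ENNReal.ofReal g * P0 ≤ ENNReal.ofReal (1 + m) * A0 := by
    rw [hP0, hA0, ← lintegral_const_mul _ hW0, ← lintegral_const_mul _ mW0F0]
    refine setLIntegral_mono' hG fun y hy => ?_
    calc ENNReal.ofReal g * W0 y ≤ (ENNReal.ofReal (1 + m) * F0 y) * W0 y :=
          mul_le_mul_left (h3 y hy) _
      _ = _ := by ring
  have fU0 : U0 ≠ ∞ := fin_of_le eU3 (ENNReal.mul_ne_top ENNReal.ofReal_ne_top hZ0')
  have fU1 : U1 ≠ ∞ := fin_of_le eU (ENNReal.mul_ne_top ENNReal.ofReal_ne_top fU0)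
  have fc : ∫⁻ y in Gᶜ, W0 y ∂μ ≠ ∞ := fin_of_le (setL_le μ Gᶜ) hZ0'
  -- pass to real numbers
  set z0 := Z0.toReal with hz0
  set z1 := Z1.toReal with hz1
  have pz0 : 0 < z0 := ENNReal.toReal_pos hZ0 hZ0'
  have pz1 : 0 < z1 := ENNReal.toReal_pos hZ1 hZ1'
  have rE1 : (∫⁻ y, W1 y * F1 y ∂μ).toReal = A1.toReal + B1.toReal := by
    rw [sumE1, ENNReal.toReal_add fA1 fB1]
  have rZ0 : z0 = P0.toReal + (∫⁻ y in Gᶜ, W0 y ∂μ).toReal := by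
    rw [hz0, sumZ0, ENNReal.toReal_add fP0 fc]
  have rA1 : A1.toReal = g / (1 + m) * P1.toReal + U1.toReal := by
    rw [eA1, ENNReal.toReal_add (ENNReal.mul_ne_top ENNReal.ofReal_ne_top fP1) fU1,
      ENNReal.toReal_mul, ENNReal.toReal_ofReal (by positivity)]
  have rA0 : U0.toReal + g / (1 + m) * P0.toReal ≤ (1 + l) * A0.toReal := by
    have := ENNReal.toReal_mono (ENNReal.mul_ne_top ENNReal.ofReal_ne_top fA0) eA0
    rwa [ENNReal.toReal_add fU0 (ENNReal.mul_ne_top ENNReal.ofReal_ne_top fP0),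
      ENNReal.toReal_mul, ENNReal.toReal_mul, ENNReal.toReal_ofReal (by positivity),
      ENNReal.toReal_ofReal (by positivity)] at this
  have rU : U1.toReal ≤ b * U0.toReal := by
    have := ENNReal.toReal_mono (ENNReal.mul_ne_top ENNReal.ofReal_ne_top fU0) eU
    rwa [ENNReal.toReal_mul, ENNReal.toReal_ofReal hb.le] at this
  have rP : a * P0.toReal ≤ P1.toReal := by
    have := ENNReal.toReal_mono fP1 eP
    rwa [ENNReal.toReal_mul, ENNReal.toReal_ofReal ha.le] at this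
  have rU3 : U0.toReal ≤ 3 * m * g * z0 := by
    have := ENNReal.toReal_mono (ENNReal.mul_ne_top ENNReal.ofReal_ne_top hZ0') eU3
    rwa [ENNReal.toReal_mul, ENNReal.toReal_ofReal (by positivity)] at this
  have rg : g * P0.toReal ≤ (1 + m) * A0.toReal := by
    have := ENNReal.toReal_mono (ENNReal.mul_ne_top ENNReal.ofReal_ne_top fA0) eg
    rwa [ENNReal.toReal_mul, ENNReal.toReal_mul, ENNReal.toReal_ofReal hg,
      ENNReal.toReal_ofReal (by positivity)] at this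
  have rB0 : (∫⁻ y in Gᶜ, W0 y ∂μ).toReal ≤ κ * z0 := by
    have := ENNReal.toReal_mono (ENNReal.mul_ne_top ENNReal.ofReal_ne_top hZ0') hB0
    rwa [ENNReal.toReal_mul, ENNReal.toReal_ofReal hκ] at this
  have rB1 : B1.toReal ≤ κ * (∫⁻ y, W1 y * F1 y ∂μ).toReal := by
    have := ENNReal.toReal_mono (ENNReal.mul_ne_top ENNReal.ofReal_ne_top hE1) hB1
    rwa [ENNReal.toReal_mul, ENNReal.toReal_ofReal hκ] at this
  have rP1 : P1.toReal ≤ z1 := ENNReal.toReal_mono hZ1' (setL_le μ G)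
  have rA0E : A0.toReal ≤ (∫⁻ y, W0 y * F0 y ∂μ).toReal := ENNReal.toReal_mono hE0 (setL_le μ G)
  rw [ENNReal.toReal_div, ENNReal.toReal_div, ← hz0, ← hz1]
  set e0 := (∫⁻ y, W0 y * F0 y ∂μ).toReal with he0
  set e1 := (∫⁻ y, W1 y * F1 y ∂μ).toReal with he1
  have ne0 : 0 ≤ e0 := ENNReal.toReal_nonneg
  have ne1 : 0 ≤ e1 := ENNReal.toReal_nonneg
  have nU0 : 0 ≤ U0.toReal := ENNReal.toReal_nonneg
  have z1a : a * (1 - κ) * z0 ≤ z1 := by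
    have h5 : (1 - κ) * z0 ≤ P0.toReal := by linarith
    have h6 := mul_le_mul_of_nonneg_left h5 ha.le
    linarith
  refine layer_arith (A0 := A0.toReal / z0) (A1 := A1.toReal / z1) (B1 := B1.toReal / z1)
    (U0 := U0.toReal / z0) (U1 := U1.toReal / z1) (g := g) (P0 := P0.toReal / z0)
    (P1 := P1.toReal / z1) (by positivity) hg hm hm1 hl hκ hκ1 hρ hρ1
    ?_ ?_ ?_ ?_ ?_ ?_ ?_ ?_ ?_ ?_
  · rw [rE1]; ring
  · rw [← mul_div_assoc]; exact div_le_div_of_nonneg_right rB1 pz1.le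
  · rw [rA1]; ring
  · rw [div_le_iff₀ pz1]
    calc U1.toReal ≤ b * U0.toReal := rU
      _ ≤ ((1 + ρ) * ((1 - κ) * a)) * U0.toReal := mul_le_mul_of_nonneg_right hba nU0
      _ = (1 + ρ) * (U0.toReal / z0) * (a * (1 - κ) * z0) := by field_simp
      _ ≤ (1 + ρ) * (U0.toReal / z0) * z1 :=
          mul_le_mul_of_nonneg_left z1a (by positivity)
  · have : U0.toReal / z0 + g / (1 + m) * (P0.toReal / z0) =
        (U0.toReal + g / (1 + m) * P0.toReal) / z0 := by ring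
    rw [this, ← mul_div_assoc]
    exact div_le_div_of_nonneg_right rA0 pz0.le
  · exact div_le_div_of_nonneg_right rA0E pz0.le
  · rw [div_le_iff₀ pz0]; exact rU3
  · have : P0.toReal / z0 + κ = (P0.toReal + κ * z0) / z0 := by field_simp
    rw [this, le_div_iff₀ pz0]; linarith
  · rw [div_le_one pz1]; exact rP1
  · rw [← mul_div_assoc, ← mul_div_assoc]
    exact div_le_div_of_nonneg_right rg pz0.le

/-- upper bound of a total mass -/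
lemma tilt_up {W0 W1 : Ω → ℝ≥0∞} (hW0 : Measurable W0) {G : Set Ω} (hG : MeasurableSet G)
    {b κ : ℝ} (hb : 0 < b) (hκ : 0 ≤ κ)
    (hZ0' : ∫⁻ y, W0 y ∂μ ≠ ∞) (hZ1' : ∫⁻ y, W1 y ∂μ ≠ ∞)
    (hT2 : ∀ y ∈ G, W1 y ≤ ENNReal.ofReal b * W0 y)
    (hB1 : ∫⁻ y in Gᶜ, W1 y ∂μ ≤ ENNReal.ofReal κ * ∫⁻ y, W1 y ∂μ) :
    (1 - κ) * (∫⁻ y, W1 y ∂μ).toReal ≤ b * (∫⁻ y, W0 y ∂μ).toReal := by
  have h1 : ∫⁻ y, W1 y ∂μ = ∫⁻ y in G, W1 y ∂μ + ∫⁻ y in Gᶜ, W1 y ∂μ :=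
    (lintegral_add_compl _ hG).symm
  have h2 : ∫⁻ y in G, W1 y ∂μ ≤ ENNReal.ofReal b * ∫⁻ y, W0 y ∂μ := by
    refine (setLIntegral_mono' hG hT2).trans ((setL_le μ G).trans ?_)
    rw [lintegral_const_mul _ hW0]
  have f1 : ∫⁻ y in G, W1 y ∂μ ≠ ∞ := ne_top_of_le_ne_top hZ1' (setL_le μ G)
  have f2 : ∫⁻ y in Gᶜ, W1 y ∂μ ≠ ∞ := ne_top_of_le_ne_top hZ1' (setL_le μ Gᶜ)
  have r1 : (∫⁻ y, W1 y ∂μ).toReal = (∫⁻ y in G, W1 y ∂μ).toReal +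
      (∫⁻ y in Gᶜ, W1 y ∂μ).toReal := by
    rw [← ENNReal.toReal_add f1 f2, ← h1]
  have r2 := ENNReal.toReal_mono (ENNReal.mul_ne_top ENNReal.ofReal_ne_top hZ0') h2
  rw [ENNReal.toReal_mul, ENNReal.toReal_ofReal hb.le] at r2
  have r3 := ENNReal.toReal_mono (ENNReal.mul_ne_top ENNReal.ofReal_ne_top hZ1') hB1
  rw [ENNReal.toReal_mul, ENNReal.toReal_ofReal hκ] at r3
  linarith

/-- lower bound of a total mass -/
lemma tilt_down {W0 W1 : Ω → ℝ≥0∞} (hW0 : Measurable W0) {G : Set Ω} (hG : MeasurableSet G)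
    {a κ : ℝ} (ha : 0 < a) (hκ : 0 ≤ κ)
    (hZ0' : ∫⁻ y, W0 y ∂μ ≠ ∞) (hZ1' : ∫⁻ y, W1 y ∂μ ≠ ∞)
    (hT1 : ∀ y ∈ G, ENNReal.ofReal a * W0 y ≤ W1 y)
    (hB0 : ∫⁻ y in Gᶜ, W0 y ∂μ ≤ ENNReal.ofReal κ * ∫⁻ y, W0 y ∂μ) :
    (1 - κ) * a * (∫⁻ y, W0 y ∂μ).toReal ≤ (∫⁻ y, W1 y ∂μ).toReal := by
  have h1 : ∫⁻ y, W0 y ∂μ = ∫⁻ y in G, W0 y ∂μ + ∫⁻ y in Gᶜ, W0 y ∂μ :=
    (lintegral_add_compl _ hG).symm
  have h2 : ENNReal.ofReal a * ∫⁻ y in G, W0 y ∂μ ≤ ∫⁻ y, W1 y ∂μ := by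
    rw [← lintegral_const_mul _ hW0]
    exact (setLIntegral_mono' hG hT1).trans (setL_le μ G)
  have f1 : ∫⁻ y in G, W0 y ∂μ ≠ ∞ := ne_top_of_le_ne_top hZ0' (setL_le μ G)
  have f2 : ∫⁻ y in Gᶜ, W0 y ∂μ ≠ ∞ := ne_top_of_le_ne_top hZ0' (setL_le μ Gᶜ)
  have r1 : (∫⁻ y, W0 y ∂μ).toReal = (∫⁻ y in G, W0 y ∂μ).toReal +
      (∫⁻ y in Gᶜ, W0 y ∂μ).toReal := by
    rw [← ENNReal.toReal_add f1 f2, ← h1]
  have r2 := ENNReal.toReal_mono hZ1' h2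
  rw [ENNReal.toReal_mul, ENNReal.toReal_ofReal ha.le] at r2
  have r3 := ENNReal.toReal_mono (ENNReal.mul_ne_top ENNReal.ofReal_ne_top hZ0') hB0
  rw [ENNReal.toReal_mul, ENNReal.toReal_ofReal hκ] at r3
  nlinarith

end

end Pool.Agent.N990.Mach
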