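import Pool.Agent.N990.Mach.Base

/-!
# The machine: the layer estimate
-/

set_option autoImplicit false
set_option linter.unusedSectionVars false

open MeasureTheory Finset Function
open scoped ENNReal Classical
open Pool.Agent.N986.PB

namespace Pool.Agent.N990.Mach

noncomputable section

variable {ι τ K Y V : Type*} [Group K] [MeasurableSpace K]
    [NormedAddCommGroup Y] [NormedSpace ℝ Y] [NormedAddCommGroup V] [NormedSpace ℝ V]
    {ν : Measure K} {c : Cst}

namespace Sys

variable (S : Sys ι τ K Y V ν c) (β : ℝ)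

lemma dn_ne_top [IsProbabilityMeasure ν] (A : Finset ι) (z : ι) (η : ι → K) (s : K) :
    dn ν (S.w β) A z η s ≠ ∞ := by
  have hw := S.w_good (ν := ν) β
  unfold dn
  exact ENNReal.div_ne_top (hw.fin _ _) (hw.pos _ _)

/-- bad spins are rare also with respect to the density-weighted measure -/
lemma bayes_bad [IsProbabilityMeasure ν] {W : Finset ι} {z : ι} {r r' : ℕ} (hrr : r < r')
    (hz : z ∈ W) {s : K} {δ δb δg κ1 κ2 : ℝ} (hs : S.nrm s ≤ δ) (hδb : δ ≤ δb) (hbg : δb ≤ δg)
    (hκ1 : 0 ≤ κ1) (hκ2 : 0 ≤ κ2)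
    (h1 : S.BadB β ((S.reg W z r').erase z) δ δb κ1) (h2 : S.BadB β (S.reg W z r) δb δg κ2)
    {θ : ι → K} (hθ : ∀ y ∈ S.bd (S.reg W z r'), S.nrm (θ y) ≤ δ) :
    ev ν (S.w β) (S.reg W z r') (fun φ => dn ν (S.w β) (S.reg W z r) z φ s *
      (ind fun φ => ∃ a ∈ S.reg W z r', δg < S.nrm (φ a)) φ) θ ≤
      ENNReal.ofReal (κ1 + κ2) * dn ν (S.w β) (S.reg W z r') z θ s := by
  have hw := S.w_good (ν := ν) β
  set A := S.reg W z r with hA
  set A' := S.reg W z r' with hA'
  have hAA' : A ⊆ A' := by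
    intro x hx
    rw [hA, mem_reg] at hx
    rw [hA', mem_reg]
    exact ⟨hx.1, by omega⟩
  have hzA : z ∈ A := S.self_mem_reg hz r
  have hzA' : z ∈ A' := S.self_mem_reg hz r'
  set F : (ι → K) → ℝ≥0∞ := fun φ => dn ν (S.w β) A z φ s with hF
  have mF : Measurable F := dn_measL hw A z s
  set g1 : (ι → K) → ℝ≥0∞ := ind fun φ => ∃ a ∈ A' \ A, δb < S.nrm (φ a) with hg1
  set g2 : (ι → K) → ℝ≥0∞ := ind fun φ => (∀ a ∈ A' \ A, S.nrm (φ a) ≤ δb) with hg2
  set g3 : (ι → K) → ℝ≥0∞ := ind fun φ => ∃ a ∈ A, δg < S.nrm (φ a) with hg3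
  have mg1 : Measurable g1 := S.bad_meas (A' \ A) δb
  have mg3 : Measurable g3 := S.bad_meas A δg
  have mg2 : Measurable g2 := by
    rw [hg2]
    unfold ind
    refine Measurable.ite ?_ measurable_const measurable_const
    have : {φ : ι → K | ∀ a ∈ A' \ A, S.nrm (φ a) ≤ δb} =
        ⋂ a ∈ A' \ A, {φ : ι → K | S.nrm (φ a) ≤ δb} := by ext φ; simp
    rw [this]
    exact Finset.measurableSet_biInter _ fun a _ =>
      measurableSet_le (S.nrm_meas.comp (measurable_pi_apply a)) measurable_const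
  have hpt : ∀ φ, F φ * (ind fun φ => ∃ a ∈ A', δg < S.nrm (φ a)) φ ≤
      F φ * g1 φ + F φ * g2 φ * g3 φ := by
    intro φ
    rw [mul_assoc, ← mul_add]
    refine mul_le_mul_right ?_ _
    by_cases hb : ∃ a ∈ A' \ A, δb < S.nrm (φ a)
    · have : g1 φ = 1 := by rw [hg1]; unfold ind; rw [if_pos hb]
      rw [this]
      exact (ind_le_one _ _).trans le_self_add
    · have e2 : g2 φ = 1 := by
        rw [hg2]; unfold ind; rw [if_pos]
        intro a ha
        by_contra h; exact hb ⟨a, ha, not_le.1 h⟩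
      rw [e2, one_mul]
      refine le_trans ?_ le_add_self
      rw [hg3]
      refine ind_mono ?_
      rintro ⟨a, ha, hag⟩
      by_cases haA : a ∈ A
      · exact ⟨a, haA, hag⟩
      · exact absurd ⟨a, Finset.mem_sdiff.2 ⟨ha, haA⟩, lt_of_le_of_lt hbg hag⟩ hb
  refine (ev_mono hw hpt).trans ?_
  rw [ev_add hw (f := fun φ => F φ * g1 φ) (mF.mul mg1)]
  -- outer bad spins
  have t1 : ev ν (S.w β) A' (fun φ => F φ * g1 φ) θ ≤
      ENNReal.ofReal κ1 * dn ν (S.w β) A' z θ s := by
    rw [ev_dn_mul hw hAA' hzA mg1 (fun φ φ' h => by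
      have e : (∃ a ∈ A' \ A, δb < S.nrm (φ a)) ↔ ∃ a ∈ A' \ A, δb < S.nrm (φ' a) := by
        constructor
        · rintro ⟨a, ha, h'⟩; exact ⟨a, ha, by rwa [← h a (Finset.mem_sdiff.1 ha).2]⟩
        · rintro ⟨a, ha, h'⟩; exact ⟨a, ha, by rwa [h a (Finset.mem_sdiff.1 ha).2]⟩
      rw [hg1]; unfold ind
      by_cases hh : ∃ a ∈ A' \ A, δb < S.nrm (φ a)
      · rw [if_pos hh, if_pos (e.1 hh)]
      · rw [if_neg hh, if_neg (fun h' => hh (e.2 h'))]) θ s, mul_comm]
    refine mul_le_mul_left ?_ _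
    refine le_trans ?_ (h1 (update θ z s) fun y hy => ?_)
    · refine ev_mono hw fun φ => ?_
      rw [hg1]
      refine ind_mono ?_
      rintro ⟨a, ha, h'⟩
      obtain ⟨b1, b2⟩ := Finset.mem_sdiff.1 ha
      exact ⟨a, Finset.mem_erase.2 ⟨fun h => b2 (h ▸ hzA), b1⟩, h'⟩
    · rcases S.bd_erase hy with h | h
      · rw [h, update_self]; exact hs
      · have hyz : y ≠ z := fun h' => (S.mem_bd.1 h).1 (h' ▸ hzA')
        rw [update_of_ne hyz]; exact hθ y h
  -- inner bad spins
  have t2 : ev ν (S.w β) A' (fun φ => F φ * g2 φ * g3 φ) θ ≤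
      ENNReal.ofReal κ2 * dn ν (S.w β) A' z θ s := by
    rw [← ev_ev hw hAA' (f := fun φ => F φ * g2 φ * g3 φ) ((mF.mul mg2).mul mg3)]
    have e1 : ∀ φ : ι → K, (∀ i ∉ A', φ i = θ i) →
        ev ν (S.w β) A (fun φ => F φ * g2 φ * g3 φ) φ ≤ ENNReal.ofReal κ2 * F φ := by
      intro φ hφ
      rw [ev_const_mul hw mg3 (c := F φ * g2 φ) fun φ' hφ' => ?_]
      · by_cases hg : ∀ a ∈ A' \ A, S.nrm (φ a) ≤ δb
        · have e2 : g2 φ = 1 := by rw [hg2]; unfold ind; rw [if_pos hg]
          rw [e2, mul_one, mul_comm]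
          refine mul_le_mul_left ?_ _
          refine h2 φ fun y hy => ?_
          by_cases hyA' : y ∈ A'
          · exact hg y (Finset.mem_sdiff.2 ⟨hyA', (S.mem_bd.1 hy).1⟩)
          · rw [hφ y hyA']
            refine (hθ y ?_).trans hδb
            obtain ⟨_, t, ht, hyt, x, hxt, hxA⟩ := S.mem_bd.1 hy
            exact S.mem_bd.2 ⟨hyA', t, ht, hyt, x, hxt, hAA' hxA⟩
        · have e2 : g2 φ = 0 := by rw [hg2]; unfold ind; rw [if_neg hg]
          rw [e2, mul_zero, zero_mul]; exact zero_le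
      · have e3 : F φ' = F φ := by
          rw [hF]
          exact S.dn_loc β hzA (fun y hy => hφ' y (S.mem_bd.1 hy).1) s
        have e4 : g2 φ' = g2 φ := by
          have e : (∀ a ∈ A' \ A, S.nrm (φ' a) ≤ δb) ↔ ∀ a ∈ A' \ A, S.nrm (φ a) ≤ δb := by
            constructor
            · intro h a ha; rw [← hφ' a (Finset.mem_sdiff.1 ha).2]; exact h a ha
            · intro h a ha; rw [hφ' a (Finset.mem_sdiff.1 ha).2]; exact h a ha
          rw [hg2]; unfold ind
          by_cases hh : ∀ a ∈ A' \ A, S.nrm (φ' a) ≤ δb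
          · rw [if_pos hh, if_pos (e.1 hh)]
          · rw [if_neg hh, if_neg (fun h' => hh (e.2 h'))]
        rw [e3, e4]
    refine (ev_mono' hw e1).trans ?_
    rw [ev_const_mul hw mF (c := ENNReal.ofReal κ2) fun _ _ => rfl, hF, ev_dn hw hAA' hzA]
  calc _ ≤ ENNReal.ofReal κ1 * dn ν (S.w β) A' z θ s + ENNReal.ofReal κ2 * dn ν (S.w β) A' z θ s :=
        add_le_add t1 t2
    _ = _ := by rw [ENNReal.ofReal_add hκ1 hκ2, add_mul]

/-- the weighted mass of the bad configurations for the shifted weight -/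
lemma bad_shiftF [MeasurableMul K] [IsProbabilityMeasure ν] [ν.IsMulLeftInvariant]
    {A : Finset ι} {δg δg' κ : ℝ} {F : (ι → K) → ℝ≥0∞} {v θ : ι → K}
    (hB : ev ν (S.w β) A (fun φ => F φ * (ind fun φ => ∃ a ∈ A, δg < S.nrm (φ a)) φ) (v * θ) ≤
      ENNReal.ofReal κ * ev ν (S.w β) A F (v * θ))
    (hv : ∀ a ∈ A, S.nrm (v a) ≤ δg' - δg) :
    ∫⁻ y in (S.gd A δg')ᶜ, S.w β (v * updateFinset θ A y) * F (v * updateFinset θ A y)
      ∂(Measure.pi fun _ : A => ν) ≤
      ENNReal.ofReal κ * ∫⁻ y, S.w β (v * updateFinset θ A y) * F (v * updateFinset θ A y)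
        ∂(Measure.pi fun _ : A => ν) := by
  have hw := S.w_good (ν := ν) β
  unfold ev at hB
  rw [← mul_div_assoc] at hB
  have hB' : In ν A (fun φ => S.w β φ * (F φ * (ind fun φ => ∃ a ∈ A, δg < S.nrm (φ a)) φ))
      (v * θ) ≤ ENNReal.ofReal κ * In ν A (fun φ => S.w β φ * F φ) (v * θ) := by
    have p1 := hw.pos A (v * θ)
    have p2 := hw.fin A (v * θ)
    have := mul_le_mul_left hB (In ν A (S.w β) (v * θ))
    rwa [ENNReal.div_mul_cancel p1 p2, ENNReal.div_mul_cancel p1 p2] at this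
  rw [In_shift, In_shift] at hB'
  refine le_trans ?_ hB'
  have h2 : ∫⁻ y in (S.gd A δg')ᶜ, S.w β (v * updateFinset θ A y) * F (v * updateFinset θ A y)
      ∂(Measure.pi fun _ : A => ν) ≤
      ∫⁻ y in (S.gd A δg')ᶜ, S.w β (v * updateFinset θ A y) * (F (v * updateFinset θ A y) *
        (ind fun φ => ∃ a ∈ A, δg < S.nrm (φ a)) (v * updateFinset θ A y))
        ∂(Measure.pi fun _ : A => ν) := by
    refine setLIntegral_mono' (S.gd_meas A δg').compl fun y hy => ?_
    have h3 : ∃ a ∈ A, δg < S.nrm ((v * updateFinset θ A y) a) := by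
      rw [Set.mem_compl_iff] at hy
      unfold gd at hy
      simp only [Set.mem_ofPred_eq, not_forall, not_le] at hy
      obtain ⟨a, ha⟩ := hy
      refine ⟨a, a.2, ?_⟩
      rw [Pi.mul_apply]
      have e : updateFinset θ A y a = y a := by
        unfold updateFinset; rw [dif_pos a.2]
      rw [e]
      have h4 := S.nrm_diff (y a) (v a)
      have h5 := hv a a.2
      linarith
    unfold ind
    rw [if_pos h3, mul_one]
  refine h2.trans ((setL_le _ _).trans (le_of_eq ?_))
  rfl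

/-- the exponent in the layer estimate -/
def EL (c : Cst) (β n δg : ℝ) : ℝ := β * (c.Cn * n * (c.CT * (c.Ch * n * δg ^ 2)))

/-- **The layer estimate.** -/
theorem layer [MeasurableMul K] [IsProbabilityMeasure ν] [ν.IsMulLeftInvariant] (hβ : 0 ≤ β)
    {W : Finset ι} {z : ι} {r r' : ℕ} (hrr : r < r') {s : K} {δ δb δg δ2 κ1 κ2 κ n Λ t : ℝ}
    (hW : W ⊆ S.Lam) (hz : z ∈ W) (hs : S.nrm s ≤ δ)
    (hn1 : ((S.reg W z r').card : ℝ) ≤ n) (hn2 : ((S.bd (S.reg W z r')).card : ℝ) + 1 ≤ n)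
    (hδg : 8 * c.Ch * n * δ ≤ δg) (hδb : δ ≤ δb) (hbg : δb ≤ δg / 2) (hδ2 : 2 * δg ≤ δ2)
    (hδr : 2 * δg ≤ c.r0) (hκ1 : 0 ≤ κ1) (hκ2 : 0 ≤ κ2) (hκ : κ1 + κ2 ≤ κ) (hκ8 : κ ≤ 1 / 8)
    (hΛ : 0 ≤ Λ) (ht : 0 ≤ t) (hm : 2 * Λ * δ2 + t ≤ 1 / 2)
    (hEL : 2 * EL c β n δg * (2 * δ) ≤ 1 / 4)
    (h0 : S.BadB β (S.reg W z r') δ δg κ)
    (h1 : S.BadB β ((S.reg W z r').erase z) δ δb κ1)
    (h2 : S.BadB β (S.reg W z r) δb (δg / 2) κ2)
    (hRL : S.RL β W z s r δ2 Λ t) :
    S.RL β W z s r' δ (4 * Λ * (c.Ch * n * Real.exp (-(c.al * ((r' - r : ℕ) : ℝ)))) +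
      144 * EL c β n δg * (2 * Λ * δ2 + t)) (2 * t + 40 * κ) := by
  have hδ0 : 0 ≤ δ := (S.nrm_nonneg s).trans hs
  have hCh := c.hCh
  have hCn := c.hCn
  have hCT := c.hCT
  have hal := c.hal
  have hκ0 : 0 ≤ κ := by linarith
  set A := S.reg W z r with hA
  set A' := S.reg W z r' with hA'
  have hAA' : A ⊆ A' := by
    intro x hx
    rw [hA, mem_reg] at hx
    rw [hA', mem_reg]
    exact ⟨hx.1, by omega⟩
  have hcA : (0 : ℝ) ≤ A'.card := Nat.cast_nonneg _
  have hcB : (0 : ℝ) ≤ (S.bd A').card := Nat.cast_nonneg _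
  have hn : 1 ≤ n := by linarith
  have hδδg : δ ≤ δg / 8 := by
    have : 1 * δ ≤ (c.Ch * n) * δ := mul_le_mul_of_nonneg_right (by nlinarith) hδ0
    linarith
  have hδg0 : 0 ≤ δg := by linarith
  have hδ20 : 0 ≤ δ2 := by linarith
  have hEL0 : 0 ≤ EL c β n δg := by unfold EL; positivity
  have hAL : A' ⊆ S.Lam := (S.reg_sub W z r').trans hW
  have hzA : z ∈ A := S.self_mem_reg hz r
  have hzA' : z ∈ A' := S.self_mem_reg hz r'
  have hw := S.w_good (ν := ν) β
  set q := Real.exp (-(c.al * ((r' - r : ℕ) : ℝ))) with hq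
  have hq0 : 0 < q := Real.exp_pos _
  set m := 2 * Λ * δ2 + t with hmd
  have hm0 : 0 ≤ m := by positivity
  have main : ∀ (ω : ℝ) (η η' : ι → K), 0 ≤ ω → ω ≤ 2 * δ → S.Adm W z r' δ ω η η' →
      (dn ν (S.w β) A' z η' s).toReal ≤
        (1 + (4 * Λ * (c.Ch * n * q) + 144 * EL c β n δg * m) * ω + (2 * t + 40 * κ)) *
          (dn ν (S.w β) A' z η s).toReal := by
    intro ω η η' hω hω2 hadm
    set ω1 := c.Ch * ((S.bd A').card + 1) * ω with hω1
    have hω1n : ω1 ≤ c.Ch * n * ω := by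
      rw [hω1]
      exact mul_le_mul_of_nonneg_right (mul_le_mul_of_nonneg_left hn2 (by linarith)) hω
    have hω1g : ω1 ≤ δg / 4 := by
      have : c.Ch * n * ω ≤ c.Ch * n * (2 * δ) :=
        mul_le_mul_of_nonneg_left hω2 (by positivity)
      linarith
    have hω10 : 0 ≤ ω1 := by positivity
    obtain ⟨v, w, hv1, hv2, hv3, hv4, hv5⟩ := S.shift_field hAL (fun y => η' y * (η y)⁻¹) hω
      (δ := δg) hadm.cls (by linarith) (by linarith)
    obtain ⟨k, hk⟩ := S.shift_det (A := A') (η := η) (v := v) (w := w) (δ := δg) (ω := ω1)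
      (e := 0) hω10 (by linarith) (by linarith) (fun y hy => by
        have := hadm.sm y hy; linarith) hv3 (fun χ hχ _ => by rw [hv4 χ hχ, abs_zero])
    rw [add_zero] at hk
    set ε := c.Cn * A'.card * (c.CT * (ω1 * δg ^ 2)) with hε
    have hε0 : 0 ≤ ε := by positivity
    have hεω : β * ε ≤ EL c β n δg * ω := by
      have q1 : ε ≤ c.Cn * n * (c.CT * (c.Ch * n * δg ^ 2)) * ω := by
        rw [hε]
        have : c.Cn * (A'.card : ℝ) ≤ c.Cn * n := mul_le_mul_of_nonneg_left hn1 (by linarith)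
        have q2 : c.CT * (ω1 * δg ^ 2) ≤ c.CT * (c.Ch * n * ω * δg ^ 2) :=
          mul_le_mul_of_nonneg_left (mul_le_mul_of_nonneg_right hω1n (by positivity)) hCT
        calc c.Cn * (A'.card : ℝ) * (c.CT * (ω1 * δg ^ 2)) ≤
              c.Cn * n * (c.CT * (c.Ch * n * ω * δg ^ 2)) :=
              mul_le_mul this q2 (by positivity) (by positivity)
          _ = _ := by ring
      have q4 := mul_le_mul_of_nonneg_left q1 hβ
      unfold EL
      linarith
    have hx : 2 * (β * ε) ≤ 1 / 4 := by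
      have := mul_le_mul_of_nonneg_left hω2 hEL0
      linarith
    have hvn : ∀ y ∈ A', S.nrm (v y) ≤ 2 * ω1 := by
      intro y hy
      refine ((hv5 y hy).2 0 fun _ _ _ => Nat.zero_le _).2.trans ?_
      rw [Nat.cast_zero, mul_zero, neg_zero, Real.exp_zero, mul_one, hω1]
      refine mul_le_mul_of_nonneg_left (mul_le_mul_of_nonneg_right
        (mul_le_mul_of_nonneg_left (by linarith) (by linarith)) hω) (by norm_num)
    have hvη : ∀ y ∈ S.bd A', (v * η) y = η' y := by
      intro y hy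
      rw [Pi.mul_apply, hv1 y hy, inv_mul_cancel_right]
    have hvout : ∀ y, y ∉ W → S.d z y ≤ r + 1 → v y = 1 := by
      intro y hyW hyd
      have hyA' : y ∉ A' := fun h => hyW (S.mem_reg.1 h).1
      by_cases hyb : y ∈ S.bd A'
      · rw [hv1 y hyb, hadm.out y hyW (by omega), mul_inv_cancel]
      · exact hv2 y hyA' hyb
    -- boundary sites of the small region
    have hbdA : ∀ y ∈ S.bd A, y ∈ A' ∨ (y ∉ A' ∧ y ∉ W ∧ y ∈ S.bd A') := by
      intro y hy
      by_cases hyA' : y ∈ A'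
      · exact Or.inl hyA'
      · refine Or.inr ⟨hyA', fun hyW => hyA' ?_, ?_⟩
        · rw [hA', mem_reg]
          have := (S.bd_reg hy).2 hyW
          exact ⟨hyW, by omega⟩
        · obtain ⟨_, t, ht, hyt, x, hxt, hxA⟩ := S.mem_bd.1 hy
          exact S.mem_bd.2 ⟨hyA', t, ht, hyt, x, hxt, hAA' hxA⟩
    set ωr := 2 * (c.Ch * (S.bd A').card * q * ω) with hωr
    have hvr : ∀ y ∈ A', S.d z y ≤ r + 1 → S.nrm (v y) ≤ ωr := by
      intro y hy hyd
      refine ((hv5 y hy).2 (r' - r) fun x hx hne => ?_).2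
      have hxW : x ∈ W := by
        by_contra hxW
        exact hne (by rw [hadm.out x hxW (S.bd_reg hx).1, mul_inv_cancel])
      have h3 := (S.bd_reg hx).2 hxW
      have h4 := S.dtri z y x
      omega
    have hωr0 : 0 ≤ ωr := by positivity
    -- the functions
    set F : (ι → K) → ℝ≥0∞ := fun φ => dn ν (S.w β) A z φ s with hF
    have mF : Measurable F := dn_measL hw A z s
    have fF : ∀ φ, F φ ≠ ∞ := fun φ => S.dn_ne_top β A z φ s
    set ref : ι → K := updateFinset η A' fun _ => 1 with href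
    set g : ℝ := (F ref).toReal with hg
    have hup : ∀ (y : A' → K) (x : ι), x ∉ A' → updateFinset η A' y x = η x := by
      intro y x hx; unfold updateFinset; rw [dif_neg hx]
    have hup2 : ∀ (y : A' → K) (x : ι) (hx : x ∈ A'), updateFinset η A' y x = y ⟨x, hx⟩ := by
      intro y x hx; unfold updateFinset; rw [dif_pos hx]
    -- size bounds on the boundary of the small region
    have sz0 : ∀ y ∈ S.gd A' δg, ∀ x ∈ S.bd A, S.nrm (updateFinset η A' y x) ≤ δg := by
      intro y hy x hx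
      rcases hbdA x hx with h | ⟨h, _, hb⟩
      · rw [hup2 y x h]; exact hy ⟨x, h⟩
      · rw [hup y x h]; have := hadm.sm x hb; linarith
    have sz1 : ∀ y ∈ S.gd A' δg, ∀ x ∈ S.bd A, S.nrm ((v * updateFinset η A' y) x) ≤ 2 * δg := by
      intro y hy x hx
      rcases hbdA x hx with h | ⟨h, _, hb⟩
      · rw [Pi.mul_apply]
        have a1 := S.nrm_mul (v x) (updateFinset η A' y x)
        have a2 := hvn x h
        have a3 := sz0 y hy x hx
        linarith
      · have : (v * updateFinset η A' y) x = (v * η) x := by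
          rw [Pi.mul_apply, Pi.mul_apply, hup y x h]
        rw [this, hvη x hb]; have := hadm.sm' x hb; linarith
    have one_gd : (fun _ => 1 : A' → K) ∈ S.gd A' δg := by
      intro a; rw [S.nrm_one]; exact hδg0
    have out0 : ∀ (y y' : A' → K) (x : ι), x ∉ W → updateFinset η A' y x =
        updateFinset η A' y' x := by
      intro y y' x hx
      have : x ∉ A' := fun h => hx (S.mem_reg.1 h).1
      rw [hup y x this, hup y' x this]
    have cls2 : ∀ (φ φ' : ι → K) (x : ι), S.nrm (φ x) ≤ δ2 → S.nrm (φ' x) ≤ δ2 →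
        S.nrm (φ' x * (φ x)⁻¹) ≤ 2 * δ2 := by
      intro φ φ' x h1 h2
      have := S.nrm_mul (φ' x) (φ x)⁻¹
      rw [S.nrm_inv] at this
      linarith
    have adm01 : ∀ y ∈ S.gd A' δg, S.Adm W z r δ2 ωr (updateFinset η A' y)
        (v * updateFinset η A' y) := by
      intro y hy
      refine ⟨fun x hxW hxd => ?_, fun x hx => ?_, fun x hx => ?_, fun x hx => ?_⟩
      · rw [Pi.mul_apply, hvout x hxW hxd, one_mul]
      · have := sz0 y hy x hx; linarith
      · have := sz1 y hy x hx; linarith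
      · rw [Pi.mul_apply, mul_inv_cancel_right]
        rcases hbdA x hx with h | ⟨h, hxW, hb⟩
        · exact hvr x h (S.bd_reg hx).1
        · rw [hvout x hxW (S.bd_reg hx).1, S.nrm_one]; exact hωr0
    have admR : ∀ φ : ι → K, (∀ x, x ∉ W → S.d z x ≤ r + 1 → φ x = η x) →
        (∀ x ∈ S.bd A, S.nrm (φ x) ≤ δ2) →
        S.Adm W z r δ2 (2 * δ2) φ ref ∧ S.Adm W z r δ2 (2 * δ2) ref φ := by
      intro φ h3 h4
      have h5 : ∀ x ∈ S.bd A, S.nrm (ref x) ≤ δ2 := fun x hx => by
        have := sz0 _ one_gd x hx; linarith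
      have h6 : ∀ x, x ∉ W → ref x = η x := fun x hx =>
        hup _ x fun h => hx (S.mem_reg.1 h).1
      exact ⟨⟨fun x hxW hxd => by rw [h3 x hxW hxd, h6 x hxW], h4, h5,
          fun x hx => cls2 φ ref x (h4 x hx) (h5 x hx)⟩,
        ⟨fun x hxW hxd => by rw [h3 x hxW hxd, h6 x hxW], h5, h4,
          fun x hx => cls2 ref φ x (h5 x hx) (h4 x hx)⟩⟩
    have out1 : ∀ (y : A' → K) (x : ι), x ∉ W → S.d z x ≤ r + 1 →
        (v * updateFinset η A' y) x = η x := by
      intro y x hx hd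
      rw [Pi.mul_apply, hvout x hx hd, one_mul, hup y x fun h => hx (S.mem_reg.1 h).1]
    have out0' : ∀ (y : A' → K) (x : ι), x ∉ W → S.d z x ≤ r + 1 →
        updateFinset η A' y x = η x := fun y x hx _ => hup y x fun h => hx (S.mem_reg.1 h).1
    have hmm : Λ * (2 * δ2) + t = m := by rw [hmd]; ring
    have b1 : ∀ y ∈ S.gd A' δg, F (v * updateFinset η A' y) ≤ ENNReal.ofReal ((1 + m) * g) := by
      intro y hy
      have h3 := hRL (2 * δ2) ref (v * updateFinset η A' y) (by linarith)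
        (admR _ (out1 y) fun x hx => (sz1 y hy x hx).trans hδ2).2
      rw [ENNReal.le_ofReal_iff_toReal_le (fF _) (by positivity)]
      refine h3.trans (le_of_eq ?_)
      rw [← hmm]; ring
    have conv : ∀ {x : ℝ} {φ : ι → K}, 0 ≤ x → g ≤ x * (F φ).toReal →
        ENNReal.ofReal g ≤ ENNReal.ofReal x * F φ := by
      intro x φ hx h3
      rw [← ENNReal.ofReal_toReal (fF φ), ← ENNReal.ofReal_mul hx]
      exact ENNReal.ofReal_le_ofReal h3
    have b2 : ∀ y ∈ S.gd A' δg, ENNReal.ofReal g ≤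
        ENNReal.ofReal (1 + m) * F (v * updateFinset η A' y) := by
      intro y hy
      have h3 := hRL (2 * δ2) (v * updateFinset η A' y) ref (by linarith)
        (admR _ (out1 y) fun x hx => (sz1 y hy x hx).trans hδ2).1
      refine conv (by linarith) (h3.trans (le_of_eq ?_))
      rw [← hmm]; ring
    have b3 : ∀ y ∈ S.gd A' δg, ENNReal.ofReal g ≤
        ENNReal.ofReal (1 + m) * F (updateFinset η A' y) := by
      intro y hy
      have h3 := hRL (2 * δ2) (updateFinset η A' y) ref (by linarith)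
        (admR _ (out0' y) fun x hx => by
          have := sz0 y hy x hx; linarith).1
      refine conv (by linarith) (h3.trans (le_of_eq ?_))
      rw [← hmm]; ring
    have b4 : ∀ y ∈ S.gd A' δg, F (v * updateFinset η A' y) ≤
        ENNReal.ofReal (1 + (Λ * ωr + t)) * F (updateFinset η A' y) := by
      intro y hy
      have h3 := hRL ωr _ _ hωr0 (adm01 y hy)
      rw [← ENNReal.ofReal_toReal (fF (updateFinset η A' y)),
        ← ENNReal.ofReal_mul (by positivity),
        ENNReal.le_ofReal_iff_toReal_le (fF _) (by positivity)]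
      refine h3.trans (le_of_eq ?_)
      rw [hF]; ring
    -- the two systems
    have mW0 : Measurable fun y : A' → K => S.w β (updateFinset η A' y) :=
      (S.w_ms β).comp measurable_updateFinset
    have mv : Measurable fun φ : ι → K => v * φ :=
      measurable_pi_lambda _ fun i => by
        have := (measurable_pi_apply (X := fun _ : ι => K) i).const_mul (v i)
        exact this
    have mW1 : Measurable fun y : A' → K => S.w β (v * updateFinset η A' y) :=
      (S.w_ms β).comp (mv.comp measurable_updateFinset)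
    have mF0 : Measurable fun y : A' → K => F (updateFinset η A' y) :=
      mF.comp measurable_updateFinset
    have mF1 : Measurable fun y : A' → K => F (v * updateFinset η A' y) :=
      mF.comp (mv.comp measurable_updateFinset)
    have E1 : dn ν (S.w β) A' z η' s =
        (∫⁻ y, S.w β (v * updateFinset η A' y) * F (v * updateFinset η A' y)
          ∂(Measure.pi fun _ : A' => ν)) /
        ∫⁻ y, S.w β (v * updateFinset η A' y) ∂(Measure.pi fun _ : A' => ν) := by
      rw [S.dn_loc β hzA' (fun y hy => (hvη y hy).symm) s, ← ev_dn hw hAA' hzA]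
      unfold ev
      rw [In_shift, In_shift]
      rfl
    have E0 : dn ν (S.w β) A' z η s =
        (∫⁻ y, S.w β (updateFinset η A' y) * F (updateFinset η A' y)
          ∂(Measure.pi fun _ : A' => ν)) /
        ∫⁻ y, S.w β (updateFinset η A' y) ∂(Measure.pi fun _ : A' => ν) := by
      rw [← ev_dn hw hAA' hzA]
      rfl
    have Z1 : In ν A' (S.w β) (v * η) =
        ∫⁻ y, S.w β (v * updateFinset η A' y) ∂(Measure.pi fun _ : A' => ν) := by
      rw [In_shift]; rfl
    have Z0 : In ν A' (S.w β) η =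
        ∫⁻ y, S.w β (updateFinset η A' y) ∂(Measure.pi fun _ : A' => ν) := rfl
    have pZ1 := hw.pos A' (v * η)
    have fZ1 := hw.fin A' (v * η)
    have pZ0 := hw.pos A' η
    have fZ0 := hw.fin A' η
    rw [Z1] at pZ1 fZ1
    rw [Z0] at pZ0 fZ0
    have fE1 : ∫⁻ y, S.w β (v * updateFinset η A' y) * F (v * updateFinset η A' y)
          ∂(Measure.pi fun _ : A' => ν) ≠ ∞ := by
      intro h
      have := S.dn_ne_top β A' z η' s
      rw [E1, h] at this
      exact this (ENNReal.top_div_of_ne_top fZ1)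
    have fE0 : ∫⁻ y, S.w β (updateFinset η A' y) * F (updateFinset η A' y)
          ∂(Measure.pi fun _ : A' => ν) ≠ ∞ := by
      intro h
      have := S.dn_ne_top β A' z η s
      rw [E0, h] at this
      exact this (ENNReal.top_div_of_ne_top fZ0)
    have hbad1 := S.bad_shiftF β (ν := ν) (A := A') (δg := δg / 2) (δg' := δg) (κ := κ) (F := F)
      (v := v) (θ := η) (by
        refine (S.bayes_bad β hrr hz hs hδb hbg hκ1 hκ2 h1 h2 (θ := v * η) (fun y hy => ?_)).trans ?_
        · rw [hvη y hy]; exact hadm.sm' y hy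
        · rw [hF, ev_dn hw hAA' hzA]
          exact mul_le_mul_left (ENNReal.ofReal_le_ofReal hκ) _) (by
        intro a ha
        have := hvn a ha
        linarith)
    have hbad0 := S.bad_noshift β (ν := ν) (A := A') (δ := δ) (δg := δg) (δg' := δg) (κ := κ)
      h0 le_rfl (θ := η) hadm.sm
    have hgoodA : ∀ y : A' → K, y ∈ S.gd A' δg → |S.H (v * updateFinset η A' y) -
        S.H (updateFinset η A' y) - k| ≤ ε := by
      intro y hy
      refine hk _ (fun x hx => hup y x hx) fun x hx => ?_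
      rw [hup2 y x hx]; exact hy ⟨x, hx⟩
    have hρ : (0 : ℝ) ≤ 6 * (β * ε) + 2 * κ := by positivity
    have hρ1 : 6 * (β * ε) + 2 * κ ≤ 1 := by linarith
    have hexp : Real.exp (2 * (β * ε)) ≤ 1 + 2 * (2 * (β * ε)) := by
      have h3 : 0 ≤ 2 * (β * ε) := by positivity
      have := Real.abs_exp_sub_one_le (x := 2 * (β * ε)) (by rw [abs_of_nonneg h3]; linarith)
      rw [abs_of_nonneg h3] at this
      linarith [(abs_le.1 this).2]
    have core := layer_core (μ := Measure.pi fun _ : A' => ν) mW0 mW1 mF0 mF1 (S.gd_meas A' δg)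
      (a := Real.exp (-(β * (k + ε)))) (b := Real.exp (-(β * (k - ε)))) (g := g) (m := m)
      (l := Λ * ωr + t) (κ := κ) (ρ := 6 * (β * ε) + 2 * κ) (Real.exp_pos _) (Real.exp_pos _)
      ENNReal.toReal_nonneg hm0 hm (by positivity) hκ0 hκ8 hρ hρ1 (by
        have e : Real.exp (-(β * (k - ε))) = Real.exp (2 * (β * ε)) *
            Real.exp (-(β * (k + ε))) := by rw [← Real.exp_add]; congr 1; ring
        have h3 : 0 ≤ β * ε := by positivity
        have h4 : Real.exp (2 * (β * ε)) ≤ (1 + (6 * (β * ε) + 2 * κ)) * (1 - κ) := by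
          refine hexp.trans ?_
          nlinarith [mul_nonneg h3 hκ0]
        calc Real.exp (-(β * (k - ε))) = Real.exp (2 * (β * ε)) *
              Real.exp (-(β * (k + ε))) := e
          _ ≤ ((1 + (6 * (β * ε) + 2 * κ)) * (1 - κ)) * Real.exp (-(β * (k + ε))) :=
              mul_le_mul_of_nonneg_right h4 (Real.exp_pos _).le
          _ = _ := by ring) pZ0 fZ0 pZ1 fZ1 fE0 fE1
      (fun y hy => (S.w_le_of β hβ (hgoodA y hy)).2) (fun y hy => (S.w_le_of β hβ (hgoodA y hy)).1)
      hbad0 hbad1 b1 b2 b3 b4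
    rw [E1, E0]
    refine core.trans (mul_le_mul_of_nonneg_right ?_ ENNReal.toReal_nonneg)
    have e1 : Λ * ωr ≤ Λ * (2 * (c.Ch * n * q * ω)) := by
      refine mul_le_mul_of_nonneg_left ?_ hΛ
      rw [hωr]
      refine mul_le_mul_of_nonneg_left (mul_le_mul_of_nonneg_right (mul_le_mul_of_nonneg_right
        (mul_le_mul_of_nonneg_left (by linarith) (by linarith)) hq0.le) hω) (by norm_num)
    have e2 : 24 * (6 * (β * ε) + 2 * κ) * m ≤ 144 * (EL c β n δg * ω) * m + 24 * κ := by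
      have h3 := mul_le_mul_of_nonneg_right hεω hm0
      have h4 : 48 * κ * m ≤ 24 * κ := by nlinarith
      nlinarith
    nlinarith
  intro ω η η' hω hadm
  by_cases h : ω ≤ 2 * δ
  · exact main ω η η' hω h hadm
  · have hadm' : S.Adm W z r' δ (2 * δ) η η' :=
      ⟨hadm.out, hadm.sm, hadm.sm', fun y hy => by
        have q1 := S.nrm_mul (η' y) (η y)⁻¹
        rw [S.nrm_inv] at q1
        have q2 := hadm.sm y hy
        have q3 := hadm.sm' y hy
        linarith⟩
    refine (main (2 * δ) η η' (by linarith) le_rfl hadm').trans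
      (mul_le_mul_of_nonneg_right ?_ ENNReal.toReal_nonneg)
    have := mul_le_mul_of_nonneg_left (le_of_lt (not_le.1 h)) (by positivity :
      0 ≤ 4 * Λ * (c.Ch * n * q) + 144 * EL c β n δg * m)
    linarith

end Sys

end

end Pool.Agent.N990.Mach
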