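import Pool.Agent.N990.Mach.Iface
import Pool.Agent.N990.Mach.Core
import Pool.Agent.N986.PB.Expl

/-!
# The machine: integrals, shifts, locality, the disintegration identities
-/

set_option autoImplicit false
set_option linter.unusedSectionVars false

open MeasureTheory Finset Function
open scoped ENNReal Classical
open Pool.Agent.N986.PB

namespace Pool.Agent.N990.Mach

noncomputable section

/-! ### General facts on `In` -/

section gen

variable {ι : Type*} {E : Type*} [MeasurableSpace E] {ν : Measure E} [SigmaFinite ν]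

lemma meas_upd (z : ι) (s : E) : Measurable fun φ : ι → E => update φ z s := by
  have := measurable_update_left (X := fun _ : ι => E) (a := z) (x := s)
  exact this

lemma In_update {V : Finset ι} {z : ι} (hz : z ∉ V) {f : (ι → E) → ℝ≥0∞} (hf : Measurable f)
    (ψ : ι → E) (s : E) : In ν V f (update ψ z s) = In ν V (fun φ => f (update φ z s)) ψ := by
  unfold In
  rw [lmarginal_update_of_notMem hf hz]
  rfl

/-- weighted identity: the density at `z` in `A`, averaged over a larger set against a function
which does not depend on the variables in `A` -/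
lemma ev_dn_mul {w : (ι → E) → ℝ≥0∞} (hw : Good ν w) {A A' : Finset ι} (h : A ⊆ A') {z : ι}
    (hz : z ∈ A) {g : (ι → E) → ℝ≥0∞} (hg : Measurable g)
    (hgA : ∀ φ φ' : ι → E, (∀ y ∉ A, φ y = φ' y) → g φ = g φ') (ψ : ι → E) (s : E) :
    ev ν w A' (fun φ => dn ν w A z φ s * g φ) ψ =
      dn ν w A' z ψ s * ev ν w (A'.erase z) g (update ψ z s) := by
  have hd : Disjoint (A' \ A) A := Finset.sdiff_disjoint
  have hU : A' = (A' \ A) ∪ A := (Finset.sdiff_union_of_subset h).symm
  have hd' : Disjoint (A' \ A) (A.erase z) := hd.mono_right (Finset.erase_subset _ _)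
  have hU' : A'.erase z = (A' \ A) ∪ A.erase z := by
    ext y
    simp only [Finset.mem_erase, Finset.mem_union, Finset.mem_sdiff]
    constructor
    · rintro ⟨h1, h2⟩
      by_cases h3 : y ∈ A
      · exact Or.inr ⟨h1, h3⟩
      · exact Or.inl ⟨h2, h3⟩
    · rintro (⟨h1, h2⟩ | ⟨h1, h2⟩)
      · exact ⟨fun h3 => h2 (h3 ▸ hz), h1⟩
      · exact ⟨h1, h h2⟩
  have hzn : z ∉ A' \ A := fun h1 => (Finset.mem_sdiff.1 h1).2 hz
  have mdn : Measurable fun φ : ι → E => dn ν w A z φ s := by
    unfold dn
    refine Measurable.div ?_ (In_meas hw.meas)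
    exact (In_meas hw.meas).comp (meas_upd z s)
  have mwg : Measurable fun φ => w φ * g φ := hw.meas.mul hg
  have m1 : Measurable fun φ : ι → E => w φ * (dn ν w A z φ s * g φ) := hw.meas.mul (mdn.mul hg)
  -- the numerator
  have key : In ν A' (fun φ => w φ * (dn ν w A z φ s * g φ)) ψ =
      In ν (A'.erase z) (fun φ => w φ * g φ) (update ψ z s) := by
    rw [hU', In_union hd' mwg, In_update hzn (In_meas mwg)]
    conv_lhs => rw [hU]
    rw [In_union hd m1]
    congr 1
    funext φ
    have h1 : In ν A (fun φ' => w φ' * (dn ν w A z φ' s * g φ')) φ =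
        In ν A (fun φ' => (dn ν w A z φ s * g φ) * w φ') φ := by
      refine In_congr' fun φ' hφ' => ?_
      have e1 : dn ν w A z φ' s = dn ν w A z φ s := by
        unfold dn
        rw [In_congr w hφ']
        congr 1
        refine In_congr _ fun i hi => ?_
        by_cases hiz : i = z
        · subst hiz; simp
        · rw [update_of_ne hiz, update_of_ne hiz]
          exact hφ' i fun h2 => hi (Finset.mem_erase.2 ⟨hiz, h2⟩)
      have e2 : g φ' = g φ := hgA φ' φ fun y hy => hφ' y hy
      rw [e1, e2]; ring
    rw [h1, In_mul_left hw.meas (c := dn ν w A z φ s * g φ) fun _ _ => rfl]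
    have h2 : In ν (A.erase z) (fun φ' => w φ' * g φ') (update φ z s) =
        g φ * In ν (A.erase z) w (update φ z s) := by
      rw [show (fun φ' => w φ' * g φ') = fun φ' => g φ' * w φ' from by funext φ'; ring]
      refine In_mul_left hw.meas fun φ' hφ' => hgA φ' φ fun y hy => ?_
      rw [hφ' y fun h3 => hy (Finset.mem_of_mem_erase h3), update_of_ne]
      rintro rfl
      exact hy hz
    rw [h2]
    unfold dn
    have p1 := hw.pos A φ
    have p2 := hw.fin A φ
    calc In ν (A.erase z) w (update φ z s) / In ν A w φ * g φ * In ν A w φ =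
          In ν (A.erase z) w (update φ z s) / In ν A w φ * In ν A w φ * g φ := by ring
      _ = In ν (A.erase z) w (update φ z s) * g φ := by rw [ENNReal.div_mul_cancel p1 p2]
      _ = _ := by ring
  unfold ev
  rw [key]
  unfold dn
  rw [ENNReal.div_eq_inv_mul, ENNReal.div_eq_inv_mul, ENNReal.div_eq_inv_mul]
  have p1 := hw.pos (A'.erase z) (update ψ z s)
  have p2 := hw.fin (A'.erase z) (update ψ z s)
  calc (In ν A' w ψ)⁻¹ * In ν (A'.erase z) (fun φ => w φ * g φ) (update ψ z s) =
      (In ν A' w ψ)⁻¹ * (In ν (A'.erase z) w (update ψ z s) *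
        (In ν (A'.erase z) w (update ψ z s))⁻¹) *
        In ν (A'.erase z) (fun φ => w φ * g φ) (update ψ z s) := by
        rw [ENNReal.mul_inv_cancel p1 p2, mul_one]
    _ = _ := by ring

/-- the density is a martingale -/
lemma ev_dn {w : (ι → E) → ℝ≥0∞} (hw : Good ν w) {A A' : Finset ι} (h : A ⊆ A') {z : ι}
    (hz : z ∈ A) (ψ : ι → E) (s : E) :
    ev ν w A' (fun φ => dn ν w A z φ s) ψ = dn ν w A' z ψ s := by
  have h1 := ev_dn_mul hw h hz (g := fun _ => 1) measurable_const (fun _ _ _ => rfl) ψ s
  simp only [mul_one] at h1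
  rw [h1, ev_one hw, mul_one]

lemma dn_measL {w : (ι → E) → ℝ≥0∞} (hw : Good ν w) (A : Finset ι) (z : ι) (s : E) :
    Measurable fun φ : ι → E => dn ν w A z φ s := by
  unfold dn
  refine Measurable.div ?_ (In_meas hw.meas)
  exact (In_meas hw.meas).comp (meas_upd z s)

end gen

/-! ### Shift invariance -/

section shift

variable {ι : Type*} {K : Type*} [Group K] [MeasurableSpace K] [MeasurableMul K] {ν : Measure K}
  [SigmaFinite ν] [ν.IsMulLeftInvariant]

lemma In_shift (A : Finset ι) (f : (ι → K) → ℝ≥0∞) (v ψ : ι → K) :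
    In ν A f (v * ψ) = In ν A (fun φ => f (v * φ)) ψ := by
  unfold In lmarginal
  have h := lintegral_mul_left_eq_self (μ := Measure.pi fun _ : A => ν)
    (fun y : A → K => f (updateFinset (v * ψ) A y)) (fun i : A => v i)
  rw [← h]
  refine lintegral_congr fun y => ?_
  congr 1
  funext i
  simp only [updateFinset, Pi.mul_apply]
  split_ifs with hi
  · rfl
  · rfl

end shift

end

end Pool.Agent.N990.Mach
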