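import Pool.Agent.N990.Mach.Shift
import Pool.Agent.N990.Mach.Props

/-!
# The machine: relative Lipschitz estimates of the one-site density, base estimate
-/

set_option autoImplicit false
set_option linter.unusedSectionVars false

open MeasureTheory Finset Function
open scoped ENNReal Classical
open Pool.Agent.N986.PB

namespace Pool.Agent.N990.Mach

noncomputable section

variable {ι τ K Y V : Type*} [Group K] [MeasurableSpace K]
    [NormedAddCommGroup Y] [NormedSpace ℝ Y] [NormedAddCommGroup V] [NormedSpace ℝ V]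
    {ν : Measure K} {c : Cst}

lemma ind_le_one {X : Type*} (P : X → Prop) (x : X) : ind P x ≤ 1 := by
  unfold ind; split_ifs <;> simp

lemma ind_mono {X : Type*} {P Q : X → Prop} {x : X} (h : P x → Q x) : ind P x ≤ ind Q x := by
  unfold ind
  by_cases hp : P x
  · rw [if_pos hp, if_pos (h hp)]
  · rw [if_neg hp]; exact zero_le

namespace Sys

variable (S : Sys ι τ K Y V ν c) (β : ℝ)

/-- the part of `W` within distance `r` of `z` -/
def reg (W : Finset ι) (z : ι) (r : ℕ) : Finset ι := W.filter fun y => S.d z y ≤ r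

lemma mem_reg {W : Finset ι} {z : ι} {r : ℕ} {y : ι} : y ∈ S.reg W z r ↔ y ∈ W ∧ S.d z y ≤ r := by
  unfold reg; rw [Finset.mem_filter]

lemma self_mem_reg {W : Finset ι} {z : ι} (hz : z ∈ W) (r : ℕ) : z ∈ S.reg W z r := by
  rw [mem_reg]; exact ⟨hz, by rw [S.dself]; exact Nat.zero_le _⟩

lemma reg_sub (W : Finset ι) (z : ι) (r : ℕ) : S.reg W z r ⊆ W := Finset.filter_subset _ _

lemma bd_dist {A : Finset ι} {z y : ι} {r : ℕ} (hA : ∀ x ∈ A, S.d z x ≤ r) (hy : y ∈ S.bd A) :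
    S.d z y ≤ r + 1 := by
  obtain ⟨_, t, ht, hyt, x, hxt, hxA⟩ := S.mem_bd.1 hy
  have h1 := S.diam t ht x hxt y hyt
  have h2 := S.dtri z x y
  have h3 := hA x hxA
  omega

lemma bd_reg {W : Finset ι} {z y : ι} {r : ℕ} (hy : y ∈ S.bd (S.reg W z r)) :
    S.d z y ≤ r + 1 ∧ (y ∈ W → S.d z y = r + 1) := by
  have h1 : S.d z y ≤ r + 1 := S.bd_dist (fun x hx => (S.mem_reg.1 hx).2) hy
  refine ⟨h1, fun hW => ?_⟩
  have h2 := (S.mem_bd.1 hy).1
  rw [mem_reg, not_and, not_le] at h2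
  have := h2 hW
  omega

lemma bd_erase {A : Finset ι} {z y : ι} (hy : y ∈ S.bd (A.erase z)) : y = z ∨ y ∈ S.bd A := by
  obtain ⟨h1, t, ht, hyt, x, hxt, hxA⟩ := S.mem_bd.1 hy
  by_cases h : y = z
  · exact Or.inl h
  · refine Or.inr (S.mem_bd.2 ⟨fun h2 => h1 (Finset.mem_erase.2 ⟨h, h2⟩), t, ht, hyt, x, hxt,
      Finset.mem_of_mem_erase hxA⟩)

/-- Admissible pairs of boundary conditions at radius `r`. -/
structure Adm (W : Finset ι) (z : ι) (r : ℕ) (δ ω : ℝ) (η η' : ι → K) : Prop where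
  out : ∀ y, y ∉ W → S.d z y ≤ r + 1 → η y = η' y
  sm : ∀ y ∈ S.bd (S.reg W z r), S.nrm (η y) ≤ δ
  sm' : ∀ y ∈ S.bd (S.reg W z r), S.nrm (η' y) ≤ δ
  cls : ∀ y ∈ S.bd (S.reg W z r), S.nrm (η' y * (η y)⁻¹) ≤ ω

/-- The relative Lipschitz property of the density at `z` as a function of the boundary condition
at radius `r`. -/
def RL (W : Finset ι) (z : ι) (s : K) (r : ℕ) (δ Λ t : ℝ) : Prop :=
  ∀ (ω : ℝ) (η η' : ι → K), 0 ≤ ω → S.Adm W z r δ ω η η' →
    (dn ν (S.w β) (S.reg W z r) z η' s).toReal ≤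
      (1 + Λ * ω + t) * (dn ν (S.w β) (S.reg W z r) z η s).toReal

/-- Bad spins are rare in `A` if the boundary spins are small. -/
def BadB (A : Finset ι) (δ δg κ : ℝ) : Prop :=
  ∀ θ : ι → K, (∀ y ∈ S.bd A, S.nrm (θ y) ≤ δ) →
    ev ν (S.w β) A (ind fun φ => ∃ a ∈ A, δg < S.nrm (φ a)) θ ≤ ENNReal.ofReal κ

lemma bad_meas (A : Finset ι) (δg : ℝ) :
    Measurable (ind fun φ : ι → K => ∃ a ∈ A, δg < S.nrm (φ a)) := by
  unfold ind
  refine Measurable.ite ?_ measurable_const measurable_const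
  have : {φ : ι → K | ∃ a ∈ A, δg < S.nrm (φ a)} = ⋃ a ∈ A, {φ : ι → K | δg < S.nrm (φ a)} := by
    ext φ; simp
  rw [this]
  exact Finset.measurableSet_biUnion _ fun a _ =>
    measurableSet_lt measurable_const (S.nrm_meas.comp (measurable_pi_apply a))

/-- the good configurations in `A` -/
def gd (A : Finset ι) (δg : ℝ) : Set (A → K) := {y | ∀ a : A, S.nrm (y a) ≤ δg}

lemma gd_meas (A : Finset ι) (δg : ℝ) : MeasurableSet (S.gd A δg) := by
  unfold gd
  rw [Set.ofPred_forall]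
  exact MeasurableSet.iInter fun a =>
    measurableSet_le (S.nrm_meas.comp (measurable_pi_apply a)) measurable_const

lemma nrm_diff (g v : K) : S.nrm g - S.nrm v ≤ S.nrm (v * g) := by
  have h1 := S.nrm_mul v⁻¹ (v * g)
  rw [inv_mul_cancel_left, S.nrm_inv] at h1
  linarith

/-- the mass of the bad configurations for the shifted weight -/
lemma bad_shift [MeasurableMul K] [IsProbabilityMeasure ν] [ν.IsMulLeftInvariant]
    {A : Finset ι} {δ δg δg' κ : ℝ} (hB : S.BadB β A δ δg κ) {v θ : ι → K}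
    (hv : ∀ a ∈ A, S.nrm (v a) ≤ δg' - δg) (hθ : ∀ y ∈ S.bd A, S.nrm ((v * θ) y) ≤ δ) :
    ∫⁻ y in (S.gd A δg')ᶜ, S.w β (v * updateFinset θ A y) ∂(Measure.pi fun _ : A => ν) ≤
      ENNReal.ofReal κ * In ν A (fun φ => S.w β (v * φ)) θ := by
  have hw := S.w_good (ν := ν) β
  have h1 := hB (v * θ) hθ
  unfold ev at h1
  rw [ENNReal.div_le_iff (hw.pos _ _) (hw.fin _ _), In_shift, In_shift] at h1
  refine le_trans ?_ h1
  have h2 : ∫⁻ y in (S.gd A δg')ᶜ, S.w β (v * updateFinset θ A y) ∂(Measure.pi fun _ : A => ν) ≤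
      ∫⁻ y in (S.gd A δg')ᶜ, S.w β (v * updateFinset θ A y) *
        (ind fun φ => ∃ a ∈ A, δg < S.nrm (φ a)) (v * updateFinset θ A y)
        ∂(Measure.pi fun _ : A => ν) := by
    refine setLIntegral_mono' (S.gd_meas A δg').compl fun y hy => ?_
    have h3 : ∃ a ∈ A, δg < S.nrm ((v * updateFinset θ A y) a) := by
      rw [Set.mem_compl_iff] at hy
      unfold gd at hy
      simp only [Set.mem_ofPred_eq, not_forall, not_le] at hy
      obtain ⟨a, ha⟩ := hy
      refine ⟨a, a.2, ?_⟩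
      rw [Pi.mul_apply]
      have e : updateFinset θ A y a = y a := by
        unfold updateFinset; rw [dif_pos a.2]
      rw [e]
      have h4 := S.nrm_diff (y a) (v a)
      have h5 := hv a a.2
      linarith
    unfold ind
    rw [if_pos h3, mul_one]
  refine h2.trans ((setL_le _ _).trans (le_of_eq ?_))
  rfl

lemma bad_noshift [IsProbabilityMeasure ν]
    {A : Finset ι} {δ δg δg' κ : ℝ} (hB : S.BadB β A δ δg κ) (hδ : δg ≤ δg') {θ : ι → K}
    (hθ : ∀ y ∈ S.bd A, S.nrm (θ y) ≤ δ) :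
    ∫⁻ y in (S.gd A δg')ᶜ, S.w β (updateFinset θ A y) ∂(Measure.pi fun _ : A => ν) ≤
      ENNReal.ofReal κ * In ν A (S.w β) θ := by
  have hw := S.w_good (ν := ν) β
  have h1 := hB θ hθ
  unfold ev at h1
  rw [ENNReal.div_le_iff (hw.pos _ _) (hw.fin _ _)] at h1
  refine le_trans ?_ h1
  have h2 : ∫⁻ y in (S.gd A δg')ᶜ, S.w β (updateFinset θ A y) ∂(Measure.pi fun _ : A => ν) ≤
      ∫⁻ y in (S.gd A δg')ᶜ, S.w β (updateFinset θ A y) *
        (ind fun φ => ∃ a ∈ A, δg < S.nrm (φ a)) (updateFinset θ A y)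
        ∂(Measure.pi fun _ : A => ν) := by
    refine setLIntegral_mono' (S.gd_meas A δg').compl fun y hy => ?_
    have h3 : ∃ a ∈ A, δg < S.nrm ((updateFinset θ A y) a) := by
      rw [Set.mem_compl_iff] at hy
      unfold gd at hy
      simp only [Set.mem_ofPred_eq, not_forall, not_le] at hy
      obtain ⟨a, ha⟩ := hy
      refine ⟨a, a.2, ?_⟩
      have e : updateFinset θ A y a = y a := by
        unfold updateFinset; rw [dif_pos a.2]
      rw [e]
      linarith
    unfold ind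
    rw [if_pos h3, mul_one]
  refine h2.trans ((setL_le _ _).trans (le_of_eq ?_))
  rfl

/-- comparison of the weights from a comparison of the energies -/
lemma w_le_of {φ φ' : ι → K} {k e : ℝ} (hβ : 0 ≤ β) (h : |S.H φ' - S.H φ - k| ≤ e) :
    S.w β φ' ≤ ENNReal.ofReal (Real.exp (-(β * (k - e)))) * S.w β φ ∧
    ENNReal.ofReal (Real.exp (-(β * (k + e)))) * S.w β φ ≤ S.w β φ' := by
  unfold w
  rw [← ENNReal.ofReal_mul (Real.exp_pos _).le, ← ENNReal.ofReal_mul (Real.exp_pos _).le,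
    ← Real.exp_add, ← Real.exp_add]
  obtain ⟨h1, h2⟩ := abs_le.1 h
  constructor
  · refine ENNReal.ofReal_le_ofReal (Real.exp_le_exp.2 ?_)
    have := mul_le_mul_of_nonneg_left (show k - e ≤ S.H φ' - S.H φ by linarith) hβ
    linarith
  · refine ENNReal.ofReal_le_ofReal (Real.exp_le_exp.2 ?_)
    have := mul_le_mul_of_nonneg_left (show S.H φ' - S.H φ ≤ k + e by linarith) hβ
    linarith

end Sys

end

end Pool.Agent.N990.Mach
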