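import Pool.Agent.N990.Mach.SysB

/-!
# The machine: the shift lemma
-/

set_option autoImplicit false
set_option linter.unusedSectionVars false

open MeasureTheory Finset Function
open scoped ENNReal Classical
open Pool.Agent.N986.PB

namespace Pool.Agent.N990.Mach

noncomputable section

variable {ι τ K Y V : Type*} [Group K] [MeasurableSpace K]
    [NormedAddCommGroup Y] [NormedSpace ℝ Y] [NormedAddCommGroup V] [NormedSpace ℝ V]
    {ν : Measure K} {c : Cst}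

namespace Sys

variable (S : Sys ι τ K Y V ν c) (β : ℝ)

lemma yy_one : S.yy 1 = 0 := by
  have h := S.yy_le 1 (by rw [S.nrm_one]; exact c.hr0.le)
  rw [S.nrm_one, mul_zero] at h
  exact norm_le_zero_iff.1 h

lemma p_one : S.p 1 = 0 := by
  have h := S.p_le 0 1 (by rw [S.nrm_one]) c.hr0.le
  exact norm_le_zero_iff.1 h

/-- **Shift lemma** (deterministic part). -/
lemma shift_det {A : Finset ι} {η v : ι → K} {w : ι → V} {δ ω e : ℝ} (hω : 0 ≤ ω) (hωδ : ω ≤ δ)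
    (hδ : δ ≤ c.r0) (hη : ∀ y ∈ S.bd A, S.nrm (η y) ≤ δ)
    (hRel : ∀ y, y ∈ A ∨ y ∈ S.bd A → S.Rel δ ω (v y) (w y))
    (hb : ∀ χ : ι → Y, (∀ y, y ∉ A → χ y = 0) → (∀ y, ‖χ y‖ ≤ 2 * δ) →
      |∑ t ∈ tch S.T S.sp A, S.b t χ w| ≤ e) :
    ∃ k : ℝ, ∀ φ : ι → K, (∀ y, y ∉ A → φ y = η y) → (∀ y ∈ A, S.nrm (φ y) ≤ δ) →
      |S.H (v * φ) - S.H φ - k| ≤ c.Cn * A.card * (c.CT * (ω * δ ^ 2)) + e := by
  set φ0 : ι → K := fun y => if y ∈ A then 1 else η y with hφ0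
  refine ⟨∑ t ∈ tch S.T S.sp A, (S.b t (fun y => S.yy (φ0 y)) w + S.cc t w) +
    ∑ t ∈ S.T \ tch S.T S.sp A, (S.h t (v * η) - S.h t η), fun φ hφ hφA => ?_⟩
  have h1 : S.H (v * φ) - S.H φ = ∑ t ∈ tch S.T S.sp A, (S.h t (v * φ) - S.h t φ) +
      ∑ t ∈ S.T \ tch S.T S.sp A, (S.h t (v * η) - S.h t η) := by
    rw [S.H_spl A, S.H_spl A φ]
    unfold HA
    rw [Finset.sum_sub_distrib, Finset.sum_sub_distrib]
    have e1 : ∑ t ∈ S.T \ tch S.T S.sp A, S.h t (v * φ) =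
        ∑ t ∈ S.T \ tch S.T S.sp A, S.h t (v * η) := by
      refine Finset.sum_congr rfl fun t ht => ?_
      obtain ⟨a1, a2⟩ := S.not_tch ht
      refine S.hloc t a1 _ _ fun y hy => ?_
      rw [Pi.mul_apply, Pi.mul_apply, hφ y (a2 y hy)]
    have e2 : ∑ t ∈ S.T \ tch S.T S.sp A, S.h t φ = ∑ t ∈ S.T \ tch S.T S.sp A, S.h t η := by
      refine Finset.sum_congr rfl fun t ht => ?_
      obtain ⟨a1, a2⟩ := S.not_tch ht
      exact S.hloc t a1 _ _ fun y hy => hφ y (a2 y hy)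
    rw [e1, e2]; ring
  set χ : ι → Y := (fun y => S.yy (φ y)) - fun y => S.yy (φ0 y) with hχ
  have h2 : ∀ t, S.b t (fun y => S.yy (φ y)) w =
      S.b t (fun y => S.yy (φ0 y)) w + S.b t χ w := by
    intro t
    rw [← S.b_add]
    congr 1
    rw [hχ]; abel
  have h3 : S.H (v * φ) - S.H φ - (∑ t ∈ tch S.T S.sp A,
      (S.b t (fun y => S.yy (φ0 y)) w + S.cc t w) +
      ∑ t ∈ S.T \ tch S.T S.sp A, (S.h t (v * η) - S.h t η)) =
      ∑ t ∈ tch S.T S.sp A, (S.h t (v * φ) - S.h t φ -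
        (S.b t (fun y => S.yy (φ y)) w + S.cc t w)) + ∑ t ∈ tch S.T S.sp A, S.b t χ w := by
    rw [h1, Finset.sum_sub_distrib (f := fun t => S.h t (v * φ) - S.h t φ)]
    have : ∑ t ∈ tch S.T S.sp A, (S.b t (fun y => S.yy (φ y)) w + S.cc t w) =
        ∑ t ∈ tch S.T S.sp A, (S.b t (fun y => S.yy (φ0 y)) w + S.cc t w) +
        ∑ t ∈ tch S.T S.sp A, S.b t χ w := by
      rw [← Finset.sum_add_distrib]
      refine Finset.sum_congr rfl fun t _ => ?_
      rw [h2]; ring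
    rw [this]; ring
  rw [h3]
  have h0 : 0 ≤ δ := hω.trans hωδ
  have h4 : |∑ t ∈ tch S.T S.sp A, S.b t χ w| ≤ e := by
    refine hb χ (fun y hy => ?_) fun y => ?_
    · rw [hχ, hφ0]
      simp only [Pi.sub_apply, if_neg hy, hφ y hy, sub_self]
    · rw [hχ, hφ0]
      simp only [Pi.sub_apply]
      by_cases hy : y ∈ A
      · rw [if_pos hy, S.yy_one, sub_zero]
        refine (S.yy_le _ ((hφA y hy).trans hδ)).trans ?_
        have := hφA y hy
        linarith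
      · rw [if_neg hy, hφ y hy, sub_self, norm_zero]; positivity
  have h5 : |∑ t ∈ tch S.T S.sp A, (S.h t (v * φ) - S.h t φ -
      (S.b t (fun y => S.yy (φ y)) w + S.cc t w))| ≤ c.Cn * A.card * (c.CT * (ω * δ ^ 2)) := by
    refine (Finset.abs_sum_le_sum_abs _ _).trans ?_
    refine (Finset.sum_le_sum (g := fun _ => c.CT * (ω * δ ^ 2)) fun t ht => ?_).trans ?_
    · refine S.taylor t (S.tch_sb A ht) φ v w δ ω hω hωδ hδ (fun y hy => ?_) fun y hy => ?_
      · rcases S.sp_cases ht hy with h | h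
        · exact hφA y h
        · rw [hφ y (S.mem_bd.1 h).1]; exact hη y h
      · exact hRel y (S.sp_cases ht hy)
    · rw [Finset.sum_const, nsmul_eq_mul]
      refine mul_le_mul_of_nonneg_right (S.tcard A) ?_
      have := c.hCT
      positivity
  exact (abs_add_le _ _).trans (add_le_add h5 h4)

/-- the shift field with given boundary values -/
lemma shift_field {A : Finset ι} (hA : A ⊆ S.Lam) (vb : ι → K) {ω δ : ℝ} (hω : 0 ≤ ω)
    (hvb : ∀ y ∈ S.bd A, S.nrm (vb y) ≤ ω)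
    (hωδ : c.Ch * ((S.bd A).card + 1) * ω ≤ δ) (hδ : δ ≤ c.r0) :
    ∃ (v : ι → K) (w : ι → V), (∀ y ∈ S.bd A, v y = vb y) ∧
      (∀ y, y ∉ A → y ∉ S.bd A → v y = 1) ∧
      (∀ y, y ∈ A ∨ y ∈ S.bd A → S.Rel δ (c.Ch * ((S.bd A).card + 1) * ω) (v y) (w y)) ∧
      (∀ χ : ι → Y, (∀ y, y ∉ A → χ y = 0) → ∑ t ∈ tch S.T S.sp A, S.b t χ w = 0) ∧
      (∀ y ∈ A, v y = S.ex (w y) ∧ ∀ r : ℕ, (∀ x ∈ S.bd A, vb x ≠ 1 → r ≤ S.d y x) →
        ‖w y‖ ≤ c.Ch * (S.bd A).card * Real.exp (-(c.al * r)) * ω ∧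
        S.nrm (v y) ≤ 2 * (c.Ch * (S.bd A).card * Real.exp (-(c.al * r)) * ω)) := by
  have hCh := c.hCh
  have hal := c.hal
  have hcard : (0 : ℝ) ≤ (S.bd A).card := Nat.cast_nonneg _
  set ω1 : ℝ := c.Ch * ((S.bd A).card + 1) * ω with hω1
  have hωω1 : ω ≤ ω1 := by
    rw [hω1]
    have : 1 ≤ c.Ch * ((S.bd A).card + 1) := by nlinarith
    nlinarith
  have hω1r : ω1 ≤ c.r0 := hωδ.trans hδ
  obtain ⟨w, hw1, hw2, hw3⟩ := S.harm A hA fun y => if y ∈ S.bd A then S.p (vb y) else 0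
  have hpn : ∀ x ∈ S.bd A, ‖(if x ∈ S.bd A then S.p (vb x) else 0 : V)‖ ≤ ω := by
    intro x hx
    rw [if_pos hx]
    exact S.p_le ω _ (hvb x hx) (hωω1.trans hω1r)
  have hgen : ∀ y ∈ A, ∀ r : ℕ, (∀ x ∈ S.bd A, vb x ≠ 1 → r ≤ S.d y x) →
      ‖w y‖ ≤ c.Ch * (S.bd A).card * Real.exp (-(c.al * r)) * ω := by
    intro y hy r hr
    refine (hw3 y hy).trans ?_
    rw [mul_assoc, mul_assoc]
    refine mul_le_mul_of_nonneg_left ?_ (by linarith)
    refine (Finset.sum_le_sum (g := fun _ => Real.exp (-(c.al * r)) * ω) fun x hx => ?_).trans ?_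
    · by_cases h1 : vb x = 1
      · have hx' : x ∈ S.bd A := hx
        rw [if_pos hx', h1, S.p_one, norm_zero, mul_zero]
        positivity
      · refine mul_le_mul ?_ (hpn x hx) (norm_nonneg _) (Real.exp_pos _).le
        refine Real.exp_le_exp.2 ?_
        have h2 : (r : ℝ) ≤ S.d y x := by exact_mod_cast hr x hx h1
        have := mul_le_mul_of_nonneg_left h2 hal.le
        linarith
    · rw [Finset.sum_const, nsmul_eq_mul]
      exact le_rfl
  have hw0 : ∀ y ∈ A, ‖w y‖ ≤ ω1 := by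
    intro y hy
    refine (hgen y hy 0 fun _ _ _ => Nat.zero_le _).trans ?_
    rw [hω1, Nat.cast_zero, mul_zero, neg_zero, Real.exp_zero, mul_one]
    refine mul_le_mul_of_nonneg_right ?_ hω
    exact mul_le_mul_of_nonneg_left (by linarith) (by linarith)
  refine ⟨fun y => if y ∈ A then S.ex (w y) else if y ∈ S.bd A then vb y else 1, w,
    fun y hy => ?_, fun y hy hy' => ?_, fun y hy => ?_, hw2,
    fun y hy => ⟨if_pos hy, fun r hr => ⟨hgen y hy r hr, ?_⟩⟩⟩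
  · simp only
    rw [if_neg (S.mem_bd.1 hy).1, if_pos hy]
  · simp only
    rw [if_neg hy, if_neg hy']
  · simp only
    by_cases h1 : y ∈ A
    · rw [if_pos h1]
      exact S.rel_ex δ ω1 _ (hw0 y h1) hωδ hδ
    · rcases hy with hy | hy
      · exact absurd hy h1
      · rw [if_neg h1, if_pos hy, hw1 y h1, if_pos hy]
        exact S.rel_p δ ω1 _ ((hvb y hy).trans hωω1) hωδ hδ
  · simp only
    rw [if_pos hy]
    refine S.ex_nrm _ _ (hgen y hy r hr) ?_
    refine le_trans ?_ hω1r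
    rw [hω1]
    have h1 : Real.exp (-(c.al * r)) ≤ 1 := Real.exp_le_one_iff.2 (by
      have : 0 ≤ c.al * r := by positivity
      linarith)
    refine mul_le_mul_of_nonneg_right ?_ hω
    rw [mul_assoc]
    refine mul_le_mul_of_nonneg_left ?_ (by linarith)
    nlinarith

end Sys

end

end Pool.Agent.N990.Mach
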