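import Pool.Agent.N990.Mach.Loc

/-!
# The machine: basic facts on the Boltzmann weight of a system
-/

set_option autoImplicit false
set_option linter.unusedSectionVars false

open MeasureTheory Finset Function
open scoped ENNReal Classical
open Pool.Agent.N986.PB

namespace Pool.Agent.N990.Mach

noncomputable section

variable {ι τ K Y V : Type*} [Group K] [MeasurableSpace K]
    [NormedAddCommGroup Y] [NormedSpace ℝ Y] [NormedAddCommGroup V] [NormedSpace ℝ V]
    {ν : Measure K} {c : Cst}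

namespace Sys

variable (S : Sys ι τ K Y V ν c) (β : ℝ)

lemma H_bd0 : ∃ M : ℝ, ∀ φ, |S.H φ| ≤ M := by
  have h : ∀ t, ∃ M : ℝ, t ∈ S.T → ∀ φ, |S.h t φ| ≤ M := by
    intro t
    by_cases ht : t ∈ S.T
    · obtain ⟨M, hM⟩ := S.hbd t ht
      exact ⟨M, fun _ => hM⟩
    · exact ⟨0, fun h => absurd h ht⟩
  choose M hM using h
  refine ⟨∑ t ∈ S.T, M t, fun φ => ?_⟩
  unfold H
  exact (Finset.abs_sum_le_sum_abs _ _).trans (Finset.sum_le_sum fun t ht => hM t ht φ)

lemma H_ms : Measurable S.H := by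
  unfold H
  exact Finset.measurable_sum _ fun t ht => S.hmeas t ht

lemma w_ms : Measurable (S.w β) := by
  unfold w
  exact ENNReal.measurable_ofReal.comp (Real.measurable_exp.comp (S.H_ms.const_mul β).neg)

lemma w_bdd : ∃ M : ℝ, ∀ φ, ENNReal.ofReal (Real.exp (-M)) ≤ S.w β φ ∧
    S.w β φ ≤ ENNReal.ofReal (Real.exp M) := by
  obtain ⟨M, hM⟩ := S.H_bd0
  refine ⟨|β| * M, fun φ => ⟨?_, ?_⟩⟩
  · refine ENNReal.ofReal_le_ofReal (Real.exp_le_exp.2 ?_)
    have h1 : |β * S.H φ| ≤ |β| * M := by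
      rw [abs_mul]; exact mul_le_mul_of_nonneg_left (hM φ) (abs_nonneg _)
    have := abs_le.1 h1
    linarith [this.2]
  · refine ENNReal.ofReal_le_ofReal (Real.exp_le_exp.2 ?_)
    have h1 : |β * S.H φ| ≤ |β| * M := by
      rw [abs_mul]; exact mul_le_mul_of_nonneg_left (hM φ) (abs_nonneg _)
    have := abs_le.1 h1
    linarith [this.1]

lemma w_ne_zero (φ : ι → K) : S.w β φ ≠ 0 := by
  unfold w
  rw [Ne, ENNReal.ofReal_eq_zero, not_le]
  exact Real.exp_pos _

lemma w_ne_top (φ : ι → K) : S.w β φ ≠ ∞ := ENNReal.ofReal_ne_top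

lemma w_good [IsProbabilityMeasure ν] : Good ν (S.w β) where
  meas := S.w_ms β
  pos V ψ := by
    obtain ⟨M, hM⟩ := S.w_bdd β
    have h1 : In ν V (fun _ => ENNReal.ofReal (Real.exp (-M))) ψ ≤ In ν V (S.w β) ψ :=
      In_mono (fun φ => (hM φ).1) ψ
    have h2 : In ν V (fun _ => ENNReal.ofReal (Real.exp (-M))) ψ =
        ENNReal.ofReal (Real.exp (-M)) := by
      unfold In lmarginal; simp
    rw [h2] at h1
    intro h3
    rw [h3, nonpos_iff_eq_zero, ENNReal.ofReal_eq_zero] at h1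
    exact absurd (Real.exp_pos _) (not_lt.2 h1)
  fin V ψ := by
    obtain ⟨M, hM⟩ := S.w_bdd β
    have h1 : In ν V (S.w β) ψ ≤ In ν V (fun _ => ENNReal.ofReal (Real.exp M)) ψ :=
      In_mono (fun φ => (hM φ).2) ψ
    have h2 : In ν V (fun _ => ENNReal.ofReal (Real.exp M)) ψ =
        ENNReal.ofReal (Real.exp M) := by
      unfold In lmarginal; simp
    rw [h2] at h1
    exact ne_top_of_le_ne_top ENNReal.ofReal_ne_top h1

/-- weight of the terms touching `A` -/
def wA (A : Finset ι) (φ : ι → K) : ℝ≥0∞ := ENNReal.ofReal (Real.exp (-(β * S.HA A φ)))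

/-- weight of the other terms -/
def wr (A : Finset ι) (φ : ι → K) : ℝ≥0∞ :=
  ENNReal.ofReal (Real.exp (-(β * ∑ t ∈ S.T \ tch S.T S.sp A, S.h t φ)))

lemma tch_sb (A : Finset ι) : tch S.T S.sp A ⊆ S.T := Finset.filter_subset _ _

lemma H_spl (A : Finset ι) (φ : ι → K) :
    S.H φ = ∑ t ∈ S.T \ tch S.T S.sp A, S.h t φ + S.HA A φ := by
  unfold H HA
  exact (Finset.sum_sdiff (S.tch_sb A)).symm

lemma w_split (A : Finset ι) (φ : ι → K) : S.w β φ = S.wr β A φ * S.wA β A φ := by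
  unfold w wr wA
  rw [← ENNReal.ofReal_mul (Real.exp_pos _).le, ← Real.exp_add, S.H_spl A]
  congr 2; ring

lemma not_tch {A : Finset ι} {t : τ} (ht : t ∈ S.T \ tch S.T S.sp A) :
    t ∈ S.T ∧ ∀ y ∈ S.sp t, y ∉ A := by
  obtain ⟨h1, h2⟩ := Finset.mem_sdiff.1 ht
  refine ⟨h1, fun y hy hyA => h2 (Finset.mem_filter.2 ⟨h1, ?_⟩)⟩
  rw [Finset.not_disjoint_iff]
  exact ⟨y, hy, hyA⟩

lemma wr_congr {A : Finset ι} {φ φ' : ι → K} (h : ∀ y ∉ A, φ y = φ' y) :
    S.wr β A φ = S.wr β A φ' := by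
  unfold wr
  congr 4
  refine Finset.sum_congr rfl fun t ht => ?_
  obtain ⟨h1, h2⟩ := S.not_tch ht
  exact S.hloc t h1 φ φ' fun y hy => h y (h2 y hy)

lemma mem_tch {A : Finset ι} {t : τ} : t ∈ tch S.T S.sp A ↔ t ∈ S.T ∧ ∃ y ∈ S.sp t, y ∈ A := by
  unfold tch
  rw [Finset.mem_filter, Finset.not_disjoint_iff]

lemma mem_bd {A : Finset ι} {y : ι} :
    y ∈ S.bd A ↔ y ∉ A ∧ ∃ t ∈ S.T, y ∈ S.sp t ∧ ∃ x ∈ S.sp t, x ∈ A := by
  unfold bd cl
  rw [Finset.mem_sdiff, Finset.mem_biUnion]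
  constructor
  · rintro ⟨⟨t, ht, hy⟩, h2⟩
    obtain ⟨h3, h4⟩ := S.mem_tch.1 ht
    exact ⟨h2, t, h3, hy, h4⟩
  · rintro ⟨h2, t, h3, hy, h4⟩
    exact ⟨⟨t, S.mem_tch.2 ⟨h3, h4⟩, hy⟩, h2⟩

/-- a site in the support of a term touching `A` is in `A` or on the boundary -/
lemma sp_cases {A : Finset ι} {t : τ} (ht : t ∈ tch S.T S.sp A) {y : ι} (hy : y ∈ S.sp t) :
    y ∈ A ∨ y ∈ S.bd A := by
  by_cases h : y ∈ A
  · exact Or.inl h
  · obtain ⟨h3, h4⟩ := S.mem_tch.1 ht
    exact Or.inr (S.mem_bd.2 ⟨h, t, h3, hy, h4⟩)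

lemma wA_congr {A : Finset ι} {φ φ' : ι → K} (h : ∀ y, y ∈ A ∨ y ∈ S.bd A → φ y = φ' y) :
    S.wA β A φ = S.wA β A φ' := by
  unfold wA HA
  congr 4
  refine Finset.sum_congr rfl fun t ht => ?_
  exact S.hloc t (S.tch_sb A ht) φ φ' fun y hy => h y (S.sp_cases ht hy)

lemma HA_ms (A : Finset ι) : Measurable (S.HA A) := by
  unfold HA
  exact Finset.measurable_sum _ fun t ht => S.hmeas t (S.tch_sb A ht)

lemma wA_meas (A : Finset ι) : Measurable (S.wA β A) := by
  unfold wA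
  exact ENNReal.measurable_ofReal.comp
    (Real.measurable_exp.comp ((S.HA_ms A).const_mul β).neg)

lemma wr_ne_zero (A : Finset ι) (φ : ι → K) : S.wr β A φ ≠ 0 := by
  unfold wr
  rw [Ne, ENNReal.ofReal_eq_zero, not_le]
  exact Real.exp_pos _

lemma wr_ne_top (A : Finset ι) (φ : ι → K) : S.wr β A φ ≠ ∞ := ENNReal.ofReal_ne_top

/-- locality of the density -/
lemma dn_loc [IsProbabilityMeasure ν] {A : Finset ι} {z : ι} (hz : z ∈ A) {η η' : ι → K}
    (h : ∀ y ∈ S.bd A, η y = η' y) (s : K) :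
    dn ν (S.w β) A z η s = dn ν (S.w β) A z η' s := by
  have key : ∀ θ : ι → K, dn ν (S.w β) A z θ s =
      In ν (A.erase z) (S.wA β A) (update θ z s) / In ν A (S.wA β A) θ := by
    intro θ
    unfold dn
    have e1 : In ν (A.erase z) (S.w β) (update θ z s) =
        S.wr β A θ * In ν (A.erase z) (S.wA β A) (update θ z s) := by
      rw [← In_mul_left (S.wA_meas β A) (g := S.wr β A) (c := S.wr β A θ)]
      · exact In_congr' fun φ _ => S.w_split β A φ
      · intro φ hφ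
        refine S.wr_congr β fun y hy => ?_
        have hyz : y ≠ z := fun h => hy (h ▸ hz)
        rw [hφ y fun h3 => hy (Finset.mem_of_mem_erase h3), update_of_ne hyz]
    have e2 : In ν A (S.w β) θ = S.wr β A θ * In ν A (S.wA β A) θ := by
      rw [← In_mul_left (S.wA_meas β A) (g := S.wr β A) (c := S.wr β A θ)]
      · exact In_congr' fun φ _ => S.w_split β A φ
      · intro φ hφ
        exact S.wr_congr β hφ
    rw [e1, e2, ENNReal.mul_div_mul_left _ _ (S.wr_ne_zero β A θ) (S.wr_ne_top β A θ)]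
  rw [key, key]
  congr 1
  · unfold In lmarginal
    refine lintegral_congr fun y => S.wA_congr β fun x hx => ?_
    simp only [updateFinset_def]
    split_ifs with h1
    · rfl
    · by_cases hxz : x = z
      · subst hxz; simp
      · rw [update_of_ne hxz, update_of_ne hxz]
        rcases hx with hx | hx
        · exact absurd (Finset.mem_erase.2 ⟨hxz, hx⟩) h1
        · exact h x hx
  · unfold In lmarginal
    refine lintegral_congr fun y => S.wA_congr β fun x hx => ?_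
    simp only [updateFinset_def]
    split_ifs with h1
    · rfl
    · rcases hx with hx | hx
      · exact absurd hx h1
      · exact h x hx

end Sys

end

end Pool.Agent.N990.Mach
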